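import Mathlib

/-!
Passing to the limit in functions with controlled third derivatives.
-/

set_option autoImplicit false
set_option maxHeartbeats 1000000

namespace Pool.Agent.X135.AL

open Filter Topology Set

theorem side_right {f f' : ℝ → ℝ} {C : ℝ} (hf : ∀ t, HasDerivAt f (f' t) t)
    (hb : ∀ t, 1/2 < t → t ≤ 1 → |f' t| ≤ C * (t - 1/2)^(-(1/3) : ℝ)) {x y : ℝ}
    (hx : 1/2 ≤ x) (hxy : x ≤ y) (hy : y ≤ 1) :
    |f y - f x| ≤ 3/2 * C * ((y - 1/2)^(2/3 : ℝ) - (x - 1/2)^(2/3 : ℝ)) := by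
  obtain ⟨ψ, hψ⟩ : ∃ ψ : ℝ → ℝ, ψ = fun t => 3/2 * C * (t - 1/2)^(2/3 : ℝ) := ⟨_, rfl⟩
  have hψc : Continuous ψ := by
    rw [hψ]
    exact continuous_const.mul
      ((continuous_id.sub continuous_const).rpow_const (fun _ => Or.inr (by norm_num)))
  have hψd : ∀ t, 1/2 < t → HasDerivAt ψ (C * (t - 1/2)^(-(1/3) : ℝ)) t := by
    intro t ht
    have h1 : HasDerivAt (fun t : ℝ => t - 1/2) 1 t := (hasDerivAt_id t).sub_const _
    have h2 := (h1.rpow_const (p := 2/3) (Or.inl (by linarith))).const_mul (3/2 * C)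
    rw [hψ]
    refine h2.congr_deriv ?_
    rw [show (2/3 : ℝ) - 1 = -(1/3) by norm_num]
    ring
  have hfc : Continuous f := continuous_iff_continuousAt.mpr fun t => (hf t).continuousAt
  have key : ∀ ε : ℝ, |ε| ≤ 1 → MonotoneOn (fun t => ψ t + ε * f t) (Icc (1/2) 1) := by
    intro ε hε
    apply monotoneOn_of_deriv_nonneg (convex_Icc _ _)
    · exact (hψc.add (continuous_const.mul hfc)).continuousOn
    · intro t ht
      rw [interior_Icc] at ht
      exact ((hψd t ht.1).fun_add ((hf t).const_mul ε)).differentiableAt.differentiableWithinAt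
    · intro t ht
      rw [interior_Icc] at ht
      rw [((hψd t ht.1).fun_add ((hf t).const_mul ε)).deriv]
      have h3 := hb t ht.1 ht.2.le
      have h4 : |ε * f' t| ≤ |f' t| := by
        rw [abs_mul]
        exact mul_le_of_le_one_left (abs_nonneg _) hε
      have h5 := neg_abs_le (ε * f' t)
      linarith
  have h1 := key 1 (by norm_num) ⟨hx, hxy.trans hy⟩ ⟨hx.trans hxy, hy⟩ hxy
  have h2 := key (-1) (by norm_num) ⟨hx, hxy.trans hy⟩ ⟨hx.trans hxy, hy⟩ hxy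
  simp only [hψ] at h1 h2
  rw [abs_le]
  constructor <;> linarith

theorem side_abs {f f' : ℝ → ℝ} {C : ℝ} (hC : 0 ≤ C) (hf : ∀ t, HasDerivAt f (f' t) t)
    (hb : ∀ t, 0 ≤ t → t ≤ 1 → t ≠ 1/2 → |f' t| ≤ C * |t - 1/2|^(-(1/3) : ℝ)) {x y : ℝ}
    (hx : x ∈ Icc (0:ℝ) 1) (hy : y ∈ Icc (0:ℝ) 1) (hxy : 0 ≤ (x - 1/2) * (y - 1/2)) :
    |f x - f y| ≤ 3/2 * C * |(|x - 1/2|^(2/3 : ℝ) - |y - 1/2|^(2/3 : ℝ))| := by
  have hr : ∀ x y : ℝ, 1/2 ≤ x → x ≤ y → y ≤ 1 →
      |f y - f x| ≤ 3/2 * C * ((y - 1/2)^(2/3 : ℝ) - (x - 1/2)^(2/3 : ℝ)) := by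
    intro x y h1 h2 h3
    apply side_right hf _ h1 h2 h3
    intro t ht ht1
    have := hb t (by linarith) ht1 (by linarith)
    rwa [abs_of_pos (by linarith : 0 < t - 1/2)] at this
  have hl : ∀ x y : ℝ, 1/2 ≤ x → x ≤ y → y ≤ 1 →
      |f (1 - y) - f (1 - x)| ≤ 3/2 * C * ((y - 1/2)^(2/3 : ℝ) - (x - 1/2)^(2/3 : ℝ)) := by
    intro x y h1 h2 h3
    apply side_right (f := fun t => f (1 - t)) (f' := fun t => - f' (1 - t)) _ _ h1 h2 h3
    · intro t
      exact (hf (1 - t)).comp_const_sub 1 t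
    · intro t ht ht1
      have := hb (1 - t) (by linarith) (by linarith) (by linarith)
      rw [abs_neg]
      rwa [show (1:ℝ) - t - 1/2 = -(t - 1/2) by ring, abs_neg,
        abs_of_pos (by linarith : 0 < t - 1/2)] at this
  -- symmetric in the pair
  have main : ∀ x y : ℝ, x ∈ Icc (0:ℝ) 1 → y ∈ Icc (0:ℝ) 1 → 0 ≤ (x - 1/2) * (y - 1/2) →
      |x - 1/2| ≤ |y - 1/2| →
      |f y - f x| ≤ 3/2 * C * (|y - 1/2|^(2/3 : ℝ) - |x - 1/2|^(2/3 : ℝ)) := by
    intro x y hx hy hxy hle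
    rcases le_total (1/2) y with hy2 | hy2
    · rcases le_total (1/2) x with hx2 | hx2
      · rw [abs_of_nonneg (by linarith : 0 ≤ x - 1/2), abs_of_nonneg (by linarith : 0 ≤ y - 1/2)]
          at hle ⊢
        exact hr x y hx2 (by linarith) hy.2
      · -- x ≤ 1/2 ≤ y
        have h0 : (x - 1/2) * (y - 1/2) = 0 :=
          le_antisymm (mul_nonpos_of_nonpos_of_nonneg (by linarith) (by linarith)) hxy
        rcases mul_eq_zero.mp h0 with h | h
        · have hx' : x = 1/2 := by linarith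
          subst hx'
          rw [abs_of_nonneg (by linarith : 0 ≤ y - 1/2)]
          have := hr (1/2) y le_rfl hy2 hy.2
          simpa using this
        · rw [h, abs_zero] at hle ⊢
          have hx' : x = 1/2 := by
            have := abs_eq_zero.mp (le_antisymm hle (abs_nonneg _))
            linarith
          have hy' : y = 1/2 := by linarith
          subst hx'
          subst hy'
          simp
    · rcases le_total x (1/2) with hx2 | hx2
      · rw [abs_of_nonpos (by linarith : x - 1/2 ≤ 0), abs_of_nonpos (by linarith : y - 1/2 ≤ 0)]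
          at hle ⊢
        have := hl (1 - x) (1 - y) (by linarith) (by linarith) (by linarith [hy.1])
        rw [sub_sub_cancel, sub_sub_cancel] at this
        rw [show -(y - 1/2) = 1 - y - 1/2 by ring, show -(x - 1/2) = 1 - x - 1/2 by ring]
        exact this
      · have h0 : (x - 1/2) * (y - 1/2) = 0 :=
          le_antisymm (mul_nonpos_of_nonneg_of_nonpos (by linarith) (by linarith)) hxy
        rcases mul_eq_zero.mp h0 with h | h
        · have hx' : x = 1/2 := by linarith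
          subst hx'
          rw [abs_of_nonpos (by linarith : y - 1/2 ≤ 0)]
          have := hl (1/2) (1 - y) le_rfl (by linarith) (by linarith [hy.1])
          rw [show (1:ℝ) - 1/2 = 1/2 by norm_num, sub_sub_cancel] at this
          rw [show -(y - 1/2) = 1 - y - 1/2 by ring]
          simpa using this
        · rw [h, abs_zero] at hle ⊢
          have hx' : x = 1/2 := by
            have := abs_eq_zero.mp (le_antisymm hle (abs_nonneg _))
            linarith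
          have hy' : y = 1/2 := by linarith
          subst hx'
          subst hy'
          simp
  rcases le_total |x - 1/2| |y - 1/2| with h | h
  · have h1 := main x y hx hy hxy h
    have h2 : |x - 1/2|^(2/3 : ℝ) ≤ |y - 1/2|^(2/3 : ℝ) :=
      Real.rpow_le_rpow (abs_nonneg _) h (by norm_num)
    rw [abs_sub_comm (f x), abs_of_nonpos (by linarith : |x - 1/2|^(2/3 : ℝ) - |y - 1/2|^(2/3 : ℝ) ≤ 0)]
    linarith
  · have h1 := main y x hy hx (by linarith) h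
    have h2 : |y - 1/2|^(2/3 : ℝ) ≤ |x - 1/2|^(2/3 : ℝ) :=
      Real.rpow_le_rpow (abs_nonneg _) h (by norm_num)
    rw [abs_of_nonneg (by linarith : 0 ≤ |x - 1/2|^(2/3 : ℝ) - |y - 1/2|^(2/3 : ℝ))]
    linarith

theorem rpow_sub_abs {a b : ℝ} (ha : 0 ≤ a) (hb : 0 ≤ b) :
    |a^(2/3 : ℝ) - b^(2/3 : ℝ)| ≤ |a - b|^(2/3 : ℝ) := by
  have key : ∀ a b : ℝ, 0 ≤ a → a ≤ b → b^(2/3 : ℝ) - a^(2/3 : ℝ) ≤ (b - a)^(2/3 : ℝ) := by
    intro a b ha hab
    have := Real.rpow_add_le_add_rpow (a := a) (b := b - a) (p := 2/3) ha (by linarith)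
      (by norm_num) (by norm_num)
    rw [add_sub_cancel] at this
    linarith
  rcases le_total a b with h | h
  · rw [abs_sub_comm, abs_sub_comm a b, abs_of_nonneg (by linarith : 0 ≤ b - a),
      abs_of_nonneg (by have := Real.rpow_le_rpow ha h (by norm_num : (0:ℝ) ≤ 2/3); linarith)]
    exact key a b ha h
  · rw [abs_of_nonneg (by linarith : 0 ≤ a - b),
      abs_of_nonneg (by have := Real.rpow_le_rpow hb h (by norm_num : (0:ℝ) ≤ 2/3); linarith)]
    exact key b a hb h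

theorem holder {f f' : ℝ → ℝ} {C : ℝ} (hC : 0 ≤ C) (hf : ∀ t, HasDerivAt f (f' t) t)
    (hb : ∀ t, 0 ≤ t → t ≤ 1 → t ≠ 1/2 → |f' t| ≤ C * |t - 1/2|^(-(1/3) : ℝ)) {x y : ℝ}
    (hx : x ∈ Icc (0:ℝ) 1) (hy : y ∈ Icc (0:ℝ) 1) :
    |f x - f y| ≤ 3 * C * |x - y|^(2/3 : ℝ) := by
  have hxy0 : 0 ≤ |x - y|^(2/3 : ℝ) := Real.rpow_nonneg (abs_nonneg _) _
  rcases le_or_gt 0 ((x - 1/2) * (y - 1/2)) with h | h
  · have h1 := side_abs hC hf hb hx hy h
    have h2 := rpow_sub_abs (abs_nonneg (x - 1/2)) (abs_nonneg (y - 1/2))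
    have h3 : |(|x - 1/2| - |y - 1/2|)|^(2/3 : ℝ) ≤ |x - y|^(2/3 : ℝ) := by
      apply Real.rpow_le_rpow (abs_nonneg _) _ (by norm_num)
      have := abs_abs_sub_abs_le_abs_sub (x - 1/2) (y - 1/2)
      rwa [sub_sub_sub_cancel_right] at this
    calc |f x - f y| ≤ 3/2 * C * |x - y|^(2/3 : ℝ) := by
          refine h1.trans (mul_le_mul_of_nonneg_left (h2.trans h3) (by positivity))
      _ ≤ _ := by
          apply mul_le_mul_of_nonneg_right _ hxy0
          linarith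
  · have hh : (1/2 : ℝ) ∈ Icc (0:ℝ) 1 := by constructor <;> norm_num
    have h1 := side_abs hC hf hb hx hh (by simp)
    have h2 := side_abs hC hf hb hh hy (by simp)
    rw [sub_self, abs_zero, Real.zero_rpow (by norm_num), sub_zero,
      abs_of_nonneg (Real.rpow_nonneg (abs_nonneg _) _)] at h1
    rw [sub_self, abs_zero, Real.zero_rpow (by norm_num), zero_sub, abs_neg,
      abs_of_nonneg (Real.rpow_nonneg (abs_nonneg _) _)] at h2
    have h3 : |x - 1/2| ≤ |x - y| ∧ |y - 1/2| ≤ |x - y| := by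
      rcases mul_neg_iff.mp h with ⟨h4, h5⟩ | ⟨h4, h5⟩
      · rw [abs_of_pos h4, abs_of_neg h5, abs_of_pos (by linarith)]
        constructor <;> linarith
      · rw [abs_of_neg h4, abs_of_pos h5, abs_of_neg (by linarith)]
        constructor <;> linarith
    have h4 := Real.rpow_le_rpow (abs_nonneg _) h3.1 (by norm_num : (0:ℝ) ≤ 2/3)
    have h5 := Real.rpow_le_rpow (abs_nonneg _) h3.2 (by norm_num : (0:ℝ) ≤ 2/3)
    have h6 : |f x - f y| ≤ |f x - f (1/2)| + |f (1/2) - f y| := abs_sub_le _ _ _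
    have h7 := mul_le_mul_of_nonneg_left h4 (by positivity : 0 ≤ 3/2 * C)
    have h8 := mul_le_mul_of_nonneg_left h5 (by positivity : 0 ≤ 3/2 * C)
    linarith

/-- Integration of a Hölder type bound. -/
theorem taylor_step {g g' : ℝ → ℝ} {K a : ℝ} (hK : 0 ≤ K) (ha : 0 ≤ a)
    (hg : ∀ t, HasDerivAt g (g' t) t) {y : ℝ} (hy : y ∈ Icc (0:ℝ) 1)
    (hb : ∀ t ∈ Icc (0:ℝ) 1, |g' t| ≤ K * |t - y|^a) {x : ℝ} (hx : x ∈ Icc (0:ℝ) 1) :
    |g x - g y| ≤ K * |x - y|^(a + 1) := by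
  rcases eq_or_ne x y with h | h
  · subst h
    rw [sub_self, abs_zero]
    exact mul_nonneg hK (Real.rpow_nonneg (abs_nonneg _) _)
  have hpos : 0 < |x - y| := abs_pos.mpr (sub_ne_zero.mpr h)
  have hsub : uIcc y x ⊆ Icc (0:ℝ) 1 := uIcc_subset_Icc hy hx
  have h1 := (convex_uIcc y x).norm_image_sub_le_of_norm_hasDerivWithin_le (f := g) (f' := g')
    (C := K * |x - y|^a) (fun t _ => (hg t).hasDerivWithinAt) (by
      intro t ht
      rw [Real.norm_eq_abs]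
      refine (hb t (hsub ht)).trans ?_
      apply mul_le_mul_of_nonneg_left _ hK
      apply Real.rpow_le_rpow (abs_nonneg _) _ ha
      exact abs_sub_left_of_mem_uIcc ht) left_mem_uIcc right_mem_uIcc
  rw [Real.norm_eq_abs, Real.norm_eq_abs] at h1
  rw [Real.rpow_add_one hpos.ne', ← mul_assoc]
  exact h1

/-- Three Taylor inequalities. -/
theorem taylor_all {u v w z : ℝ → ℝ} {C : ℝ} (hC : 0 ≤ C) (h1 : ∀ t, HasDerivAt u (v t) t)
    (h2 : ∀ t, HasDerivAt v (w t) t) (h3 : ∀ t, HasDerivAt w (z t) t)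
    (hb : ∀ t, 0 ≤ t → t ≤ 1 → t ≠ 1/2 → |z t| ≤ C * |t - 1/2|^(-(1/3) : ℝ)) {x y : ℝ}
    (hx : x ∈ Icc (0:ℝ) 1) (hy : y ∈ Icc (0:ℝ) 1) :
    |w x - w y| ≤ 3 * C * |x - y|^(2/3 : ℝ) ∧
      |v x - v y - w y * (x - y)| ≤ 3 * C * |x - y|^(5/3 : ℝ) ∧
      |u x - u y - v y * (x - y) - w y / 2 * (x - y)^2| ≤ 3 * C * |x - y|^(8/3 : ℝ) := by
  have hw : ∀ x ∈ Icc (0:ℝ) 1, ∀ y ∈ Icc (0:ℝ) 1, |w x - w y| ≤ 3 * C * |x - y|^(2/3 : ℝ) :=
    fun x hx y hy => holder hC h3 hb hx hy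
  have hv : ∀ x ∈ Icc (0:ℝ) 1, ∀ y ∈ Icc (0:ℝ) 1,
      |v x - v y - w y * (x - y)| ≤ 3 * C * |x - y|^(5/3 : ℝ) := by
    intro x hx y hy
    have := taylor_step (g := fun t => v t - w y * (t - y)) (g' := fun t => w t - w y)
      (K := 3 * C) (a := 2/3) (by positivity) (by norm_num) (by
        intro t
        have h5 := (h2 t).fun_sub (((hasDerivAt_id' t).sub_const y).const_mul (w y))
        exact h5.congr_deriv (by ring)) hy (fun t ht => hw t ht y hy) hx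
    simp only [sub_self, mul_zero, sub_zero] at this
    rw [show (2/3 : ℝ) + 1 = 5/3 by norm_num] at this
    rwa [sub_right_comm] at this
  refine ⟨hw x hx y hy, hv x hx y hy, ?_⟩
  have := taylor_step (g := fun t => u t - v y * (t - y) - w y / 2 * (t - y)^2)
    (g' := fun t => v t - v y - w y * (t - y))
    (K := 3 * C) (a := 5/3) (by positivity) (by norm_num) (by
      intro t
      have h5 := ((h1 t).fun_sub (((hasDerivAt_id' t).sub_const y).const_mul (v y))).fun_sub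
        ((((hasDerivAt_id' t).sub_const y).fun_pow 2).const_mul (w y / 2))
      exact h5.congr_deriv (by norm_num; ring)) hy (fun t ht => hv t ht y hy) hx
  simp only [sub_self, mul_zero, sub_zero, ne_eq, OfNat.ofNat_ne_zero, not_false_eq_true,
    zero_pow] at this
  rw [show (5/3 : ℝ) + 1 = 8/3 by norm_num] at this
  convert this using 2
  ring

theorem hasDeriv_of_taylor {f : ℝ → ℝ} {a y K δ : ℝ} (hδ : 0 < δ)
    (h : ∀ x ∈ Icc (0:ℝ) 1, |f x - f y - a * (x - y)| ≤ K * |x - y|^(1 + δ)) :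
    HasDerivWithinAt f a (Icc 0 1) y := by
  rw [hasDerivWithinAt_iff_isLittleO]
  have h1 : (fun x' : ℝ => f x' - f y - (x' - y) • a) =O[𝓝[Icc 0 1] y]
      fun x' => |x' - y|^(1 + δ) := by
    refine Asymptotics.IsBigO.of_bound K ?_
    filter_upwards [self_mem_nhdsWithin] with x hx
    rw [Real.norm_eq_abs, Real.norm_eq_abs, abs_of_nonneg (Real.rpow_nonneg (abs_nonneg _) _)]
    have := h x hx
    rwa [smul_eq_mul, mul_comm (x - y) a]
  refine h1.trans_isLittleO ?_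
  have h2 : (fun x' : ℝ => |x' - y|^(1 + δ)) =o[𝓝 y] fun x' => x' - y := by
    rw [Asymptotics.isLittleO_iff]
    intro c hc
    have h3 : Tendsto (fun x' : ℝ => |x' - y|^δ) (𝓝 y) (𝓝 0) := by
      have : ContinuousAt (fun x' : ℝ => |x' - y|^δ) y := by
        apply ContinuousAt.rpow_const
        · fun_prop
        · right; exact hδ.le
      have h4 := this.tendsto
      simpa [Real.zero_rpow hδ.ne'] using h4
    filter_upwards [h3.eventually (gt_mem_nhds hc)] with x hx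
    rw [Real.norm_eq_abs, Real.norm_eq_abs, abs_of_nonneg (Real.rpow_nonneg (abs_nonneg _) _)]
    rcases eq_or_ne x y with h | h
    · subst h
      rw [sub_self, abs_zero, Real.zero_rpow (by positivity)]
      simp
    · have hpos : 0 < |x - y| := abs_pos.mpr (sub_ne_zero.mpr h)
      rw [add_comm, Real.rpow_add_one hpos.ne']
      exact mul_le_mul_of_nonneg_right hx.le hpos.le
  exact h2.mono nhdsWithin_le_nhds

/-- A bounded sequence of functions converges along an ultrafilter. -/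
theorem ultra_lim (U : Ultrafilter ℕ) {f : ℕ → ℝ → ℝ} {B : ℝ}
    (hB : ∀ n, ∀ x ∈ Icc (0:ℝ) 1, |f n x| ≤ B) :
    ∃ g : ℝ → ℝ, ∀ x ∈ Icc (0:ℝ) 1, Tendsto (fun n => f n x) (U : Filter ℕ) (𝓝 (g x)) := by
  have h1 : ∀ x : ℝ, ∃ a : ℝ, x ∈ Icc (0:ℝ) 1 →
      Tendsto (fun n => f n x) (U : Filter ℕ) (𝓝 a) := by
    intro x
    by_cases hx : x ∈ Icc (0:ℝ) 1
    · obtain ⟨a, -, ha⟩ := (isCompact_Icc (a := -B) (b := B)).ultrafilter_le_nhds
        (U.map (fun n => f n x)) (by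
          rw [Filter.le_principal_iff, Ultrafilter.mem_coe, Ultrafilter.mem_map]
          apply Filter.univ_mem'
          intro n
          exact abs_le.mp (hB n x hx))
      exact ⟨a, fun _ => ha⟩
    · exact ⟨0, fun h => absurd h hx⟩
  choose g hg using h1
  exact ⟨g, hg⟩

/-- **Passage to the limit.** -/
theorem limit_main {u v w z : ℕ → ℝ → ℝ} {κ : ℝ → ℝ} {B C : ℝ} (hC : 0 ≤ C)
    (h1 : ∀ n t, HasDerivAt (u n) (v n t) t) (h2 : ∀ n t, HasDerivAt (v n) (w n t) t)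
    (h3 : ∀ n t, HasDerivAt (w n) (z n t) t)
    (hz : ∀ᶠ n in atTop, ∀ t, 0 ≤ t → t ≤ 1 → t ≠ 1/2 → |z n t| ≤ C * |t - 1/2|^(-(1/3) : ℝ))
    (hv : ∀ n, ∀ t ∈ Icc (0:ℝ) 1, |v n t| ≤ B)
    (hlim : ∀ t ∈ Icc (0:ℝ) 1, Tendsto (fun n => u n t) atTop (𝓝 (κ t))) :
    ∃ κ1 κ2 : ℝ → ℝ,
      (∀ p ∈ Icc (0:ℝ) 1, HasDerivWithinAt κ (κ1 p) (Icc 0 1) p) ∧
      (∀ p ∈ Icc (0:ℝ) 1, HasDerivWithinAt κ1 (κ2 p) (Icc 0 1) p) ∧
      (∀ p ∈ Icc (0:ℝ) 1, ∀ q ∈ Icc (0:ℝ) 1, 0 ≤ (p - 1/2) * (q - 1/2) →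
        |κ2 p - κ2 q| ≤ 3/2 * C * |(|p - 1/2|^(2/3 : ℝ) - |q - 1/2|^(2/3 : ℝ))|) ∧
      (∀ p ∈ Icc (0:ℝ) 1, ∀ q ∈ Icc (0:ℝ) 1, |κ2 p - κ2 q| ≤ 3 * C * |p - q|^(2/3 : ℝ)) ∧
      (∀ p ∈ Icc (0:ℝ) 1, ∀ q ∈ Icc (0:ℝ) 1,
        |κ p - κ q - κ1 q * (p - q) - κ2 q / 2 * (p - q)^2| ≤ 3 * C * |p - q|^(8/3 : ℝ)) := by
  obtain ⟨n0, hn0⟩ := eventually_atTop.mp hz
  have hT : ∀ n, ∀ x ∈ Icc (0:ℝ) 1, ∀ y ∈ Icc (0:ℝ) 1, _ := fun n x hx y hy =>
    taylor_all hC (h1 (n + n0)) (h2 (n + n0)) (h3 (n + n0)) (hn0 (n + n0) (by omega))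
      (x := x) (y := y) hx hy
  obtain ⟨U, hU⟩ := Ultrafilter.exists_le (atTop : Filter ℕ)
  have hlim' : ∀ t ∈ Icc (0:ℝ) 1, Tendsto (fun n => u (n + n0) t) (U : Filter ℕ) (𝓝 (κ t)) :=
    fun t ht => (((tendsto_add_atTop_iff_nat n0).mpr (hlim t ht)).mono_left hU)
  obtain ⟨κ1, hκ1⟩ := ultra_lim U (f := fun n => v (n + n0)) (B := B)
    (fun n x hx => hv (n + n0) x hx)
  have hw : ∀ n, ∀ y ∈ Icc (0:ℝ) 1, |w (n + n0) y| ≤ 2 * (2 * B + 3 * C) := by
    intro n y hy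
    obtain ⟨x, hx, hxy⟩ : ∃ x ∈ Icc (0:ℝ) 1, |x - y| = 1/2 := by
      rcases le_total y (1/2) with h | h
      · exact ⟨y + 1/2, ⟨by linarith [hy.1], by linarith⟩, by
          rw [add_sub_cancel_left]; norm_num⟩
      · exact ⟨y - 1/2, ⟨by linarith, by linarith [hy.2]⟩, by
          rw [sub_sub_cancel_left, abs_neg]; norm_num⟩
    obtain ⟨-, h5, -⟩ := hT n x hx y hy
    have h6 := hv (n + n0) x hx
    have h7 := hv (n + n0) y hy
    have h8 : |x - y|^(5/3 : ℝ) ≤ 1 := by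
      rw [hxy]
      exact Real.rpow_le_one (by norm_num) (by norm_num) (by norm_num)
    have h9 : |w (n + n0) y * (x - y)| = |w (n + n0) y| / 2 := by
      rw [abs_mul, hxy]; ring
    have h10 : |w (n + n0) y * (x - y)| ≤
        |v (n + n0) x| + |v (n + n0) y| + |v (n + n0) x - v (n + n0) y - w (n + n0) y * (x - y)| := by
      have i1 := abs_add_le (v (n + n0) x - v (n + n0) y)
        (-(v (n + n0) x - v (n + n0) y - w (n + n0) y * (x - y)))
      have i2 := abs_sub (v (n + n0) x) (v (n + n0) y)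
      rw [abs_neg, show v (n + n0) x - v (n + n0) y +
        -(v (n + n0) x - v (n + n0) y - w (n + n0) y * (x - y)) = w (n + n0) y * (x - y) by ring]
        at i1
      linarith
    have h11 : 3 * C * |x - y|^(5/3 : ℝ) ≤ 3 * C := by
      have := mul_le_mul_of_nonneg_left h8 (by positivity : 0 ≤ 3 * C)
      linarith
    linarith
  obtain ⟨κ2, hκ2⟩ := ultra_lim U (f := fun n => w (n + n0)) hw
  have l2 : ∀ x ∈ Icc (0:ℝ) 1, ∀ y ∈ Icc (0:ℝ) 1,
      |κ2 x - κ2 y| ≤ 3 * C * |x - y|^(2/3 : ℝ) := by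
    intro x hx y hy
    exact le_of_tendsto (((hκ2 x hx).sub (hκ2 y hy)).abs)
      (Eventually.of_forall fun n => (hT n x hx y hy).1)
  have l1 : ∀ x ∈ Icc (0:ℝ) 1, ∀ y ∈ Icc (0:ℝ) 1,
      |κ1 x - κ1 y - κ2 y * (x - y)| ≤ 3 * C * |x - y|^(5/3 : ℝ) := by
    intro x hx y hy
    exact le_of_tendsto ((((hκ1 x hx).sub (hκ1 y hy)).sub ((hκ2 y hy).mul_const _)).abs)
      (Eventually.of_forall fun n => (hT n x hx y hy).2.1)
  have l0 : ∀ x ∈ Icc (0:ℝ) 1, ∀ y ∈ Icc (0:ℝ) 1,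
      |κ x - κ y - κ1 y * (x - y) - κ2 y / 2 * (x - y)^2| ≤ 3 * C * |x - y|^(8/3 : ℝ) := by
    intro x hx y hy
    exact le_of_tendsto (((((hlim' x hx).sub (hlim' y hy)).sub ((hκ1 y hy).mul_const _)).sub
      (((hκ2 y hy).div_const 2).mul_const _)).abs)
      (Eventually.of_forall fun n => (hT n x hx y hy).2.2)
  have ls : ∀ p ∈ Icc (0:ℝ) 1, ∀ q ∈ Icc (0:ℝ) 1, 0 ≤ (p - 1/2) * (q - 1/2) →
        |κ2 p - κ2 q| ≤ 3/2 * C * |(|p - 1/2|^(2/3 : ℝ) - |q - 1/2|^(2/3 : ℝ))| := by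
    intro x hx y hy hxy
    exact le_of_tendsto (((hκ2 x hx).sub (hκ2 y hy)).abs)
      (Eventually.of_forall fun n => side_abs hC (h3 (n + n0)) (hn0 (n + n0) (by omega)) hx hy hxy)
  refine ⟨κ1, κ2, ?_, ?_, ls, l2, l0⟩
  · intro y hy
    apply hasDeriv_of_taylor (K := |κ2 y| / 2 + 3 * C) (δ := 1) one_pos
    intro x hx
    have i1 := l0 x hx y hy
    have hd : |x - y| ≤ 1 := by
      rw [abs_le]; constructor <;> linarith [hx.1, hx.2, hy.1, hy.2]
    have i2 : |x - y|^(8/3 : ℝ) ≤ |x - y|^2 := by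
      rcases eq_or_ne x y with h | h
      · subst h; simp
      · have hpos : 0 < |x - y| := abs_pos.mpr (sub_ne_zero.mpr h)
        rw [← Real.rpow_natCast]
        exact Real.rpow_le_rpow_of_exponent_ge hpos hd (by norm_num)
    have i3 : |κ2 y / 2 * (x - y)^2| = |κ2 y| / 2 * |x - y|^2 := by
      rw [abs_mul, abs_div, abs_of_pos (by norm_num : (0:ℝ) < 2), abs_pow]
    have i4 := abs_add_le (κ x - κ y - κ1 y * (x - y) - κ2 y / 2 * (x - y)^2)
      (κ2 y / 2 * (x - y)^2)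
    rw [sub_add_cancel, i3] at i4
    have i5 := mul_le_mul_of_nonneg_left i2 (by positivity : 0 ≤ 3 * C)
    rw [show (1:ℝ) + 1 = ((2:ℕ):ℝ) by norm_num, Real.rpow_natCast]
    linarith
  · intro y hy
    apply hasDeriv_of_taylor (K := 3 * C) (δ := 2/3) (by norm_num)
    intro x hx
    rw [show (1:ℝ) + 2/3 = 5/3 by norm_num]
    exact l1 x hx y hy

end Pool.Agent.X135.AL
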