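import Pool.Agent.X135.AL.Box

/-!
Comparison of the box with the torus, and the law of the number of clusters.
-/

set_option autoImplicit false
set_option maxHeartbeats 1000000

namespace Pool.Agent.X135.AL

open H974 H12S Finset MeasureTheory

theorem GR_tt {n : ℕ} {F : Set Edg} (hF : F ⊆ EV (TV n)) {x y : Vtx} :
    GR src (tt n) F x y ↔ GR src tgt F x y := by
  have h : ∀ e ∈ F, tt n e = tgt e := by
    intro e he
    unfold tt
    exact rv_self (hF he).2
  constructor
  · intro h1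
    induction h1 with
    | refl => exact GR.refl _ _
    | tail _ hs ih =>
      obtain ⟨e, he, hc⟩ := hs
      rw [h e he] at hc
      exact ih.tail ⟨e, he, hc⟩
  · intro h1
    induction h1 with
    | refl => exact GR.refl _ _
    | tail _ hs ih =>
      obtain ⟨e, he, hc⟩ := hs
      rw [← h e he] at hc
      exact ih.tail ⟨e, he, hc⟩

theorem kT_inner {n : ℕ} {F : Finset Edg} (hF : (↑F : Set Edg) ⊆ EV (TV n)) :
    kT n F = (kV (TV n) ↑F : ℝ) := by
  classical
  unfold kT kV
  rw [Set.inter_eq_left.mpr hF, NC_univ, NC_univ]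
  congr 2
  apply Finset.image_congr
  intro x _
  ext y
  exact GR_tt hF

theorem kT_add {n : ℕ} (hn : 1 ≤ n) (G : Finset Edg) {T : Finset Edg} (hT : T ⊆ TE n) :
    kT n G - T.card ≤ kT n (G ∪ T) ∧ kT n (G ∪ T) ≤ kT n G := by
  classical
  induction T using Finset.induction_on with
  | empty => simp
  | insert a T ha ih =>
    have hT' : T ⊆ TE n := (Finset.subset_insert a T).trans hT
    have haT : a ∈ TE n := hT (Finset.mem_insert_self a T)
    obtain ⟨h1, h2⟩ := ih hT'
    have h3 := kT_insert hn haT (G ∪ T)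
    have h4 := ind_nonneg (¬ GR src (tt n) (↑(G ∪ T) : Set Edg) (src a) (tt n a))
    have h5 := ind_le_one (¬ GR src (tt n) (↑(G ∪ T) : Set Edg) (src a) (tt n a))
    rw [Finset.union_insert, Finset.card_insert_of_notMem ha]
    push_cast
    constructor <;> linarith

theorem outer_card {n : ℕ} (hn : 1 ≤ n) :
    ((TE n).filter (fun e => tgt e ∉ TV n)).card ≤ 4 * n := by
  classical
  have hsub : (TE n).filter (fun e => tgt e ∉ TV n) ⊆
      (({(n:ℤ) - 1} : Finset ℤ) ×ˢ (Finset.Ico (0:ℤ) n ×ˢ (Finset.univ : Finset Bool))) ∪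
        (Finset.Ico (0:ℤ) n ×ˢ (({(n:ℤ) - 1} : Finset ℤ) ×ˢ (Finset.univ : Finset Bool))) := by
    rintro ⟨x, y, β⟩ he
    rw [Finset.mem_filter, mem_TE, mem_TV] at he
    obtain ⟨⟨⟨h1, h2⟩, ⟨h3, h4⟩⟩, h5⟩ := he
    simp only at h1 h2 h3 h4
    rw [Finset.mem_union, Finset.mem_product, Finset.mem_product, Finset.mem_product,
      Finset.mem_product, Finset.mem_Ico, Finset.mem_Ico, Finset.mem_singleton,
      Finset.mem_singleton]
    simp only [Finset.mem_univ, and_true]
    cases β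
    · rw [tgt_false] at h5
      simp only at h5
      omega
    · rw [tgt_true] at h5
      simp only at h5
      omega
  refine (Finset.card_le_card hsub).trans ((Finset.card_union_le _ _).trans ?_)
  rw [Finset.card_product, Finset.card_product, Finset.card_product, Finset.card_product,
    Finset.card_singleton, Int.card_Ico]
  have h2 : (Finset.univ : Finset Bool).card = 2 := rfl
  have h3 : ((n:ℤ) - 0).toNat = n := by omega
  rw [h2, h3]
  omega

/-- Comparison of the torus and the box. -/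
theorem kT_box {n : ℕ} (hn : 1 ≤ n) {F : Finset Edg} (hF : F ⊆ TE n) :
    (kV (TV n) ↑F : ℝ) - 4 * n ≤ kT n F ∧ kT n F ≤ (kV (TV n) ↑F : ℝ) := by
  classical
  obtain ⟨G, hG⟩ : ∃ G : Finset Edg, G = F.filter (fun e => tgt e ∈ TV n) := ⟨_, rfl⟩
  obtain ⟨T, hT⟩ : ∃ T : Finset Edg, T = F.filter (fun e => tgt e ∉ TV n) := ⟨_, rfl⟩
  have hFGT : F = G ∪ T := by
    rw [hG, hT, Finset.filter_union_filter_not_eq]
  have hTc : (T.card : ℝ) ≤ 4 * n := by
    have : T.card ≤ 4 * n := by
      refine le_trans (Finset.card_le_card ?_) (outer_card hn)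
      rw [hT]
      exact Finset.filter_subset_filter _ hF
    exact_mod_cast this
  have hTE : T ⊆ TE n := by rw [hT]; exact (Finset.filter_subset _ _).trans hF
  have hGE : (↑G : Set Edg) ⊆ EV (TV n) := by
    intro e he
    rw [hG, Finset.mem_coe, Finset.mem_filter] at he
    exact ⟨src_TV (hF he.1), he.2⟩
  obtain ⟨h1, h2⟩ := kT_add hn G hTE
  have h3 : kV (TV n) (↑F : Set Edg) = kV (TV n) ↑G := by
    apply kV_congr
    ext e
    constructor
    · rintro ⟨h4, h5⟩
      refine ⟨?_, h5⟩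
      rw [hG, Finset.mem_coe, Finset.mem_filter]
      exact ⟨h4, h5.2⟩
    · rintro ⟨h4, h5⟩
      refine ⟨?_, h5⟩
      rw [hG, Finset.mem_coe, Finset.mem_filter] at h4
      exact h4.1
  rw [h3, ← kT_inner hGE, hFGT]
  constructor
  · linarith
  · exact h2

theorem G0_box {p : ℝ} (h0 : 0 ≤ p) (h1 : p ≤ 1) {n : ℕ} (hn : 1 ≤ n) :
    aK p n - 4 * n ≤ G0 n p ∧ G0 n p ≤ aK p n := by
  have ok := okq h0 h1
  unfold aK G0
  constructor
  · have h2 : Ex (fun _ => p) (TE n) (fun F => (kV (TV n) ↑F : ℝ)) - 4 * n =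
        Ex (fun _ => p) (TE n) (fun F => (kV (TV n) ↑F : ℝ) - 4 * n) := by
      rw [Ex_sub, Ex_const]
    rw [h2]
    exact Ex_mono ok (fun F hF => (kT_box hn hF).1)
  · exact Ex_mono ok (fun F hF => (kT_box hn hF).2)

theorem abs_Ex_le' {p : ℝ} (h0 : 0 ≤ p) (h1 : p ≤ 1) {S : Finset Edg} {f : Finset Edg → ℝ} {c : ℝ}
    (h : ∀ F, F ⊆ S → |f F| ≤ c) : |Ex (fun _ => p) S f| ≤ c := by
  have ok := okq h0 h1
  rw [abs_le]
  constructor
  · have := Ex_mono ok (S := S) (f := fun _ => -c) (g := f) (fun F hF => (abs_le.mp (h F hF)).1)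
    rwa [Ex_const] at this
  · exact Ex_le_of_le ok (fun F hF => (abs_le.mp (h F hF)).2)

theorem G1_abs {p : ℝ} (h0 : 0 ≤ p) (h1 : p ≤ 1) {n : ℕ} (hn : 1 ≤ n) :
    |G1 n p| ≤ 2 * (n:ℝ)^2 := by
  unfold G1
  refine (Finset.abs_sum_le_sum_abs _ _).trans ?_
  have : ∀ e ∈ TE n, |Ex (fun _ => p) ((TE n).erase e) (Dl e (kT n))| ≤ 1 := by
    intro e he
    apply abs_Ex_le' h0 h1
    intro F _
    unfold Dl
    rw [kT_insert hn he, abs_neg, abs_of_nonneg (ind_nonneg _)]
    exact ind_le_one _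
  refine (Finset.sum_le_sum this).trans ?_
  rw [Finset.sum_const, TE_card, nsmul_eq_mul]
  push_cast
  linarith

/-! ### The law -/

theorem law_int (p : unitInterval) (S : Finset Edg) (g : Finset Edg → ℝ) :
    ∫ ω, g (FF S ω) ∂(bondLaw p) = Ex (fun _ => (p:ℝ)) S g := by
  classical
  have h1 : (fun ω : sqLattice.edgeSet → Bool => g (FF S ω)) = fun ω => ∑ T ∈ S.powerset,
      Set.indicator {ω | FF S ω = T} (fun _ => g T) ω := by
    funext ω
    rw [Finset.sum_eq_single (FF S ω)]
    · rw [Set.indicator_of_mem]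
      rfl
    · intro T _ hT
      rw [Set.indicator_of_notMem]
      intro h
      exact hT (show FF S ω = T from h).symm
    · intro h
      exact absurd (Finset.mem_powerset.mpr (Finset.filter_subset _ _)) h
  rw [h1, integral_finset_sum]
  · unfold Ex
    apply Finset.sum_congr rfl
    intro T hT
    rw [integral_indicator_const _ (meas_FF S T), law_eq p (Finset.mem_powerset.mp hT), smul_eq_mul]
  · intro T _
    exact (integrable_const _).indicator (meas_FF S T)

/-- The box `[0,n)²`. -/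
def sqBox (n : ℕ) : Set (ℤ × ℤ) := {v | 0 ≤ v.1 ∧ v.1 < n ∧ 0 ≤ v.2 ∧ v.2 < n}

theorem sqBox_eq (n : ℕ) : sqBox n = ↑(TV n) := by
  ext v
  rw [Finset.mem_coe, mem_TV]
  unfold sqBox
  rw [Set.mem_setOf_eq]
  tauto

/-- The number of open clusters in the box `[0,n)²`. -/
noncomputable def numClusters (n : ℕ) (ω : sqLattice.edgeSet → Bool) : ℕ :=
  Nat.card ((openGraph ω).induce (sqBox n)).ConnectedComponent

theorem ind_reach (ω : sqLattice.edgeSet → Bool) (V : Finset Vtx) (x y : (↑V : Set Vtx)) :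
    ((openGraph ω).induce (↑V : Set Vtx)).Reachable x y ↔
      GR src tgt (opn ω ∩ EV V) x.1 y.1 := by
  rw [SimpleGraph.reachable_iff_reflTransGen]
  constructor
  · intro h
    induction h with
    | refl => exact GR.refl _ _
    | @tail y z _ hs ih =>
      have hs' : (openGraph ω).Adj y.1 z.1 := hs
      rw [openGraph_adj] at hs'
      obtain ⟨e, he, hc⟩ := hs'
      refine ih.tail ⟨e, ⟨he, ?_⟩, hc⟩
      have hy : y.1 ∈ V := y.2
      have hz : z.1 ∈ V := z.2
      rcases hc with ⟨h1, h2⟩ | ⟨h1, h2⟩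
      · exact ⟨by rw [h1]; exact hy, by rw [h2]; exact hz⟩
      · exact ⟨by rw [h1]; exact hz, by rw [h2]; exact hy⟩
  · obtain ⟨x, hx⟩ := x
    obtain ⟨y, hy⟩ := y
    intro h
    have key : ∀ z, GR src tgt (opn ω ∩ EV V) x z → ∃ hz : z ∈ V,
        Relation.ReflTransGen ((openGraph ω).induce (↑V : Set Vtx)).Adj ⟨x, hx⟩ ⟨z, hz⟩ := by
      intro z hz
      induction hz with
      | refl => exact ⟨hx, Relation.ReflTransGen.refl⟩
      | @tail z w _ hs ih =>
        obtain ⟨hzV, ih⟩ := ih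
        obtain ⟨e, ⟨he, he2⟩, hc⟩ := hs
        have hw : w ∈ V := by
          rcases hc with ⟨h1, h2⟩ | ⟨h1, h2⟩
          · rw [← h2]; exact he2.2
          · rw [← h1]; exact he2.1
        refine ⟨hw, ih.tail ?_⟩
        show (openGraph ω).Adj z w
        rw [openGraph_adj]
        exact ⟨e, he, hc⟩
    obtain ⟨_, h2⟩ := key y h
    exact h2

theorem comp_card (ω : sqLattice.edgeSet → Bool) (V : Finset Vtx) :
    Nat.card ((openGraph ω).induce (↑V : Set Vtx)).ConnectedComponent = kV V (opn ω) := by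
  classical
  unfold kV
  rw [NC_univ]
  obtain ⟨f, hf⟩ : ∃ f : ((openGraph ω).induce (↑V : Set Vtx)).ConnectedComponent → Set Vtx,
      ∀ x : (↑V : Set Vtx), f (((openGraph ω).induce (↑V : Set Vtx)).connectedComponentMk x) =
        clu src tgt (opn ω ∩ EV V) x.1 := by
    refine ⟨fun c => c.lift (fun x => clu src tgt (opn ω ∩ EV V) x.1) ?_, fun x => rfl⟩
    intro x y w _
    rw [clu_eq_iff]
    exact (ind_reach ω V x y).mp ⟨w⟩
  have hinj : Function.Injective f := by
    intro a b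
    refine SimpleGraph.ConnectedComponent.ind₂ (fun x y h => ?_) a b
    rw [hf, hf, clu_eq_iff] at h
    exact SimpleGraph.ConnectedComponent.eq.mpr ((ind_reach ω V x y).mpr h)
  have hrange : Set.range f = ↑(V.image (clu src tgt (opn ω ∩ EV V))) := by
    ext C
    rw [Finset.coe_image]
    constructor
    · rintro ⟨c, rfl⟩
      refine SimpleGraph.ConnectedComponent.ind (fun x => ?_) c
      rw [hf]
      exact ⟨x.1, x.2, rfl⟩
    · rintro ⟨x, hx, rfl⟩
      exact ⟨_, hf ⟨x, hx⟩⟩
  rw [← Nat.card_range_of_injective hinj, hrange]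
  rw [Nat.card_coe_set_eq, Set.ncard_coe_finset]

theorem numClusters_eq (n : ℕ) (ω : sqLattice.edgeSet → Bool) :
    numClusters n ω = kV (TV n) ↑(FF (TE n) ω) := by
  unfold numClusters
  rw [sqBox_eq, comp_card]
  apply kV_congr
  rw [FF_coe, Set.inter_assoc, Set.inter_eq_right.mpr (EV_TV n)]

theorem mean_clusters (p : unitInterval) (n : ℕ) :
    ∫ ω, (numClusters n ω : ℝ) ∂(bondLaw p) = aK p n := by
  have h1 : (fun ω : sqLattice.edgeSet → Bool => (numClusters n ω : ℝ)) =
      fun ω => (fun F : Finset Edg => (kV (TV n) ↑F : ℝ)) (FF (TE n) ω) := by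
    funext ω
    rw [numClusters_eq]
  rw [h1]
  exact law_int p (TE n) (fun F : Finset Edg => (kV (TV n) ↑F : ℝ))

end Pool.Agent.X135.AL
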