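import Pool.Agent.H12R2.Sep.BlkSum
import Pool.Agent.H974R2.Count

/-!
Splitting blocks: the number of clusters which join a box to a boundary, as a test function.
-/

set_option autoImplicit false
set_option maxHeartbeats 1000000

namespace Pool.Agent.X135.AL

open H974 H12S Finset

section Graph

variable {E V : Type*} [DecidableEq E]

theorem nc_union {s t : E → V} {K : Finset V} {B : Set V}
    (F : Set E) (T : Finset E) (hK : ∀ e ∈ T, s e ∈ K ∧ t e ∈ K) :
    NC s t K B (F ∪ ↑T) ≤ NC s t K B F ∧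
      (NC s t K B (F ∪ ↑T) = NC s t K B F → ∀ x y : V, RB s t B F x → RB s t B F y →
        GR s t (F ∪ ↑T) x y → GR s t F x y) := by
  classical
  induction T using Finset.induction_on with
  | empty => simp
  | insert e T he ih =>
    obtain ⟨h1, h2⟩ := ih (fun e' he' => hK e' (Finset.mem_insert_of_mem he'))
    have e1 : F ∪ (↑(insert e T) : Set E) = insert e (F ∪ ↑T) := by
      rw [Finset.coe_insert, Set.union_insert]
    obtain ⟨k1, k2⟩ := hK e (Finset.mem_insert_self _ _)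
    have h3 := NC_insert (s := s) (t := t) (K := K) (B := B) (F := F ∪ ↑T) k1 k2
    rw [e1]
    have h4 : NC s t K B (insert e (F ∪ ↑T)) ≤ NC s t K B (F ∪ ↑T) := by
      have h0 := ind_nonneg (RB s t B (F ∪ ↑T) (s e) ∧ RB s t B (F ∪ ↑T) (t e) ∧
        ¬ GR s t (F ∪ ↑T) (s e) (t e))
      have h5 : (NC s t K B (insert e (F ∪ ↑T)) : ℝ) ≤ NC s t K B (F ∪ ↑T) := by linarith
      exact_mod_cast h5
    refine ⟨h4.trans h1, ?_⟩
    intro h5 x y hx hy hxy
    have h6 : NC s t K B (F ∪ ↑T) = NC s t K B F := by omega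
    have h7 : NC s t K B (insert e (F ∪ ↑T)) = NC s t K B (F ∪ ↑T) := by omega
    rw [h7, sub_self] at h3
    have hn : ¬ (RB s t B (F ∪ ↑T) (s e) ∧ RB s t B (F ∪ ↑T) (t e) ∧
        ¬ GR s t (F ∪ ↑T) (s e) (t e)) := fun h => by
      rw [ind_of h] at h3; exact zero_ne_one h3
    have hmono : ∀ z, RB s t B F z → RB s t B (F ∪ ↑T) z := by
      rintro z ⟨b, hb, hr⟩
      exact ⟨b, hb, hr.mono Set.subset_union_left⟩
    rw [GR_insert] at hxy
    rcases hxy with h | ⟨g1, g2⟩ | ⟨g1, g2⟩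
    · exact h2 h6 x y hx hy h
    · have r1 := (RB_iff (B := B) g1).mp (hmono x hx)
      have r2 := (RB_iff (B := B) g2).mpr (hmono y hy)
      have g3 : GR s t (F ∪ ↑T) (s e) (t e) := by
        by_contra hc
        exact hn ⟨r1, r2, hc⟩
      exact h2 h6 x y hx hy (g1.trans (g3.trans g2))
    · have r1 := (RB_iff (B := B) g1).mp (hmono x hx)
      have r2 := (RB_iff (B := B) g2).mpr (hmono y hy)
      have g3 : GR s t (F ∪ ↑T) (s e) (t e) := by
        by_contra hc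
        exact hn ⟨r2, r1, hc⟩
      exact h2 h6 x y hx hy (g1.trans (g3.symm.trans g2))

theorem nc_same {s t : E → V} {K : Finset V} {B : Set V} (F T : Finset E)
    (hK : ∀ e ∈ T, s e ∈ K ∧ t e ∈ K)
    (h : ∀ F' : Finset E, F ⊆ F' → F' ⊆ F ∪ T → ∀ e ∈ T, ¬ (RB s t B (↑F' : Set E) (s e) ∧
      RB s t B (↑F' : Set E) (t e) ∧ ¬ GR s t (↑F' : Set E) (s e) (t e))) :
    NC s t K B ((↑F : Set E) ∪ ↑T) = NC s t K B (↑F : Set E) := by
  classical
  induction T using Finset.induction_on with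
  | empty => simp
  | insert e T he ih =>
    have h1 := ih (fun e' he' => hK e' (Finset.mem_insert_of_mem he'))
      (fun F' h1 h2 e' he' => h F' h1 (h2.trans (Finset.union_subset_union_right
        (Finset.subset_insert _ _))) e' (Finset.mem_insert_of_mem he'))
    have e1 : (↑F : Set E) ∪ (↑(insert e T) : Set E) = insert e ((↑F : Set E) ∪ ↑T) := by
      rw [Finset.coe_insert, Set.union_insert]
    obtain ⟨k1, k2⟩ := hK e (Finset.mem_insert_self _ _)
    have h3 := NC_insert (s := s) (t := t) (K := K) (B := B) (F := (↑F : Set E) ∪ ↑T) k1 k2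
    have h4 := h (F ∪ T) Finset.subset_union_left (Finset.union_subset_union_right
        (Finset.subset_insert _ _)) e (Finset.mem_insert_self _ _)
    rw [Finset.coe_union] at h4
    rw [ind_not_of h4] at h3
    rw [e1]
    have h5 : (NC s t K B (insert e ((↑F : Set E) ∪ ↑T)) : ℝ) = NC s t K B (↑F : Set E) := by
      rw [← h1]; linarith
    exact_mod_cast h5

/-- Harris' inequality when one event is local. -/
theorem harris_loc {p : E → ℝ} (hp : Ok p) {S W : Finset E} (hW : W ⊆ S) {f : Finset E → ℝ}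
    {U : Finset E → Prop} (hU : ∀ F : Finset E, U F ↔ U (F ∩ W)) (hUm : IncrE W U)
    (hf : ∀ A : Finset E, A ⊆ S \ W → ∀ B B' : Finset E, B ⊆ B' → B' ⊆ W →
      f (A ∪ B) ≤ f (A ∪ B')) :
    Ex p S f * Pr p S U ≤ Ex p S (fun F => f F * ind (U F)) := by
  have e0 : (S \ W) ∪ W = S := Finset.sdiff_union_of_subset hW
  have hd : Disjoint (S \ W) W := Finset.sdiff_disjoint
  have e1 : Ex p S f = Ex p (S \ W) (fun A => Ex p W (fun B => f (A ∪ B))) := by
    conv_lhs => rw [← e0]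
    exact Ex_union hd f
  have e2 : Pr p S U = Pr p W U := Pr_local hW (fun F _ => hU F)
  have e3 : Ex p S (fun F => f F * ind (U F)) =
      Ex p (S \ W) (fun A => Ex p W (fun B => f (A ∪ B) * ind (U B))) := by
    conv_lhs => rw [← e0]
    rw [Ex_union hd]
    apply Ex_congr
    intro A hA
    apply Ex_congr
    intro B hB
    have : (A ∪ B) ∩ W = B := by
      rw [Finset.union_inter_distrib_right, Finset.inter_eq_left.mpr hB,
        Finset.disjoint_iff_inter_eq_empty.mp (Finset.disjoint_of_subset_left hA hd),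
        Finset.empty_union]
    rw [ind_congr (hU (A ∪ B)), this]
  rw [e1, e2, e3, ← Ex_mul_right]
  apply Ex_mono hp
  intro A hA
  exact harris hp (fun B B' h1 h2 => hf A hA B B' h1 h2) hUm.incr

end Graph

/-- The block splits two clusters reaching `B`. -/
def Spl (B : Set Vtx) (c : ℤ × ℤ) (m : ℕ) (F : Set Edg) : Prop :=
  ∃ u v : Vtx, inR (c.1 - m) (c.1 + m) (c.2 - m) (c.2 + m) u ∧
    inR (c.1 - m) (c.1 + m) (c.2 - m) (c.2 + m) v ∧
    RB src tgt B (F \ ↑(blk c m)) u ∧ RB src tgt B (F \ ↑(blk c m)) v ∧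
    ¬ Reach (F \ ↑(blk c m)) u v

theorem reach_hor (a b c d y : ℤ) (hy : c ≤ y ∧ y ≤ d) (x : ℤ) (hx : a ≤ x) (k : ℕ)
    (hk : x + k ≤ b) : Reach (↑(RE a b c d) : Set Edg) (x, y) (x + k, y) := by
  induction k with
  | zero =>
    have : x + ((0 : ℕ) : ℤ) = x := by simp
    rw [this]; exact Reach.refl _ _
  | succ k ih =>
    push_cast at hk
    refine (ih (by linarith)).trans (Adj.reach ⟨(x + k, y, true), ?_, Or.inl ⟨rfl, ?_⟩⟩)
    · rw [Finset.mem_coe, mem_RE_true]; omega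
    · rw [tgt_true]
      congr 1
      push_cast; ring

theorem reach_ver (a b c d x : ℤ) (hx : a ≤ x ∧ x ≤ b) (y : ℤ) (hy : c ≤ y) (k : ℕ)
    (hk : y + k ≤ d) : Reach (↑(RE a b c d) : Set Edg) (x, y) (x, y + k) := by
  induction k with
  | zero =>
    have : y + ((0 : ℕ) : ℤ) = y := by simp
    rw [this]; exact Reach.refl _ _
  | succ k ih =>
    push_cast at hk
    refine (ih (by linarith)).trans (Adj.reach ⟨(x, y + k, false), ?_, Or.inl ⟨rfl, ?_⟩⟩)
    · rw [Finset.mem_coe, mem_RE_false]; omega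
    · rw [tgt_false]
      congr 1
      push_cast; ring

theorem reach_RE {a b c d : ℤ} {u v : Vtx} (hu : inR a b c d u) (hv : inR a b c d v) :
    Reach (↑(RE a b c d) : Set Edg) u v := by
  have key : ∀ w : Vtx, inR a b c d w → Reach (↑(RE a b c d) : Set Edg) (a, c) w := by
    rintro ⟨x, y⟩ ⟨⟨h1, h2⟩, h3, h4⟩
    simp only at h1 h2 h3 h4
    have g1 := reach_hor a b c d c ⟨le_rfl, by linarith⟩ a le_rfl (x - a).toNat (by omega)
    have g2 := reach_ver a b c d x ⟨h1, h2⟩ c le_rfl (y - c).toNat (by omega)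
    have e1 : a + ((x - a).toNat : ℤ) = x := by omega
    have e2 : c + ((y - c).toNat : ℤ) = y := by omega
    rw [e1] at g1
    rw [e2] at g2
    exact g1.trans g2
  exact (key u hu).symm.trans (key v hv)

theorem spl_nc {K : Finset Vtx} {B : Set Vtx} {c : ℤ × ℤ} {m : ℕ}
    (hK : ∀ e ∈ blk c m, src e ∈ K ∧ tgt e ∈ K) (F : Set Edg) :
    ind (Spl B c m F) ≤ (NC src tgt K B (F \ ↑(blk c m)) : ℝ) -
      NC src tgt K B (F ∪ ↑(blk c m)) := by
  classical
  obtain ⟨h1, h2⟩ := nc_union (s := src) (t := tgt) (K := K) (B := B) (F \ ↑(blk c m)) (blk c m) hK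
  rw [Set.sdiff_union_self] at h1 h2
  have h1' : (NC src tgt K B (F ∪ ↑(blk c m)) : ℝ) ≤ NC src tgt K B (F \ ↑(blk c m)) := by
    exact_mod_cast h1
  by_cases hs : Spl B c m F
  · rw [ind_of hs]
    obtain ⟨u, v, hu, hv, hru, hrv, hn⟩ := hs
    have hne : NC src tgt K B (F ∪ ↑(blk c m)) ≠ NC src tgt K B (F \ ↑(blk c m)) := by
      intro he
      exact hn (h2 he u v hru hrv ((reach_RE hu hv).mono Set.subset_union_right))
    have h3 : NC src tgt K B (F ∪ ↑(blk c m)) + 1 ≤ NC src tgt K B (F \ ↑(blk c m)) := by omega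
    have h4 : (NC src tgt K B (F ∪ ↑(blk c m)) : ℝ) + 1 ≤ NC src tgt K B (F \ ↑(blk c m)) := by
      exact_mod_cast h3
    linarith
  · rw [ind_not_of hs]
    linarith

/-- The influence of a block on the number of clusters. -/
theorem nc_infl {q : ℝ} (h0 : 0 ≤ q) (h1 : q ≤ 1) {S : Finset Edg} {K : Finset Vtx}
    {B : Set Vtx} {c : ℤ × ℤ} {m : ℕ} (hm : 1 ≤ m) (hS : blk c (3 * m) ⊆ S)
    (hK : ∀ e ∈ blk c (3 * m), src e ∈ K ∧ tgt e ∈ K) (hB : ∀ v ∈ B, BSfar c (3 * m) v)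
    (hU : 0 < PQ q S (BSU c m)) (hD : 0 < PQ q S (BSD c m)) :
    PQ q S (fun F => Spl B c m ↑F) ≤
      Ex (fun _ => q) S (fun F => (-(NC src tgt K B (↑F : Set Edg) : ℝ)) * BSV q S c m F) := by
  classical
  have ok := okq h0 h1
  obtain ⟨b, hb⟩ : ∃ b, b = blk c m := ⟨_, rfl⟩
  have hbW : b ⊆ blk c (3 * m) := by
    rw [hb]
    unfold blk
    apply RE_subset <;> push_cast <;> omega
  have hKb : ∀ e ∈ b, src e ∈ K ∧ tgt e ∈ K := fun e he => hK e (hbW he)
  have hKc : ∀ e ∈ blk c m, src e ∈ K ∧ tgt e ∈ K := fun e he => hKb e (hb ▸ he)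
  -- the comparison
  have a1 : PQ q S (fun F => Spl B c m ↑F) ≤
      Ex (fun _ => q) S (fun F => (NC src tgt K B ((↑F : Set Edg) \ ↑b) : ℝ)) -
        Ex (fun _ => q) S (fun F => (NC src tgt K B ((↑F : Set Edg) ∪ ↑b) : ℝ)) := by
    rw [← Ex_sub]
    apply Ex_mono ok
    intro F _
    rw [hb]
    exact spl_nc hKc _
  -- the circuit
  have u1 : ∀ F : Finset Edg, BSU c m F →
      NC src tgt K B ((↑F : Set Edg) ∪ ↑b) = NC src tgt K B (↑F : Set Edg) := by
    intro F hF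
    apply nc_same F b hKb
    rintro F' hF' _ e he ⟨⟨w, hw, r1⟩, ⟨w', hw', r2⟩, hn⟩
    obtain ⟨z, hz⟩ := BSU_meet hm (BSU_mono hF' hF)
    rw [hb] at he
    obtain ⟨i1, i2⟩ := BS_adj_box he
    have g1 := hz _ w i1 (hB w hw) r1
    have g2 := hz _ w' i2 (hB w' hw') r2
    exact hn (g1.trans g2.symm)
  -- the blocking event
  have d1 : ∀ F : Finset Edg, BSD c m F →
      NC src tgt K B ((↑F : Set Edg) \ ↑b) = NC src tgt K B (↑F : Set Edg) := by
    intro F hF
    have h2 := nc_same (s := src) (t := tgt) (K := K) (B := B) (F \ b) (F ∩ b)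
      (fun e he => hKb e (Finset.mem_inter.mp he).2) ?_
    · have e1 : (↑(F \ b) : Set Edg) ∪ ↑(F ∩ b) = ↑F := by
        rw [← Finset.coe_union, Finset.sdiff_union_inter]
      rw [e1, Finset.coe_sdiff] at h2
      exact h2.symm
    · rintro F' _ hF' e he ⟨⟨w, hw, r1⟩, _, _⟩
      have hFF : F' ⊆ F := by
        rw [Finset.sdiff_union_inter] at hF'
        exact hF'
      have he' : e ∈ blk c m := hb ▸ (Finset.mem_inter.mp he).2
      exact hF ⟨src e, w, (BS_adj_box he').1, hB w hw, r1.mono (by exact_mod_cast hFF)⟩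
  -- monotonicity
  have hmono : ∀ A : Finset Edg, ∀ B1 B2 : Finset Edg, B1 ⊆ B2 → B2 ⊆ blk c (3 * m) →
      NC src tgt K B ((↑(A ∪ B2) : Set Edg)) ≤ NC src tgt K B (↑(A ∪ B1) : Set Edg) := by
    intro A B1 B2 h12 h2
    have h3 := (nc_union (s := src) (t := tgt) (K := K) (B := B) (↑(A ∪ B1) : Set Edg) B2
      (fun e he => hK e (h2 he))).1
    have e1 : (↑(A ∪ B1) : Set Edg) ∪ ↑B2 = ↑(A ∪ B2) := by
      rw [← Finset.coe_union]
      congr 1
      rw [Finset.union_assoc, Finset.union_eq_right.mpr h12]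
    rwa [e1] at h3
  have a2 : Ex (fun _ => q) S (fun F => -(NC src tgt K B ((↑F : Set Edg) ∪ ↑b) : ℝ)) *
      PQ q S (BSU c m) ≤
      Ex (fun _ => q) S (fun F => (-(NC src tgt K B (↑F : Set Edg) : ℝ)) * ind (BSU c m F)) := by
    refine (harris_loc ok hS (U := BSU c m) (BSU_local c m)
      (fun F G hFG _ hF => BSU_mono hFG hF) ?_).trans (le_of_eq ?_)
    · intro A _ B1 B2 h12 h2
      have h3 := hmono (A ∪ b) B1 B2 h12 h2
      have e1 : ∀ X : Finset Edg, (↑(A ∪ X) : Set Edg) ∪ ↑b = ↑((A ∪ b) ∪ X) := by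
        intro X
        rw [← Finset.coe_union]
        congr 1
        rw [Finset.union_right_comm]
      rw [e1, e1]
      have h4 : (NC src tgt K B (↑((A ∪ b) ∪ B2) : Set Edg) : ℝ) ≤
        NC src tgt K B (↑((A ∪ b) ∪ B1) : Set Edg) := by exact_mod_cast h3
      linarith
    · apply Ex_congr
      intro F _
      by_cases hF : BSU c m F
      · rw [u1 F hF]
      · rw [ind_not_of hF, mul_zero, mul_zero]
  have a3 : Ex (fun _ => q) S (fun F => (-(NC src tgt K B (↑F : Set Edg) : ℝ)) *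
      ind (BSD c m F)) ≤
      Ex (fun _ => q) S (fun F => -(NC src tgt K B ((↑F : Set Edg) \ ↑b) : ℝ)) *
        PQ q S (BSD c m) := by
    have h5 := harris_loc ok hS (f := fun F => -(NC src tgt K B ((↑F : Set Edg) \ ↑b) : ℝ))
      (U := fun F => ¬ BSD c m F) (fun F => not_congr (BSD_local c m F))
      (fun F G hFG _ hF hG => hF (fun h => hG (BS_crs_mono (by exact_mod_cast hFG) h))) ?_
    · rw [Pr_not] at h5
      have e2 : Ex (fun _ => q) S (fun F => (-(NC src tgt K B ((↑F : Set Edg) \ ↑b) : ℝ)) *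
          ind (¬ BSD c m F)) =
          Ex (fun _ => q) S (fun F => -(NC src tgt K B ((↑F : Set Edg) \ ↑b) : ℝ)) -
          Ex (fun _ => q) S (fun F => (-(NC src tgt K B (↑F : Set Edg) : ℝ)) *
            ind (BSD c m F)) := by
        rw [← Ex_sub]
        apply Ex_congr
        intro F _
        by_cases hF : BSD c m F
        · rw [d1 F hF, ind_of hF, ind_not_of (not_not.mpr hF)]
          ring
        · rw [ind_not_of hF, ind_of hF]
          ring
      rw [e2] at h5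
      change Ex (fun _ => q) S (fun F => -(NC src tgt K B ((↑F : Set Edg) \ ↑b) : ℝ)) *
        (1 - PQ q S (BSD c m)) ≤ _ at h5
      linarith
    · intro A _ B1 B2 h12 h2
      have h3 := hmono (A \ b) (B1 \ b) (B2 \ b) (Finset.sdiff_subset_sdiff h12
        (Finset.Subset.refl _)) (Finset.sdiff_subset.trans h2)
      have e1 : ∀ X : Finset Edg, (↑(A ∪ X) : Set Edg) \ ↑b = ↑((A \ b) ∪ (X \ b)) := by
        intro X
        rw [← Finset.coe_sdiff, Finset.union_sdiff_distrib]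
      rw [e1, e1]
      have h4 : (NC src tgt K B (↑((A \ b) ∪ (B2 \ b)) : Set Edg) : ℝ) ≤
        NC src tgt K B (↑((A \ b) ∪ (B1 \ b)) : Set Edg) := by exact_mod_cast h3
      linarith
  have a4 : Ex (fun _ => q) S (fun F => (-(NC src tgt K B (↑F : Set Edg) : ℝ)) *
      BSV q S c m F) =
      (PQ q S (BSU c m))⁻¹ * Ex (fun _ => q) S (fun F =>
        (-(NC src tgt K B (↑F : Set Edg) : ℝ)) * ind (BSU c m F)) -
      (PQ q S (BSD c m))⁻¹ * Ex (fun _ => q) S (fun F =>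
        (-(NC src tgt K B (↑F : Set Edg) : ℝ)) * ind (BSD c m F)) := by
    rw [← Ex_mul_left, ← Ex_mul_left, ← Ex_sub]
    apply Ex_congr
    intro F _
    unfold BSV
    ring
  have b1 : Ex (fun _ => q) S (fun F => -(NC src tgt K B ((↑F : Set Edg) ∪ ↑b) : ℝ)) ≤
      (PQ q S (BSU c m))⁻¹ * Ex (fun _ => q) S (fun F =>
        (-(NC src tgt K B (↑F : Set Edg) : ℝ)) * ind (BSU c m F)) := by
    rw [inv_mul_eq_div, le_div_iff₀ hU]
    exact a2
  have b2 : (PQ q S (BSD c m))⁻¹ * Ex (fun _ => q) S (fun F =>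
        (-(NC src tgt K B (↑F : Set Edg) : ℝ)) * ind (BSD c m F)) ≤
      Ex (fun _ => q) S (fun F => -(NC src tgt K B ((↑F : Set Edg) \ ↑b) : ℝ)) := by
    rw [inv_mul_eq_div, div_le_iff₀ hD]
    exact a3
  have n1 : ∀ f : Finset Edg → ℝ, Ex (fun _ => q) S (fun F => -(f F)) =
      -Ex (fun _ => q) S f := by
    intro f
    have := Ex_mul_left (fun _ => q) S (-1) f
    simp only [neg_mul, one_mul] at this
    exact this
  rw [n1] at b1 b2
  rw [a4]
  linarith

/-- The sum of the splitting probabilities of disjoint blocks. -/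
theorem spl_sum {q κ : ℝ} {n : ℕ} (h : Win q κ n) {S : Finset Edg} {K : Finset Vtx}
    {B : Set Vtx} {T : Finset (ℤ × ℤ)} {m : ℕ} (hm : 1 ≤ m) (hmn : 2 * m ≤ n)
    (hS : ∀ c ∈ T, blk c (3 * m) ⊆ S)
    (hd : ∀ c ∈ T, ∀ c' ∈ T, c ≠ c' → Disjoint (blk c (3 * m)) (blk c' (3 * m)))
    (hK : ∀ c ∈ T, ∀ e ∈ blk c (3 * m), src e ∈ K ∧ tgt e ∈ K)
    (hB : ∀ c ∈ T, ∀ v ∈ B, BSfar c (3 * m) v) {lam : ℝ} (hl : lam < 1)
    (hA : PQ q S (fun G => ∃ x ∈ K, RB src tgt B (↑G : Set Edg) x) ≤ lam) :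
    (∑ c ∈ T, PQ q S (fun F => Spl B c m ↑F)) ^ 2 ≤
      2 / (1 - lam) ^ 2 * (T.card * (2 * κ⁻¹ ^ 4)) := by
  have h0 := h.q0
  have h1 := h.q1
  have ok := okq h0 h1
  have hk4 : 0 < κ ^ 4 := by have := h.kpos; positivity
  have hU : ∀ c ∈ T, κ ^ 4 ≤ PQ q S (BSU c m) := by
    intro c hc
    refine (win_circ h hm hmn c.1 c.2 S ?_).1
    have := hS c hc
    unfold blk at this
    push_cast at this
    exact this
  have hD : ∀ c ∈ T, κ ^ 4 ≤ PQ q S (BSD c m) := by
    intro c hc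
    exact (win_blk h hm hmn c.1 c.2 S).1
  have hU' : ∀ c ∈ T, 0 < PQ q S (BSU c m) := fun c hc => hk4.trans_le (hU c hc)
  have hD' : ∀ c ∈ T, 0 < PQ q S (BSD c m) := fun c hc => hk4.trans_le (hD c hc)
  set f : Finset Edg → ℝ := fun F => -(NC src tgt K B (↑F : Set Edg) : ℝ) with hf
  set g : Finset Edg → ℝ := fun F => ∑ c ∈ T, BSV q S c m F with hg
  have b0 : 0 ≤ ∑ c ∈ T, PQ q S (fun F => Spl B c m ↑F) :=
    Finset.sum_nonneg (fun c _ => Pr_nonneg ok _ _)
  have b1 : ∑ c ∈ T, PQ q S (fun F => Spl B c m ↑F) ≤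
      Ex (fun _ => q) S (fun F => f F * g F) := by
    have e1 : Ex (fun _ => q) S (fun F => f F * g F) =
        ∑ c ∈ T, Ex (fun _ => q) S (fun F => f F * BSV q S c m F) := by
      rw [← Ex_sum]
      apply Ex_congr
      intro F _
      rw [hg, Finset.mul_sum]
    rw [e1]
    apply Finset.sum_le_sum
    intro c hc
    exact nc_infl h0 h1 hm (hS c hc) (hK c hc) (hB c hc) (hU' c hc) (hD' c hc)
  have b2 : Ex (fun _ => q) S (fun F => (f F) ^ 2) ≤ 2 / (1 - lam) ^ 2 := by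
    have := NC_sq ok S src tgt K B hl hA
    refine le_trans (le_of_eq ?_) this
    apply Ex_congr
    intro F _
    rw [hf]
    ring
  have b3 : Ex (fun _ => q) S (fun F => (g F) ^ 2) =
      ∑ c ∈ T, Ex (fun _ => q) S (fun F => BSV q S c m F * BSV q S c m F) := by
    have e1 : Ex (fun _ => q) S (fun F => (g F) ^ 2) =
        ∑ c ∈ T, ∑ c' ∈ T, Ex (fun _ => q) S (fun F => BSV q S c m F * BSV q S c' m F) := by
      have e2 : ∀ F : Finset Edg, F ⊆ S → (g F) ^ 2 =
          ∑ c ∈ T, ∑ c' ∈ T, BSV q S c m F * BSV q S c' m F := by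
        intro F _
        rw [hg, sq, Finset.sum_mul_sum]
      rw [Ex_congr e2, Ex_sum]
      apply Finset.sum_congr rfl
      intro c _
      rw [Ex_sum]
    rw [e1]
    apply Finset.sum_congr rfl
    intro c hc
    rw [Finset.sum_eq_single c]
    · intro c' hc' hne
      rw [Ex_mul_indep (hS c hc) (hS c' hc') (hd c hc c' hc' (Ne.symm hne))
        (fun F _ => BSV_local q S c m F) (fun F _ => BSV_local q S c' m F),
        BSV_mean (hU' c hc) (hD' c hc), zero_mul]
    · intro h; exact absurd hc h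
  have b4 : Ex (fun _ => q) S (fun F => (g F) ^ 2) ≤ T.card * (2 * κ⁻¹ ^ 4) := by
    rw [b3]
    have : ∀ c ∈ T, Ex (fun _ => q) S (fun F => BSV q S c m F * BSV q S c m F) ≤
        2 * κ⁻¹ ^ 4 := by
      intro c hc
      refine (BSV_sq h0 h1 (hU' c hc) (hD' c hc)).trans ?_
      have i1 : (PQ q S (BSU c m))⁻¹ ≤ κ⁻¹ ^ 4 := by
        rw [inv_pow]; exact inv_anti₀ hk4 (hU c hc)
      have i2 : (PQ q S (BSD c m))⁻¹ ≤ κ⁻¹ ^ 4 := by
        rw [inv_pow]; exact inv_anti₀ hk4 (hD c hc)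
      linarith
    refine (Finset.sum_le_sum this).trans ?_
    rw [Finset.sum_const, nsmul_eq_mul]
  have b5 := Ex_cs ok S f g
  have hg0 : 0 ≤ Ex (fun _ => q) S (fun F => (g F) ^ 2) :=
    Ex_nonneg ok (fun F _ => sq_nonneg _)
  have hf0 : 0 ≤ Ex (fun _ => q) S (fun F => (f F) ^ 2) :=
    Ex_nonneg ok (fun F _ => sq_nonneg _)
  calc (∑ c ∈ T, PQ q S (fun F => Spl B c m ↑F)) ^ 2
      ≤ (Ex (fun _ => q) S (fun F => f F * g F)) ^ 2 := pow_le_pow_left₀ b0 b1 2
    _ ≤ _ := b5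
    _ ≤ _ := mul_le_mul b2 b4 hg0 (hf0.trans b2)

end Pool.Agent.X135.AL
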