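import Pool.Agent.X135.AL.Ann

/-!
Two clusters crossing an annulus: the probability is at most `C r / R` in the window.
-/

set_option autoImplicit false
set_option maxHeartbeats 1000000

namespace Pool.Agent.X135.AL

open H974 H12S Finset

/-- The edges of an annulus. -/
noncomputable def anE (c : ℤ × ℤ) (ρ R : ℕ) : Finset Edg := blk c R \ blk c ρ

/-- Two clusters cross the annulus around `c` between the radii `ρ` and `R`. -/
def AN (c : ℤ × ℤ) (ρ R : ℕ) (G : Set Edg) : Prop :=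
  ∃ u v : Vtx, inR (c.1 - ρ) (c.1 + ρ) (c.2 - ρ) (c.2 + ρ) u ∧
    inR (c.1 - ρ) (c.1 + ρ) (c.2 - ρ) (c.2 + ρ) v ∧
    (∃ w, BSfar c R w ∧ Reach (G ∩ ↑(anE c ρ R)) u w) ∧
    (∃ w, BSfar c R w ∧ Reach (G ∩ ↑(anE c ρ R)) v w) ∧
    ¬ Reach (G ∩ ↑(anE c ρ R)) u v

theorem AN_local (c : ℤ × ℤ) (ρ R : ℕ) (F : Finset Edg) :
    AN c ρ R (↑F : Set Edg) ↔ AN c ρ R (↑(F ∩ anE c ρ R) : Set Edg) := by
  unfold AN
  rw [Finset.coe_inter, Set.inter_assoc, Set.inter_self]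

theorem blk_mono (c : ℤ × ℤ) {r R : ℕ} (h : r ≤ R) : blk c r ⊆ blk c R := by
  unfold blk
  apply RE_subset <;> omega

theorem blk_sub {c c' : ℤ × ℤ} {r R : ℕ} (h1 : |c.1 - c'.1| + r ≤ R) (h2 : |c.2 - c'.2| + r ≤ R) :
    blk c r ⊆ blk c' R := by
  have g1 := abs_le.mp (show |c.1 - c'.1| ≤ R - r by linarith)
  have g2 := abs_le.mp (show |c.2 - c'.2| ≤ R - r by linarith)
  unfold blk
  apply RE_subset <;> omega

theorem AN_mono {c : ℤ × ℤ} {ρ R R' : ℕ} (h1 : ρ ≤ R') (h2 : R' ≤ R) {G : Set Edg}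
    (h : AN c ρ R G) : AN c ρ R' G := by
  have hsub : (↑(anE c ρ R') : Set Edg) ⊆ ↑(anE c ρ R) := by
    unfold anE
    exact_mod_cast Finset.sdiff_subset_sdiff (blk_mono c h2) (Finset.Subset.refl _)
  have key : ∀ u : Vtx, inR (c.1 - ρ) (c.1 + ρ) (c.2 - ρ) (c.2 + ρ) u →
      (∃ w, BSfar c R w ∧ Reach (G ∩ ↑(anE c ρ R)) u w) →
      (∃ w, BSfar c R' w ∧ Reach (G ∩ ↑(anE c ρ R')) u w) := by
    rintro u hu ⟨w, hw, hr⟩
    obtain ⟨w', k1, k2, k3⟩ := first_exit (a := c.1 - R') (b := c.1 + R') (c := c.2 - R')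
      (d := c.2 + R') (u := u) (by unfold inR at hu ⊢; omega) hr
      (by unfold BSfar at hw; omega)
    refine ⟨w', by unfold BSfar; omega, k3.mono ?_⟩
    rintro e ⟨⟨he1, he2⟩, he3⟩
    refine ⟨he1, ?_⟩
    unfold anE at he2 ⊢
    rw [Finset.mem_coe, Finset.mem_sdiff] at he2 ⊢
    exact ⟨he3, he2.2⟩
  obtain ⟨u, v, hu, hv, h3, h4, h5⟩ := h
  refine ⟨u, v, hu, hv, key u hu h3, key v hv h4, fun h6 => h5 (h6.mono ?_)⟩
  exact Set.inter_subset_inter_right _ hsub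

theorem trl_blk (s t : ℤ) (c : ℤ × ℤ) (r : ℕ) :
    (trl s t).mp (blk c r) = blk (c.1 + s, c.2 + t) r := by
  unfold blk
  rw [trl_RE]
  congr 1 <;> ring

theorem trl_anE (s t : ℤ) (c : ℤ × ℤ) (ρ R : ℕ) :
    (trl s t).mp (anE c ρ R) = anE (c.1 + s, c.2 + t) ρ R := by
  unfold anE
  rw [LSym.mp_sdiff, trl_blk, trl_blk]

theorem AN_trl (s t : ℤ) {c : ℤ × ℤ} {ρ R : ℕ} {F : Finset Edg} (h : AN c ρ R (↑F : Set Edg)) :
    AN (c.1 + s, c.2 + t) ρ R (↑((trl s t).mp F) : Set Edg) := by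
  have e0 : (↑((trl s t).mp F) : Set Edg) ∩ ↑(anE (c.1 + s, c.2 + t) ρ R) =
      (trl s t).φ '' ((↑F : Set Edg) ∩ ↑(anE c ρ R)) := by
    rw [← trl_anE, ← Finset.coe_inter, ← LSym.mp_inter, LSym.coe_mp, Finset.coe_inter]
  obtain ⟨u, v, hu, hv, ⟨w, hw, h3⟩, ⟨w', hw', h4⟩, h5⟩ := h
  refine ⟨(trl s t).ψ u, (trl s t).ψ v, ?_, ?_, ⟨(trl s t).ψ w, ?_, ?_⟩,
    ⟨(trl s t).ψ w', ?_, ?_⟩, ?_⟩
  · obtain ⟨x, y⟩ := u
    unfold inR at hu ⊢
    rw [trl_ψ]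
    simp only at hu ⊢
    omega
  · obtain ⟨x, y⟩ := v
    unfold inR at hv ⊢
    rw [trl_ψ]
    simp only at hv ⊢
    omega
  · obtain ⟨x, y⟩ := w
    unfold BSfar at hw ⊢
    rw [trl_ψ]
    simp only at hw ⊢
    omega
  · rw [e0]; exact (trl s t).reach h3
  · obtain ⟨x, y⟩ := w'
    unfold BSfar at hw' ⊢
    rw [trl_ψ]
    simp only at hw' ⊢
    omega
  · rw [e0]; exact (trl s t).reach h4
  · rw [e0]; exact fun h6 => h5 ((trl s t).reach_iff.mp h6)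

theorem AN_pr (q : ℝ) (c : ℤ × ℤ) (ρ R : ℕ) :
    PQ q (blk c R) (fun F => AN c ρ R ↑F) = PQ q (blk (0, 0) R) (fun F => AN (0, 0) ρ R ↑F) := by
  have e1 : blk c R = (trl c.1 c.2).mp (blk (0, 0) R) := by
    rw [trl_blk]; simp
  rw [e1]
  refine (LSym.pr _ _ _ _).trans (Pr_congr fun F _ => ?_)
  constructor
  · intro h
    have h2 := AN_trl (-c.1) (-c.2) h
    rw [trl_trl] at h2
    simpa using h2
  · intro h
    have h2 := AN_trl c.1 c.2 h
    simpa using h2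

/-- Far vertices. -/
def FarB (R : ℕ) : Set Vtx := {v | BSfar (0, 0) R v}

theorem an_spl {R1 ρ : ℕ} (hρ : ρ ≤ R1) {c : ℤ × ℤ} (h1 : |c.1| ≤ R1) (h2 : |c.2| ≤ R1)
    {F : Finset Edg} (h : AN c ρ (4 * R1) (↑F : Set Edg)) :
    Spl (FarB (3 * R1)) c ρ (↑(F ∩ boxE (3 * R1)) : Set Edg) := by
  have g1 := abs_le.mp h1
  have g2 := abs_le.mp h2
  have hbx : boxE (3 * R1) ⊆ blk c (4 * R1) := by
    unfold boxE blk
    apply RE_subset <;> push_cast <;> omega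
  have key : ∀ u : Vtx, inR (c.1 - ρ) (c.1 + ρ) (c.2 - ρ) (c.2 + ρ) u →
      (∃ w, BSfar c (4 * R1) w ∧ Reach ((↑F : Set Edg) ∩ ↑(anE c ρ (4 * R1))) u w) →
      RB src tgt (FarB (3 * R1)) ((↑(F ∩ boxE (3 * R1)) : Set Edg) \ ↑(blk c ρ)) u := by
    rintro u hu ⟨w, hw, hr⟩
    obtain ⟨w', k1, k2, k3⟩ := first_exit (a := -((3 * R1 : ℕ) : ℤ)) (b := ((3 * R1 : ℕ) : ℤ))
      (c := -((3 * R1 : ℕ) : ℤ)) (d := ((3 * R1 : ℕ) : ℤ)) (u := u)
      (by unfold inR at hu ⊢; push_cast; omega) hr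
      (by unfold BSfar at hw; push_cast at hw ⊢; omega)
    refine ⟨w', ?_, k3.mono ?_⟩
    · change BSfar (0, 0) (3 * R1) w'
      unfold BSfar
      simp only
      omega
    · rintro e ⟨⟨he1, he2⟩, he3⟩
      unfold anE at he2
      rw [Finset.mem_coe, Finset.mem_sdiff] at he2
      refine ⟨?_, he2.2⟩
      rw [Finset.mem_coe, Finset.mem_inter]
      exact ⟨he1, he3⟩
  obtain ⟨u, v, hu, hv, h3, h4, h5⟩ := h
  refine ⟨u, v, hu, hv, key u hu h3, key v hv h4, fun h6 => h5 (h6.mono ?_)⟩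
  rintro e ⟨he1, he2⟩
  rw [Finset.mem_coe, Finset.mem_inter] at he1
  refine ⟨he1.1, ?_⟩
  unfold anE
  rw [Finset.mem_coe, Finset.mem_sdiff]
  exact ⟨hbx he1.2, he2⟩

/-- Scales `m` and `40 m k`. -/
theorem an_scale {q κ : ℝ} {n : ℕ} (h : Win q κ n) {m k : ℕ} (hm : 1 ≤ m) (hk : 1 ≤ k)
    (hn : 2 * (10 * m * k) ≤ n) :
    PQ q (blk (0, 0) (4 * (10 * m * k))) (fun F => AN (0, 0) m (4 * (10 * m * k)) ↑F) ≤
      κ⁻¹ ^ 6 / k := by
  classical
  have h0 := h.q0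
  have h1 := h.q1
  have ok := okq h0 h1
  have hκ := h.kpos
  obtain ⟨R1, hR1⟩ : ∃ R1, R1 = 10 * m * k := ⟨_, rfl⟩
  rw [← hR1] at hn ⊢
  obtain ⟨P, hP⟩ : ∃ P, P = PQ q (blk (0, 0) (4 * R1)) (fun F => AN (0, 0) m (4 * R1) ↑F) :=
    ⟨_, rfl⟩
  rw [← hP]
  have hmk : m * 1 ≤ m * k := Nat.mul_le_mul_left _ hk
  have hR1' : R1 = 10 * (m * k) := by rw [hR1]; ring
  have hmk' : ((m * k : ℕ) : ℤ) = (m:ℤ) * k := by push_cast; ring
  set T : Finset (ℤ × ℤ) := ((Finset.Icc (-(k:ℤ)) k) ×ˢ (Finset.Icc (-(k:ℤ)) k)).image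
    (fun z => (7 * (m:ℤ) * z.1, 7 * (m:ℤ) * z.2)) with hT
  have hm0 : (0:ℤ) < m := by exact_mod_cast hm
  have hTc : T.card = (2 * k + 1) ^ 2 := by
    rw [hT, Finset.card_image_of_injective]
    · rw [Finset.card_product, Int.card_Icc]
      have : ((k:ℤ) + 1 - -(k:ℤ)).toNat = 2 * k + 1 := by omega
      rw [this, sq]
    · rintro ⟨a, b⟩ ⟨a', b'⟩ hab
      simp only [Prod.mk.injEq] at hab
      have h7 : (7 * (m:ℤ)) ≠ 0 := by omega
      exact Prod.ext (mul_left_cancel₀ h7 hab.1) (mul_left_cancel₀ h7 hab.2)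
  have hTb : ∀ c ∈ T, |c.1| ≤ 7 * (m * k : ℕ) ∧ |c.2| ≤ 7 * (m * k : ℕ) := by
    intro c hc
    rw [hT, Finset.mem_image] at hc
    obtain ⟨z, hz, rfl⟩ := hc
    rw [Finset.mem_product, Finset.mem_Icc, Finset.mem_Icc] at hz
    have key : ∀ x : ℤ, -(k:ℤ) ≤ x → x ≤ k → |7 * (m:ℤ) * x| ≤ 7 * (m * k : ℕ) := by
      intro x hx1 hx2
      rw [abs_mul, abs_of_nonneg (by omega : (0:ℤ) ≤ 7 * m), hmk', mul_assoc]
      have : |x| ≤ k := abs_le.mpr ⟨hx1, hx2⟩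
      nlinarith
    exact ⟨key _ hz.1.1 hz.1.2, key _ hz.2.1 hz.2.2⟩
  have hTd : ∀ c ∈ T, ∀ c' ∈ T, c ≠ c' →
      Disjoint (blk c (3 * m)) (blk c' (3 * m)) := by
    intro c hc c' hc' hne
    rw [hT, Finset.mem_image] at hc hc'
    obtain ⟨z, _, rfl⟩ := hc
    obtain ⟨z', _, rfl⟩ := hc'
    have hzz : z.1 ≠ z'.1 ∨ z.2 ≠ z'.2 := by
      by_contra hcon
      push Not at hcon
      apply hne
      rw [hcon.1, hcon.2]
    have hfar : ∀ x x' : ℤ, x ≠ x' → 7 * (m:ℤ) * x + 7 * m ≤ 7 * (m:ℤ) * x' ∨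
        7 * (m:ℤ) * x' + 7 * m ≤ 7 * (m:ℤ) * x := by
      intro x x' hx
      rcases lt_or_gt_of_ne hx with hlt | hlt
      · left; nlinarith
      · right; nlinarith
    rw [Finset.disjoint_left]
    intro e he he'
    have i1 := BS_adj_box he
    have i2 := BS_adj_box he'
    unfold inR at i1 i2
    simp only at i1 i2
    push_cast at i1 i2
    rcases hzz with hz | hz
    · rcases hfar _ _ hz with h7 | h7 <;> omega
    · rcases hfar _ _ hz with h7 | h7 <;> omega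
  obtain ⟨K, hK⟩ : ∃ K : Finset Vtx, K = (Finset.Icc (-(R1:ℤ)) R1) ×ˢ (Finset.Icc (-(R1:ℤ)) R1) :=
    ⟨_, rfl⟩
  have hKm : ∀ v : Vtx, v ∈ K ↔ (-(R1:ℤ) ≤ v.1 ∧ v.1 ≤ R1) ∧ (-(R1:ℤ) ≤ v.2 ∧ v.2 ≤ R1) := by
    intro v
    rw [hK, Finset.mem_product, Finset.mem_Icc, Finset.mem_Icc]
  have hsum := spl_sum h (S := boxE (3 * R1)) (K := K) (B := FarB (3 * R1)) (T := T) (m := m) hm
    (by omega) ?_ hTd ?_ ?_ (lam := 1 - κ ^ 4) (by have := pow_pos hκ 4; linarith) ?_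
  · -- each term is at least `P`
    have hPc : ∀ c ∈ T, P ≤ PQ q (boxE (3 * R1)) (fun F => Spl (FarB (3 * R1)) c m ↑F) := by
      intro c hc
      obtain ⟨b1, b2⟩ := hTb c hc
      have hbx : boxE (3 * R1) ⊆ blk c (4 * R1) := by
        have g1 := abs_le.mp b1
        have g2 := abs_le.mp b2
        unfold boxE blk
        apply RE_subset <;> push_cast <;> push_cast at g1 g2 <;> omega
      have e1 : PQ q (blk c (4 * R1)) (fun F => Spl (FarB (3 * R1)) c m ↑(F ∩ boxE (3 * R1))) =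
          PQ q (boxE (3 * R1)) (fun F => Spl (FarB (3 * R1)) c m ↑F) := by
        have e2 := Pr_local (p := fun _ => q) hbx
          (A := fun F => Spl (FarB (3 * R1)) c m ↑(F ∩ boxE (3 * R1)))
          (fun F _ => by rw [Finset.inter_assoc, Finset.inter_self])
        refine e2.trans (Pr_congr fun F hF => ?_)
        rw [Finset.inter_eq_left.mpr hF]
      rw [← e1, hP, ← AN_pr q c m (4 * R1)]
      apply Pr_mono ok
      intro F _ hF
      refine an_spl (by omega) ?_ ?_ hF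
      · refine b1.trans ?_; push_cast; rw [hR1']; push_cast; nlinarith
      · refine b2.trans ?_; push_cast; rw [hR1']; push_cast; nlinarith
    have hP0 : 0 ≤ P := by rw [hP]; exact Pr_nonneg ok _ _
    have h3 : (T.card : ℝ) * P ≤ ∑ c ∈ T, PQ q (boxE (3 * R1))
        (fun F => Spl (FarB (3 * R1)) c m ↑F) := by
      rw [← nsmul_eq_mul]
      exact Finset.card_nsmul_le_sum T _ P hPc
    have h4 : ((T.card : ℝ) * P) ^ 2 ≤ 2 / (1 - (1 - κ ^ 4)) ^ 2 *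
        (T.card * (2 * κ⁻¹ ^ 4)) := (pow_le_pow_left₀ (by positivity) h3 2).trans hsum
    have hk0 : (0:ℝ) < k := by exact_mod_cast hk
    have hTr : (T.card : ℝ) = (2 * k + 1) ^ 2 := by rw [hTc]; push_cast; ring
    rw [hTr] at h4
    have e5 : 2 / (1 - (1 - κ ^ 4)) ^ 2 * ((2 * (k:ℝ) + 1) ^ 2 * (2 * κ⁻¹ ^ 4)) =
        (2 * k + 1) ^ 2 * (2 * κ⁻¹ ^ 6) ^ 2 := by
      field_simp
      ring
    rw [e5] at h4
    have h6 : ((2 * (k:ℝ) + 1) * P) ^ 2 ≤ (2 * κ⁻¹ ^ 6) ^ 2 := by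
      have h7 : (0:ℝ) < (2 * k + 1) ^ 2 := by positivity
      have h8 : (2 * (k:ℝ) + 1) ^ 2 * ((2 * (k:ℝ) + 1) * P) ^ 2 ≤
          (2 * k + 1) ^ 2 * (2 * κ⁻¹ ^ 6) ^ 2 := by
        refine le_trans (le_of_eq ?_) h4
        ring
      exact le_of_mul_le_mul_left h8 h7
    have h9 : (2 * (k:ℝ) + 1) * P ≤ 2 * κ⁻¹ ^ 6 :=
      (pow_le_pow_iff_left₀ (by positivity) (by positivity) two_ne_zero).mp h6
    rw [le_div_iff₀ hk0]
    nlinarith
  · -- blocks in the box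
    intro c hc
    obtain ⟨b1, b2⟩ := hTb c hc
    have g1 := abs_le.mp b1
    have g2 := abs_le.mp b2
    unfold boxE blk
    apply RE_subset <;> push_cast <;> push_cast at g1 g2 <;> omega
  · -- ends in `K`
    intro c hc e he
    obtain ⟨b1, b2⟩ := hTb c hc
    have g1 := abs_le.mp b1
    have g2 := abs_le.mp b2
    have i1 := BS_adj_box he
    unfold inR at i1
    rw [hKm, hKm]
    push_cast at g1 g2 i1
    omega
  · -- the boundary is far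
    intro c hc v hv
    obtain ⟨b1, b2⟩ := hTb c hc
    have g1 := abs_le.mp b1
    have g2 := abs_le.mp b2
    have hv' : BSfar (0, 0) (3 * R1) v := hv
    unfold BSfar at hv' ⊢
    simp only at hv'
    push_cast at g1 g2 hv' ⊢
    omega
  · -- the probability of a crossing
    have h3 := (win_blk h (m := R1) (by omega) hn 0 0 (boxE (3 * R1))).1
    have h4 : PQ q (boxE (3 * R1)) (fun F => ¬ Crs 0 0 R1 (3 * R1) ↑F) =
        1 - PQ q (boxE (3 * R1)) (fun F => Crs 0 0 R1 (3 * R1) ↑F) := Pr_not _ _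
    rw [h4] at h3
    have h5 : PQ q (boxE (3 * R1)) (fun G => ∃ x ∈ K, RB src tgt (FarB (3 * R1)) (↑G : Set Edg) x)
        ≤ PQ q (boxE (3 * R1)) (fun F => Crs 0 0 R1 (3 * R1) ↑F) := by
      apply Pr_mono ok
      rintro F _ ⟨x, hx, w, hw, hr⟩
      rw [hKm] at hx
      have hw' : BSfar (0, 0) (3 * R1) w := hw
      unfold BSfar at hw'
      simp only at hw'
      refine ⟨x, w, ?_, ?_, hr⟩
      · unfold inR; omega
      · exact hw'
    linarith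

/-- **Two clusters crossing an annulus.** -/
theorem an_bound {q κ : ℝ} {n : ℕ} (h : Win q κ n) {ρ R : ℕ} (hρ : 1 ≤ ρ) (hR : ρ ≤ R)
    (hRn : R ≤ n) (c : ℤ × ℤ) {S : Finset Edg} (hS : blk c R ⊆ S) :
    PQ q S (fun F => AN c ρ R ↑F) ≤ 80 * κ⁻¹ ^ 6 * ((ρ:ℝ) / R) := by
  have ok := okq h.q0 h.q1
  have hκ := h.kpos
  have hρ0 : (0:ℝ) < ρ := by exact_mod_cast hρ
  have hR0 : (0:ℝ) < R := by exact_mod_cast (by omega : 0 < R)
  have hκ6 : 1 ≤ κ⁻¹ ^ 6 := by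
    apply one_le_pow₀
    rw [one_le_inv₀ hκ]
    linarith [h.kle]
  have e0 : PQ q S (fun F => AN c ρ R ↑F) = PQ q (blk c R) (fun F => AN c ρ R ↑F) := by
    refine Pr_local hS (fun F _ => ?_)
    rw [AN_local c ρ R F, AN_local c ρ R (F ∩ blk c R)]
    have : F ∩ blk c R ∩ anE c ρ R = F ∩ anE c ρ R := by
      rw [Finset.inter_assoc, Finset.inter_eq_right.mpr (show anE c ρ R ⊆ blk c R from
        Finset.sdiff_subset)]
    rw [this]
  rw [e0, AN_pr]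
  rcases lt_or_ge R (40 * ρ) with hlt | hge
  · refine (Pr_le_one ok _ _).trans ?_
    have h1 : (1:ℝ) ≤ 80 * (ρ / R) := by
      rw [← mul_div_assoc, le_div_iff₀ hR0]
      have : (R:ℝ) < 40 * ρ := by exact_mod_cast hlt
      linarith
    nlinarith
  · obtain ⟨k, hk⟩ : ∃ k, k = R / (40 * ρ) := ⟨_, rfl⟩
    have h40 : 0 < 40 * ρ := by omega
    have hk1 : 1 ≤ k := by
      rw [hk, Nat.one_le_div_iff h40]
      exact hge
    have hkR : 40 * ρ * k ≤ R := by rw [hk]; exact Nat.mul_div_le R (40 * ρ)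
    have hkR2 : R < 40 * ρ * (k + 1) := by
      rw [hk]
      exact Nat.lt_mul_div_succ R h40
    have h4 : 4 * (10 * ρ * k) = 40 * ρ * k := by ring
    have hρk : ρ * 1 ≤ ρ * k := Nat.mul_le_mul_left _ hk1
    have h40' : 40 * ρ * k = 40 * (ρ * k) := by ring
    have h1 := an_scale h hρ hk1 (by
      have : 10 * ρ * k = 10 * (ρ * k) := by ring
      omega)
    rw [h4] at h1
    have h2 : PQ q (blk (0, 0) R) (fun F => AN (0, 0) ρ R ↑F) ≤
        PQ q (blk (0, 0) (40 * ρ * k)) (fun F => AN (0, 0) ρ (40 * ρ * k) ↑F) := by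
      have e2 : PQ q (blk (0, 0) R) (fun F => AN (0, 0) ρ (40 * ρ * k) ↑F) =
          PQ q (blk (0, 0) (40 * ρ * k)) (fun F => AN (0, 0) ρ (40 * ρ * k) ↑F) := by
        refine Pr_local (blk_mono _ hkR) (fun F _ => ?_)
        rw [AN_local _ ρ _ F, AN_local _ ρ _ (F ∩ blk (0, 0) (40 * ρ * k))]
        have : F ∩ blk (0, 0) (40 * ρ * k) ∩ anE (0, 0) ρ (40 * ρ * k) =
            F ∩ anE (0, 0) ρ (40 * ρ * k) := by
          rw [Finset.inter_assoc, Finset.inter_eq_right.mpr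
            (show anE (0, 0) ρ (40 * ρ * k) ⊆ blk (0, 0) (40 * ρ * k) from
              Finset.sdiff_subset)]
        rw [this]
      rw [← e2]
      exact Pr_mono ok (fun F _ hF => AN_mono (by omega) hkR hF)
    refine (h2.trans h1).trans ?_
    have hk0 : (0:ℝ) < k := by exact_mod_cast hk1
    have h5 : 1 / (k:ℝ) ≤ 80 * (ρ / R) := by
      rw [div_le_iff₀ hk0, ← mul_div_assoc, div_mul_eq_mul_div, le_div_iff₀ hR0]
      have h6 : (R:ℝ) < 40 * ρ * (k + 1) := by exact_mod_cast hkR2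
      have h7 : (1:ℝ) ≤ k := by exact_mod_cast hk1
      nlinarith
    calc κ⁻¹ ^ 6 / k = κ⁻¹ ^ 6 * (1 / k) := by ring
      _ ≤ κ⁻¹ ^ 6 * (80 * (ρ / R)) := mul_le_mul_of_nonneg_left h5 (by positivity)
      _ = _ := by ring

end Pool.Agent.X135.AL
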