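import Pool.Agent.X135.AL.Der
import Pool.Agent.H974R2.Infinite

/-!
The number of clusters in a box, and on the torus.
-/

set_option autoImplicit false
set_option maxHeartbeats 1000000

namespace Pool.Agent.X135.AL

open H974 H12S Finset MeasureTheory

/-- Edges with both end points in `V`. -/
def EV (V : Finset Vtx) : Set Edg := {e | src e ∈ V ∧ tgt e ∈ V}

/-- The number of clusters in `V`. -/
noncomputable def kV (V : Finset Vtx) (F : Set Edg) : ℕ :=
  NC src tgt V Set.univ (F ∩ EV V)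

theorem RB_univ {s t : Edg → Vtx} {F : Set Edg} (x : Vtx) : RB s t Set.univ F x :=
  ⟨x, trivial, GR.refl _ _⟩

open Classical in
theorem TC_univ (s t : Edg → Vtx) (V : Finset Vtx) (F : Set Edg) :
    TC s t V Set.univ F = V.image (clu s t F) := by
  ext C
  rw [mem_TC, Finset.mem_image]
  constructor
  · rintro ⟨x, hx, -, h⟩
    exact ⟨x, hx, h⟩
  · rintro ⟨x, hx, h⟩
    exact ⟨x, hx, RB_univ x, h⟩

open Classical in
theorem NC_univ (s t : Edg → Vtx) (V : Finset Vtx) (F : Set Edg) :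
    NC s t V Set.univ F = (V.image (clu s t F)).card := by
  unfold NC
  rw [TC_univ]

theorem card_image_factor {α β γ : Type*} [DecidableEq β] [DecidableEq γ] [Nonempty γ]
    {s : Finset α} {f : α → β} {g : α → γ} (h : ∀ x ∈ s, ∀ y ∈ s, f x = f y → g x = g y) :
    (s.image g).card ≤ (s.image f).card := by
  classical
  have h1 : ∀ b : β, ∃ c : γ, ∀ x ∈ s, f x = b → g x = c := by
    intro b
    by_cases hb : ∃ x ∈ s, f x = b
    · obtain ⟨x, hx, hxb⟩ := hb
      exact ⟨g x, fun y hy hyb => h y hy x hx (hyb.trans hxb.symm)⟩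
    · exact ⟨Classical.arbitrary γ, fun y hy hyb => absurd ⟨y, hy, hyb⟩ hb⟩
  choose c hc using h1
  have h2 : s.image g ⊆ (s.image f).image c := by
    intro z hz
    obtain ⟨x, hx, rfl⟩ := Finset.mem_image.mp hz
    rw [Finset.mem_image]
    exact ⟨f x, Finset.mem_image_of_mem _ hx, (hc (f x) x hx rfl).symm⟩
  exact (Finset.card_le_card h2).trans Finset.card_image_le

theorem mem_clu_self {s t : Edg → Vtx} {F : Set Edg} (x : Vtx) : x ∈ clu s t F x := GR.refl _ _

theorem clu_eq_iff {s t : Edg → Vtx} {F : Set Edg} {x y : Vtx} :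
    clu s t F x = clu s t F y ↔ GR s t F x y := by
  constructor
  · intro h
    have : y ∈ clu s t F x := by rw [h]; exact mem_clu_self y
    exact this
  · exact clu_eq

theorem kV_le_card (V : Finset Vtx) (F : Set Edg) : kV V F ≤ V.card := NC_le _ _ _ _ _

theorem EV_mono {V W : Finset Vtx} (h : V ⊆ W) : EV V ⊆ EV W := fun _ he => ⟨h he.1, h he.2⟩

/-- Subadditivity. -/
theorem kV_union (V W : Finset Vtx) (F : Set Edg) : kV (V ∪ W) F ≤ kV V F + kV W F := by
  classical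
  unfold kV
  rw [NC_univ, NC_univ, NC_univ, Finset.image_union]
  refine (Finset.card_union_le _ _).trans (Nat.add_le_add ?_ ?_)
  · apply card_image_factor
    intro x _ y _ h
    rw [clu_eq_iff] at h ⊢
    exact h.mono (Set.inter_subset_inter_right _ (EV_mono Finset.subset_union_left))
  · apply card_image_factor
    intro x _ y _ h
    rw [clu_eq_iff] at h ⊢
    exact h.mono (Set.inter_subset_inter_right _ (EV_mono Finset.subset_union_right))

theorem kV_biUnion {ι : Type*} [DecidableEq ι] (I : Finset ι) (V : ι → Finset Vtx) (F : Set Edg) :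
    kV (I.biUnion V) F ≤ ∑ i ∈ I, kV (V i) F := by
  induction I using Finset.induction_on with
  | empty =>
    have := kV_le_card ∅ F
    simpa using this
  | insert a I ha ih =>
    rw [Finset.biUnion_insert, Finset.sum_insert ha]
    exact (kV_union _ _ _).trans (Nat.add_le_add_left ih _)

/-- Restriction to the edges of `V`. -/
theorem kV_congr {V : Finset Vtx} {F G : Set Edg} (h : F ∩ EV V = G ∩ EV V) :
    kV V F = kV V G := by
  unfold kV
  rw [h]

/-! ### Translations -/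

def shV (a b : ℤ) (v : Vtx) : Vtx := (v.1 + a, v.2 + b)

def shE (a b : ℤ) (e : Edg) : Edg := (e.1 + a, e.2.1 + b, e.2.2)

theorem src_sh (a b : ℤ) (e : Edg) : src (shE a b e) = shV a b (src e) := rfl

theorem tgt_sh (a b : ℤ) (e : Edg) : tgt (shE a b e) = shV a b (tgt e) := by
  obtain ⟨x, y, β⟩ := e
  cases β
  · show (x + a, y + b + 1) = (x + a, y + 1 + b)
    congr 1; ring
  · show (x + a + 1, y + b) = (x + 1 + a, y + b)
    congr 1; ring

theorem shV_inj (a b : ℤ) : Function.Injective (shV a b) := by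
  rintro ⟨x, y⟩ ⟨x', y'⟩ h
  unfold shV at h
  simp only [Prod.mk.injEq] at h ⊢
  omega

theorem shE_inj (a b : ℤ) : Function.Injective (shE a b) := by
  rintro ⟨x, y, β⟩ ⟨x', y', β'⟩ h
  unfold shE at h
  simp only [Prod.mk.injEq] at h ⊢
  refine ⟨by omega, by omega, h.2.2⟩

theorem GR_sh {a b : ℤ} {F : Set Edg} {x y : Vtx} (h : GR src tgt F x y) :
    GR src tgt (shE a b '' F) (shV a b x) (shV a b y) := by
  induction h with
  | refl => exact GR.refl _ _
  | tail _ hs ih =>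
    obtain ⟨e, he, hc⟩ := hs
    refine ih.tail ⟨shE a b e, ⟨e, he, rfl⟩, ?_⟩
    rw [src_sh, tgt_sh]
    rcases hc with ⟨h1, h2⟩ | ⟨h1, h2⟩
    · exact Or.inl ⟨by rw [h1], by rw [h2]⟩
    · exact Or.inr ⟨by rw [h1], by rw [h2]⟩

theorem sh_sh_V (a b : ℤ) (v : Vtx) : shV (-a) (-b) (shV a b v) = v := by
  unfold shV
  ext <;> simp

theorem sh_sh_E (a b : ℤ) (F : Set Edg) : shE (-a) (-b) '' (shE a b '' F) = F := by
  rw [← Set.image_comp]
  have : shE (-a) (-b) ∘ shE a b = id := by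
    funext e
    unfold shE
    simp
  rw [this, Set.image_id]

theorem GR_sh_iff {a b : ℤ} {F : Set Edg} {x y : Vtx} :
    GR src tgt (shE a b '' F) (shV a b x) (shV a b y) ↔ GR src tgt F x y := by
  constructor
  · intro h
    have := GR_sh (a := -a) (b := -b) h
    rwa [sh_sh_V, sh_sh_V, sh_sh_E] at this
  · exact GR_sh

theorem EV_sh (a b : ℤ) (V : Finset Vtx) : EV (V.image (shV a b)) = shE a b '' EV V := by
  ext e
  constructor
  · rintro ⟨h1, h2⟩
    have he : e = shE a b (shE (-a) (-b) e) := by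
      unfold shE; simp
    refine ⟨shE (-a) (-b) e, ?_, he.symm⟩
    rw [he, src_sh, (shV_inj a b).mem_finset_image] at h1
    rw [he, tgt_sh, (shV_inj a b).mem_finset_image] at h2
    exact ⟨h1, h2⟩
  · rintro ⟨e', ⟨h1, h2⟩, rfl⟩
    refine ⟨?_, ?_⟩
    · rw [src_sh]; exact Finset.mem_image_of_mem _ h1
    · rw [tgt_sh]; exact Finset.mem_image_of_mem _ h2

theorem kV_sh (a b : ℤ) (V : Finset Vtx) (F : Set Edg) :
    kV (V.image (shV a b)) (shE a b '' F) = kV V F := by
  classical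
  unfold kV
  rw [NC_univ, NC_univ, Finset.image_image, EV_sh, ← Set.image_inter (shE_inj a b)]
  apply le_antisymm
  · apply card_image_factor
    intro x _ y _ h
    simp only [Function.comp]
    rw [clu_eq_iff] at h ⊢
    exact GR_sh_iff.mpr h
  · apply card_image_factor
    intro x _ y _ h
    simp only [Function.comp] at h
    rw [clu_eq_iff] at h ⊢
    exact GR_sh_iff.mp h

/-- The mean number of clusters in the box `[0,n)²`. -/
noncomputable def aK (p : ℝ) (n : ℕ) : ℝ := Ex (fun _ => p) (TE n) (fun F => (kV (TV n) ↑F : ℝ))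

theorem EV_TV (n : ℕ) : EV (TV n) ⊆ ↑(TE n) := by
  intro e he
  have h1 : src e ∈ TV n := he.1
  rw [mem_TV] at h1
  rw [Finset.mem_coe, mem_TE]
  exact h1

theorem Ex_kV {p : ℝ} {V : Finset Vtx} {S S' : Finset Edg} (hS : S' ⊆ S) (h : EV V ⊆ ↑S') :
    Ex (fun _ => p) S (fun F => (kV V ↑F : ℝ)) = Ex (fun _ => p) S' (fun F => (kV V ↑F : ℝ)) := by
  apply Ex_local hS
  intro F _
  congr 1
  apply kV_congr
  rw [Finset.coe_inter, Set.inter_assoc, Set.inter_eq_right.mpr h]

theorem Ex_kV_sh {p : ℝ} {V : Finset Vtx} {S : Finset Edg} (a b : ℤ) :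
    Ex (fun _ => p) (S.image (shE a b)) (fun F => (kV (V.image (shV a b)) ↑F : ℝ)) =
      Ex (fun _ => p) S (fun F => (kV V ↑F : ℝ)) := by
  rw [Ex_image p (shE a b) S ((shE_inj a b).injOn)]
  apply Ex_congr
  intro F _
  congr 1
  rw [Finset.coe_image]
  exact kV_sh a b V _

theorem aK_nonneg {p : ℝ} (h0 : 0 ≤ p) (h1 : p ≤ 1) (n : ℕ) : 0 ≤ aK p n :=
  Ex_nonneg (okq h0 h1) (fun _ _ => Nat.cast_nonneg _)

/-- **Subadditivity of the mean number of clusters.** -/
theorem aK_sub {p : ℝ} (h0 : 0 ≤ p) (h1 : p ≤ 1) {m : ℕ} (hm : 1 ≤ m) (n : ℕ) :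
    aK p n ≤ ((n / m : ℕ) : ℝ)^2 * aK p m + 2 * m * n := by
  classical
  have ok := okq h0 h1
  obtain ⟨q, hq⟩ : ∃ q : ℕ, q = n / m := ⟨_, rfl⟩
  rw [← hq]
  have hqm : q * m ≤ n := by rw [hq]; exact Nat.div_mul_le_self n m
  have hnq : n < (q + 1) * m := by
    have e1 := Nat.div_add_mod' n m
    have e2 := Nat.mod_lt n (by omega : m > 0)
    rw [← hq] at e1
    have e3 : (q + 1) * m = q * m + m := by ring
    omega
  obtain ⟨I, hI⟩ : ∃ I : Finset (ℕ × ℕ), I = Finset.range q ×ˢ Finset.range q := ⟨_, rfl⟩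
  obtain ⟨Vi, hVi⟩ : ∃ Vi : ℕ × ℕ → Finset Vtx, Vi = fun i =>
    (TV m).image (shV ((i.1 * m : ℕ) : ℤ) ((i.2 * m : ℕ) : ℤ)) := ⟨_, rfl⟩
  obtain ⟨W, hW⟩ : ∃ W : Finset Vtx, W = TV n \ I.biUnion Vi := ⟨_, rfl⟩
  have hVin : ∀ i ∈ I, Vi i ⊆ TV n := by
    intro i hi v hv
    rw [hI, Finset.mem_product, Finset.mem_range, Finset.mem_range] at hi
    rw [hVi] at hv
    obtain ⟨w, hw, rfl⟩ := Finset.mem_image.mp hv
    rw [mem_TV] at hw ⊢
    unfold shV
    simp only
    have i1 : (i.1 + 1) * m ≤ n := (Nat.mul_le_mul_right m (by omega)).trans hqm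
    have i2 : (i.2 + 1) * m ≤ n := (Nat.mul_le_mul_right m (by omega)).trans hqm
    have i3 : ((i.1 * m : ℕ) : ℤ) + m ≤ n := by
      have : i.1 * m + m ≤ n := by linarith
      exact_mod_cast this
    have i4 : ((i.2 * m : ℕ) : ℤ) + m ≤ n := by
      have : i.2 * m + m ≤ n := by linarith
      exact_mod_cast this
    have i5 : (0:ℤ) ≤ ((i.1 * m : ℕ) : ℤ) := Int.natCast_nonneg _
    have i6 : (0:ℤ) ≤ ((i.2 * m : ℕ) : ℤ) := Int.natCast_nonneg _
    omega
  have hU : TV n = I.biUnion Vi ∪ W := by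
    rw [hW, Finset.union_sdiff_of_subset]
    exact Finset.biUnion_subset.mpr hVin
  -- the remainder is small
  have hWc : (W.card : ℝ) ≤ 2 * m * n := by
    have hsub : W ⊆ (Finset.Ico ((q * m : ℕ) : ℤ) n ×ˢ Finset.Ico (0:ℤ) n) ∪
        (Finset.Ico (0:ℤ) n ×ˢ Finset.Ico ((q * m : ℕ) : ℤ) n) := by
      intro v hv
      rw [hW, Finset.mem_sdiff, mem_TV, Finset.mem_biUnion] at hv
      obtain ⟨⟨⟨v1, v2⟩, ⟨v3, v4⟩⟩, hv5⟩ := hv
      rw [Finset.mem_union, Finset.mem_product, Finset.mem_product, Finset.mem_Ico,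
        Finset.mem_Ico, Finset.mem_Ico, Finset.mem_Ico]
      by_contra hcon
      push Not at hcon
      have g1 : v.1 < ((q * m : ℕ) : ℤ) := by
        by_contra hh
        have := hcon.1 ⟨not_lt.mp hh, v2⟩ v3
        omega
      have g2 : v.2 < ((q * m : ℕ) : ℤ) := by
        by_contra hh
        have := hcon.2 ⟨v1, v2⟩ (not_lt.mp hh)
        omega
      apply hv5
      obtain ⟨x, hx⟩ := Int.eq_ofNat_of_zero_le v1
      obtain ⟨y, hy⟩ := Int.eq_ofNat_of_zero_le v3
      have hxq : x / m < q := by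
        rw [Nat.div_lt_iff_lt_mul (by omega)]
        rw [hx] at g1
        exact_mod_cast g1
      have hyq : y / m < q := by
        rw [Nat.div_lt_iff_lt_mul (by omega)]
        rw [hy] at g2
        exact_mod_cast g2
      refine ⟨(x / m, y / m), ?_, ?_⟩
      · rw [hI, Finset.mem_product, Finset.mem_range, Finset.mem_range]
        exact ⟨hxq, hyq⟩
      · rw [hVi, Finset.mem_image]
        refine ⟨(((x % m : ℕ) : ℤ), ((y % m : ℕ) : ℤ)), ?_, ?_⟩
        · rw [mem_TV]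
          have j1 := Nat.mod_lt x (by omega : m > 0)
          have j2 := Nat.mod_lt y (by omega : m > 0)
          simp only
          omega
        · unfold shV
          simp only
          have j1 := Nat.mod_add_div' x m
          have j2 := Nat.mod_add_div' y m
          ext
          · simp only
            rw [hx]
            exact_mod_cast j1
          · simp only
            rw [hy]
            exact_mod_cast j2
    have hc : W.card ≤ 2 * m * n := by
      refine (Finset.card_le_card hsub).trans ((Finset.card_union_le _ _).trans ?_)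
      rw [Finset.card_product, Finset.card_product, Int.card_Ico, Int.card_Ico]
      have k1 : ((n:ℤ) - ((q * m : ℕ) : ℤ)).toNat ≤ m := by
        have : n < q * m + m := by linarith
        omega
      have k2 : ((n:ℤ) - 0).toNat = n := by omega
      rw [k2]
      calc _ ≤ m * n + n * m := Nat.add_le_add (Nat.mul_le_mul_right _ k1) (Nat.mul_le_mul_left _ k1)
        _ = 2 * m * n := by ring
    exact_mod_cast hc
  have key : ∀ F : Finset Edg, (kV (TV n) ↑F : ℝ) ≤ ∑ i ∈ I, (kV (Vi i) ↑F : ℝ) + 2 * m * n := by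
    intro F
    have k1 : kV (TV n) ↑F ≤ ∑ i ∈ I, kV (Vi i) ↑F + W.card := by
      calc kV (TV n) (↑F : Set Edg) = kV (I.biUnion Vi ∪ W) ↑F := by rw [← hU]
        _ ≤ kV (I.biUnion Vi) ↑F + kV W ↑F := kV_union _ _ _
        _ ≤ _ := Nat.add_le_add (kV_biUnion I Vi _) (kV_le_card _ _)
    have k2 : (kV (TV n) ↑F : ℝ) ≤ ∑ i ∈ I, (kV (Vi i) ↑F : ℝ) + W.card := by exact_mod_cast k1
    linarith
  have hblock : ∀ i ∈ I, Ex (fun _ => p) (TE n) (fun F => (kV (Vi i) ↑F : ℝ)) = aK p m := by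
    intro i hi
    have s1 : EV (Vi i) ⊆ ↑((TE m).image (shE ((i.1 * m : ℕ) : ℤ) ((i.2 * m : ℕ) : ℤ))) := by
      rw [hVi, EV_sh, Finset.coe_image]
      exact Set.image_mono (EV_TV m)
    have s2 : (TE m).image (shE ((i.1 * m : ℕ) : ℤ) ((i.2 * m : ℕ) : ℤ)) ⊆ TE n := by
      intro e he
      obtain ⟨e', he', rfl⟩ := Finset.mem_image.mp he
      have hs : src e' ∈ TV m := src_TV he'
      have h3 : shV ((i.1 * m : ℕ) : ℤ) ((i.2 * m : ℕ) : ℤ) (src e') ∈ TV n := by
        apply hVin i hi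
        rw [hVi]
        exact Finset.mem_image_of_mem _ hs
      rw [← src_sh, mem_TV] at h3
      rw [mem_TE]
      exact h3
    rw [Ex_kV s2 s1, hVi]
    exact Ex_kV_sh _ _
  calc aK p n ≤ Ex (fun _ => p) (TE n) (fun F => ∑ i ∈ I, (kV (Vi i) ↑F : ℝ) + 2 * m * n) :=
        Ex_mono ok (fun F _ => key F)
    _ = ∑ i ∈ I, Ex (fun _ => p) (TE n) (fun F => (kV (Vi i) ↑F : ℝ)) + 2 * m * n := by
        rw [Ex_add, Ex_const, Ex_sum]
    _ = ∑ i ∈ I, aK p m + 2 * m * n := by rw [Finset.sum_congr rfl hblock]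
    _ = _ := by
        rw [Finset.sum_const, hI, Finset.card_product, Finset.card_range, nsmul_eq_mul]
        push_cast
        ring

/-- The limit exists. -/
theorem aK_lim {p : ℝ} (h0 : 0 ≤ p) (h1 : p ≤ 1) :
    ∃ l : ℝ, Filter.Tendsto (fun n : ℕ => aK p n / (n:ℝ)^2) Filter.atTop (nhds l) := by
  obtain ⟨b, hb⟩ : ∃ b : ℕ → ℝ, b = fun n => aK p n / (n:ℝ)^2 := ⟨_, rfl⟩
  rw [← hb]
  have hb0 : ∀ n, 0 ≤ b n := by
    intro n
    rw [hb]
    exact div_nonneg (aK_nonneg h0 h1 n) (by positivity)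
  have hbs : ∀ m n : ℕ, 1 ≤ m → 1 ≤ n → b n ≤ b m + 2 * m / n := by
    intro m n hm hn
    have hm0 : (0:ℝ) < m := by exact_mod_cast hm
    have hn0 : (0:ℝ) < n := by exact_mod_cast hn
    have h2 := aK_sub h0 h1 hm n
    have h3 : ((n / m : ℕ) : ℝ) ≤ n / m := Nat.cast_div_le
    have h4 : ((n / m : ℕ) : ℝ)^2 ≤ (n / m)^2 := pow_le_pow_left₀ (Nat.cast_nonneg _) h3 2
    have h5 := mul_le_mul_of_nonneg_right h4 (aK_nonneg h0 h1 m)
    have h6 : aK p n ≤ ((n:ℝ) / m)^2 * aK p m + 2 * m * n := h2.trans (by linarith)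
    rw [hb]
    simp only
    rw [div_le_iff₀ (by positivity)]
    calc aK p n ≤ ((n:ℝ) / m)^2 * aK p m + 2 * m * n := h6
      _ = (aK p m / (m:ℝ)^2 + 2 * m / n) * (n:ℝ)^2 := by field_simp
  -- the infimum
  have hbdd : BddBelow (Set.range fun m : ℕ => b (m + 1)) := ⟨0, by rintro _ ⟨m, rfl⟩; exact hb0 _⟩
  obtain ⟨l, hl⟩ : ∃ l : ℝ, l = ⨅ m : ℕ, b (m + 1) := ⟨_, rfl⟩
  refine ⟨l, ?_⟩
  rw [Metric.tendsto_atTop]
  intro ε hε
  obtain ⟨m, hm⟩ : ∃ m : ℕ, b (m + 1) < l + ε / 2 := by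
    rw [hl]
    exact exists_lt_of_ciInf_lt (by linarith)
  obtain ⟨N, hN⟩ := exists_nat_gt (2 * ((m:ℝ) + 1) / (ε / 2))
  refine ⟨N + 1, fun n hn => ?_⟩
  have hn0 : (0:ℝ) < n := by exact_mod_cast (by omega : 0 < n)
  have h2 := hbs (m + 1) n (by omega) (by omega)
  have h3 : l ≤ b n := by
    obtain ⟨k, rfl⟩ : ∃ k, n = k + 1 := ⟨n - 1, by omega⟩
    rw [hl]
    exact ciInf_le hbdd k
  have h4 : 2 * ((m:ℝ) + 1) / n < ε / 2 := by
    rw [div_lt_iff₀ hn0]
    rw [div_lt_iff₀ (by linarith)] at hN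
    have : (N:ℝ) < n := by exact_mod_cast (by omega : N < n)
    nlinarith
  push_cast at h2
  rw [Real.dist_eq, abs_of_nonneg (by linarith)]
  linarith

end Pool.Agent.X135.AL
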