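import Pool.Agent.X135.AL.Tor2

/-!
The third derivative of the mean number of clusters on the torus.
-/

set_option autoImplicit false
set_option maxHeartbeats 1000000

namespace Pool.Agent.X135.AL

open H974 H12S Finset

/-- The number of clusters on the torus. -/
noncomputable def kT (N : ℕ) (F : Finset Edg) : ℝ :=
  (NC src (tt N) (TV N) Set.univ (↑F : Set Edg) : ℝ)

theorem kT_insert {N : ℕ} (hN : 1 ≤ N) {e : Edg} (he : e ∈ TE N) (F : Finset Edg) :
    kT N (insert e F) - kT N F = -ind (¬ GR src (tt N) (↑F : Set Edg) (src e) (tt N e)) := by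
  have h := NC_insert (s := src) (t := tt N) (K := TV N) (B := Set.univ) (F := (↑F : Set Edg))
    (e := e) (src_TV he) (tt_TV hN e)
  have hR : ∀ x, RB src (tt N) Set.univ (↑F : Set Edg) x := fun x => ⟨x, trivial, GR.refl _ _⟩
  have h2 : (RB src (tt N) Set.univ (↑F : Set Edg) (src e) ∧
      RB src (tt N) Set.univ (↑F : Set Edg) (tt N e) ∧
      ¬ GR src (tt N) (↑F : Set Edg) (src e) (tt N e)) ↔
      ¬ GR src (tt N) (↑F : Set Edg) (src e) (tt N e) :=
    ⟨fun h => h.2.2, fun h => ⟨hR _, hR _, h⟩⟩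
  rw [ind_congr h2] at h
  unfold kT
  rw [Finset.coe_insert]
  linarith

/-- Difference operator. -/
def Dl (e : Edg) (f : Finset Edg → ℝ) (F : Finset Edg) : ℝ := f (insert e F) - f F

noncomputable def G0 (N : ℕ) (p : ℝ) : ℝ := Ex (fun _ => p) (TE N) (kT N)

noncomputable def G1 (N : ℕ) (p : ℝ) : ℝ :=
  ∑ e ∈ TE N, Ex (fun _ => p) ((TE N).erase e) (Dl e (kT N))

noncomputable def G2 (N : ℕ) (p : ℝ) : ℝ :=
  ∑ e ∈ TE N, ∑ f ∈ (TE N).erase e,
    Ex (fun _ => p) (((TE N).erase e).erase f) (Dl f (Dl e (kT N)))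

noncomputable def G3 (N : ℕ) (p : ℝ) : ℝ :=
  ∑ e ∈ TE N, ∑ f ∈ (TE N).erase e, ∑ g ∈ ((TE N).erase e).erase f,
    Ex (fun _ => p) ((((TE N).erase e).erase f).erase g) (Dl g (Dl f (Dl e (kT N))))

theorem Ex_deriv1 (p : ℝ) (S : Finset Edg) (f : Finset Edg → ℝ) :
    HasDerivAt (fun p => Ex (fun _ => p) S f)
      (∑ e ∈ S, Ex (fun _ => p) (S.erase e) (Dl e f)) p := by
  have := Ex_hasDerivAt (fun (q : ℝ) (_ : Edg) => q) (fun _ => 1) p (fun _ => hasDerivAt_id p) S f
  simp only [one_mul] at this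
  exact this

theorem G0_deriv (N : ℕ) (p : ℝ) : HasDerivAt (G0 N) (G1 N p) p := Ex_deriv1 p _ _

theorem G1_deriv (N : ℕ) (p : ℝ) : HasDerivAt (G1 N) (G2 N p) p := by
  unfold G1 G2
  exact HasDerivAt.fun_sum fun e _ => Ex_deriv1 p _ _

theorem G2_deriv (N : ℕ) (p : ℝ) : HasDerivAt (G2 N) (G3 N p) p := by
  unfold G2 G3
  exact HasDerivAt.fun_sum fun e _ => HasDerivAt.fun_sum fun f _ => Ex_deriv1 p _ _

theorem Dl_comm (e f : Edg) (k : Finset Edg → ℝ) : Dl e (Dl f k) = Dl f (Dl e k) := by
  funext F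
  unfold Dl
  rw [Finset.insert_comm]
  ring

theorem d3_one {N : ℕ} (hN : 1 ≤ N) {e : Edg} (he : e ∈ TE N) (f g : Edg) (F : Finset Edg) :
    |Dl g (Dl f (Dl e (kT N))) F| ≤ ind (Jn N e f g (↑F : Set Edg)) := by
  have h1 : ∀ G : Finset Edg, Dl e (kT N) G =
      -ind (¬ GR src (tt N) (↑G : Set Edg) (src e) (tt N e)) := fun G => kT_insert hN he G
  have h2 : Dl g (Dl f (Dl e (kT N))) F =
      (Dl e (kT N) (insert f (insert g F)) - Dl e (kT N) (insert g F)) -
      (Dl e (kT N) (insert f F) - Dl e (kT N) F) := rfl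
  rw [h2, h1, h1, h1, h1]
  have mono : ∀ G G' : Finset Edg, G ⊆ G' → GR src (tt N) (↑G : Set Edg) (src e) (tt N e) →
      GR src (tt N) (↑G' : Set Edg) (src e) (tt N e) := fun G G' h => GR.mono (by exact_mod_cast h)
  have s1 : F ⊆ insert g F := Finset.subset_insert _ _
  have s2 : F ⊆ insert f F := Finset.subset_insert _ _
  have s3 : insert g F ⊆ insert f (insert g F) := Finset.subset_insert _ _
  have s4 : insert f F ⊆ insert f (insert g F) := Finset.insert_subset_insert _ s1
  have hc : (↑(insert f (insert g F)) : Set Edg) = insert f (insert g (↑F : Set Edg)) := by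
    rw [Finset.coe_insert, Finset.coe_insert]
  by_cases a : GR src (tt N) (↑F : Set Edg) (src e) (tt N e)
  · have a1 := mono _ _ s1 a
    have a2 := mono _ _ s2 a
    have a3 := mono _ _ s3 a1
    rw [ind_not_of (not_not.mpr a), ind_not_of (not_not.mpr a1), ind_not_of (not_not.mpr a2),
      ind_not_of (not_not.mpr a3)]
    simp only [neg_zero, sub_self, abs_zero]
    exact ind_nonneg _
  · by_cases b : GR src (tt N) (↑(insert f (insert g F)) : Set Edg) (src e) (tt N e)
    · have hJ : Jn N e f g (↑F : Set Edg) := ⟨a, by rw [← hc]; exact b⟩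
      rw [ind_of hJ, ind_of a, ind_not_of (not_not.mpr b)]
      have p1 := ind_nonneg (¬ GR src (tt N) (↑(insert g F) : Set Edg) (src e) (tt N e))
      have p2 := ind_le_one (¬ GR src (tt N) (↑(insert g F) : Set Edg) (src e) (tt N e))
      have p3 := ind_nonneg (¬ GR src (tt N) (↑(insert f F) : Set Edg) (src e) (tt N e))
      have p4 := ind_le_one (¬ GR src (tt N) (↑(insert f F) : Set Edg) (src e) (tt N e))
      rw [abs_le]
      constructor <;> linarith
    · have b1 : ¬ GR src (tt N) (↑(insert g F) : Set Edg) (src e) (tt N e) :=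
        fun h => b (mono _ _ s3 h)
      have b2 : ¬ GR src (tt N) (↑(insert f F) : Set Edg) (src e) (tt N e) :=
        fun h => b (mono _ _ s4 h)
      rw [ind_of a, ind_of b, ind_of b1, ind_of b2]
      simp only [sub_self, abs_zero]
      exact ind_nonneg _

theorem d3_bound {N : ℕ} (hN : 1 ≤ N) {e f g : Edg} (he : e ∈ TE N) (hf : f ∈ TE N)
    (hg : g ∈ TE N) (F : Finset Edg) :
    |Dl g (Dl f (Dl e (kT N))) F| ≤ ind (JJ N e f g (↑F : Set Edg)) := by
  have h1 := d3_one hN he f g F
  have h2 := d3_one hN hf e g F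
  have h3 := d3_one hN hg e f F
  have c2 : Dl g (Dl e (Dl f (kT N))) = Dl g (Dl f (Dl e (kT N))) := by
    rw [Dl_comm e f]
  have c3 : Dl f (Dl e (Dl g (kT N))) = Dl g (Dl f (Dl e (kT N))) := by
    rw [Dl_comm e g, Dl_comm f g]
  rw [c2] at h2
  rw [c3] at h3
  by_cases a : JJ N e f g (↑F : Set Edg)
  · rw [ind_of a]
    exact h1.trans (ind_le_one _)
  · rw [ind_not_of a]
    unfold JJ at a
    rw [not_and_or, not_and_or] at a
    rcases a with a | a | a
    · rwa [ind_not_of a] at h1
    · rwa [ind_not_of a] at h2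
    · rwa [ind_not_of a] at h3

/-- The bound of `joint_pr`. -/
noncomputable def Gb (p : ℝ) (d r : ℕ) : ℝ :=
  al p (d / 8) * (al p (d / 8) * (be p (2 * d + 2) (r / 4) * al p (r / 8)))

noncomputable def Hb (p : ℝ) (d r : ℕ) : ℝ := if d ≤ r then Gb p d r else 0

theorem Gb_nonneg {p : ℝ} (h0 : 0 ≤ p) (h1 : p ≤ 1) (d r : ℕ) : 0 ≤ Gb p d r :=
  mul_nonneg (al_nonneg h0 h1 _) (mul_nonneg (al_nonneg h0 h1 _)
    (mul_nonneg (be_nonneg h0 h1 _ _) (al_nonneg h0 h1 _)))

theorem Hb_nonneg {p : ℝ} (h0 : 0 ≤ p) (h1 : p ≤ 1) (d r : ℕ) : 0 ≤ Hb p d r := by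
  unfold Hb
  split_ifs
  · exact Gb_nonneg h0 h1 d r
  · exact le_rfl

theorem Jn_comm {N : ℕ} {x y z : Edg} {F : Set Edg} (h : Jn N x y z F) : Jn N x z y F :=
  ⟨h.1, by rw [Set.insert_comm]; exact h.2⟩

theorem trip {p : ℝ} (h0 : 0 ≤ p) (h1 : p ≤ 1) {N : ℕ} (hN : 1 ≤ N) {e f g : Edg}
    (he : e ∈ TE N) (hf : f ∈ TE N) (hg : g ∈ TE N) :
    PQ p ((((TE N).erase e).erase f).erase g) (fun F => JJ N e f g ↑F) ≤
      Hb p (dT N (src f) (src g)) (dT N (src f) (src e)) +
      Hb p (dT N (src e) (src g)) (dT N (src e) (src f)) +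
      Hb p (dT N (src e) (src f)) (dT N (src e) (src g)) := by
  have ok := okq h0 h1
  have n1 := Hb_nonneg h0 h1 (dT N (src f) (src g)) (dT N (src f) (src e))
  have n2 := Hb_nonneg h0 h1 (dT N (src e) (src g)) (dT N (src e) (src f))
  have n3 := Hb_nonneg h0 h1 (dT N (src e) (src f)) (dT N (src e) (src g))
  have c1 := dT_comm N (src e) (src f)
  have c2 := dT_comm N (src e) (src g)
  have c3 := dT_comm N (src f) (src g)
  rcases le_total (dT N (src e) (src f)) (dT N (src e) (src g)) with k1 | k1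
  · rcases le_total (dT N (src e) (src f)) (dT N (src f) (src g)) with k2 | k2
    · -- `e`, `f` closest
      have h2 := joint_pr h0 h1 hN (a := g) (b := e) (c := f) hg he hf rfl rfl k1 k2
      have hset : (((TE N).erase g).erase e).erase f = (((TE N).erase e).erase f).erase g := by
        rw [Finset.erase_right_comm (a := g) (b := e), Finset.erase_right_comm (a := g) (b := f)]
      rw [hset] at h2
      have h3 : PQ p ((((TE N).erase e).erase f).erase g) (fun F => JJ N e f g ↑F) ≤
          PQ p ((((TE N).erase e).erase f).erase g) (fun F => JJ N g e f ↑F) := by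
        apply Pr_mono ok
        rintro F _ ⟨j1, j2, j3⟩
        exact ⟨j3, Jn_comm j1, Jn_comm j2⟩
      have h4 : Hb p (dT N (src e) (src f)) (dT N (src e) (src g)) =
          Gb p (dT N (src e) (src f)) (dT N (src e) (src g)) := by
        unfold Hb; rw [if_pos k1]
      unfold Gb at h4
      linarith
    · -- `f`, `g` closest
      have k3 : dT N (src f) (src g) ≤ dT N (src f) (src e) := by rw [← c1]; exact k2
      have k4 : dT N (src f) (src g) ≤ dT N (src g) (src e) := by rw [← c2]; exact k2.trans k1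
      have h2 := joint_pr h0 h1 hN (a := e) (b := f) (c := g) he hf hg rfl rfl k3 k4
      have h4 : Hb p (dT N (src f) (src g)) (dT N (src f) (src e)) =
          Gb p (dT N (src f) (src g)) (dT N (src f) (src e)) := by
        unfold Hb; rw [if_pos k3]
      unfold Gb at h4
      linarith
  · rcases le_total (dT N (src e) (src g)) (dT N (src f) (src g)) with k2 | k2
    · -- `e`, `g` closest
      have k3 : dT N (src e) (src g) ≤ dT N (src g) (src f) := by rw [← c3]; exact k2
      have h2 := joint_pr h0 h1 hN (a := f) (b := e) (c := g) hf he hg rfl rfl k1 k3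
      have hset : (((TE N).erase f).erase e).erase g = (((TE N).erase e).erase f).erase g := by
        rw [Finset.erase_right_comm (a := f) (b := e)]
      rw [hset] at h2
      have h3 : PQ p ((((TE N).erase e).erase f).erase g) (fun F => JJ N e f g ↑F) ≤
          PQ p ((((TE N).erase e).erase f).erase g) (fun F => JJ N f e g ↑F) := by
        apply Pr_mono ok
        rintro F _ ⟨j1, j2, j3⟩
        exact ⟨j2, j1, Jn_comm j3⟩
      have h4 : Hb p (dT N (src e) (src g)) (dT N (src e) (src f)) =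
          Gb p (dT N (src e) (src g)) (dT N (src e) (src f)) := by
        unfold Hb; rw [if_pos k1]
      unfold Gb at h4
      linarith
    · have k3 : dT N (src f) (src g) ≤ dT N (src f) (src e) := by
        rw [← c1]; exact k2.trans k1
      have k4 : dT N (src f) (src g) ≤ dT N (src g) (src e) := by rw [← c2]; exact k2
      have h2 := joint_pr h0 h1 hN (a := e) (b := f) (c := g) he hf hg rfl rfl k3 k4
      have h4 : Hb p (dT N (src f) (src g)) (dT N (src f) (src e)) =
          Gb p (dT N (src f) (src g)) (dT N (src f) (src e)) := by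
        unfold Hb; rw [if_pos k3]
      unfold Gb at h4
      linarith

/-! ### counting -/

noncomputable def Sph (u : Vtx) (d : ℕ) : Finset Vtx :=
  (((Finset.Icc (u.2 - d) (u.2 + d)).image (fun y => (u.1 + (d:ℤ), y))) ∪
    ((Finset.Icc (u.2 - d) (u.2 + d)).image (fun y => (u.1 - (d:ℤ), y)))) ∪
  (((Finset.Icc (u.1 - d) (u.1 + d)).image (fun x => (x, u.2 + (d:ℤ)))) ∪
    ((Finset.Icc (u.1 - d) (u.1 + d)).image (fun x => (x, u.2 - (d:ℤ)))))

theorem Sph_card (u : Vtx) (d : ℕ) : (Sph u d).card ≤ 8 * (d + 1) := by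
  have h1 : (Finset.Icc (u.2 - d) (u.2 + d)).card = 2 * d + 1 := by
    rw [Int.card_Icc]; omega
  have h2 : (Finset.Icc (u.1 - d) (u.1 + d)).card = 2 * d + 1 := by
    rw [Int.card_Icc]; omega
  unfold Sph
  refine (Finset.card_union_le _ _).trans ?_
  have a1 := Finset.card_union_le ((Finset.Icc (u.2 - d) (u.2 + d)).image
    (fun y => (u.1 + (d:ℤ), y))) ((Finset.Icc (u.2 - d) (u.2 + d)).image
    (fun y => (u.1 - (d:ℤ), y)))
  have a2 := Finset.card_union_le ((Finset.Icc (u.1 - d) (u.1 + d)).image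
    (fun x => (x, u.2 + (d:ℤ)))) ((Finset.Icc (u.1 - d) (u.1 + d)).image
    (fun x => (x, u.2 - (d:ℤ))))
  have b1 := Finset.card_image_le (s := Finset.Icc (u.2 - d) (u.2 + d))
    (f := fun y => (u.1 + (d:ℤ), y))
  have b2 := Finset.card_image_le (s := Finset.Icc (u.2 - d) (u.2 + d))
    (f := fun y => (u.1 - (d:ℤ), y))
  have b3 := Finset.card_image_le (s := Finset.Icc (u.1 - d) (u.1 + d))
    (f := fun x => (x, u.2 + (d:ℤ)))
  have b4 := Finset.card_image_le (s := Finset.Icc (u.1 - d) (u.1 + d))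
    (f := fun x => (x, u.2 - (d:ℤ)))
  omega

theorem mem_Sph {u v : Vtx} {d : ℕ} (h : nd u v = d) : v ∈ Sph u d := by
  unfold nd at h
  unfold Sph
  simp only [Finset.mem_union, Finset.mem_image, Finset.mem_Icc]
  obtain ⟨x, y⟩ := v
  simp only at h
  rcases le_total (y - u.2).natAbs (x - u.1).natAbs with hc | hc
  · left
    rcases le_total x u.1 with hx | hx
    · right
      exact ⟨y, by omega, by ext <;> simp only; omega⟩
    · left
      exact ⟨y, by omega, by ext <;> simp only; omega⟩
  · right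
    rcases le_total y u.2 with hy | hy
    · right
      exact ⟨x, by omega, by ext <;> simp only; omega⟩
    · left
      exact ⟨x, by omega, by ext <;> simp only; omega⟩

theorem sph_T {N : ℕ} (u : Vtx) (d : ℕ) :
    ((TE N).filter (fun c => dT N u (src c) = d)).card ≤ 16 * (d + 1) := by
  classical
  have h1 : ((TE N).filter (fun c => dT N u (src c) = d)).card ≤
      ((Sph u d) ×ˢ (Finset.univ : Finset Bool)).card := by
    apply Finset.card_le_card_of_injOn (fun c => (near N u (src c), c.2.2))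
    · intro c hc
      rw [Finset.coe_filter, Set.mem_setOf_eq] at hc
      rw [Finset.mem_coe, Finset.mem_product]
      exact ⟨mem_Sph (by rw [nd_near]; exact hc.2), Finset.mem_univ _⟩
    · intro c hc c' hc' hcc
      rw [Finset.coe_filter, Set.mem_setOf_eq] at hc hc'
      simp only [Prod.mk.injEq] at hcc
      have e1 := rv_near N u (src c)
      have e2 := rv_near N u (src c')
      rw [hcc.1, e2] at e1
      have : re N c = re N c' := by
        rw [re_iff]
        exact ⟨e1.symm, hcc.2⟩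
      rwa [re_self hc.1, re_self hc'.1] at this
  refine h1.trans ?_
  rw [Finset.card_product]
  have := Sph_card u d
  have h2 : (Finset.univ : Finset Bool).card = 2 := rfl
  rw [h2]
  omega

theorem sum_T {N : ℕ} (hN : 1 ≤ N) (u : Vtx) (h : ℕ → ℝ) (hh : ∀ d, 0 ≤ h d) :
    ∑ c ∈ TE N, h (dT N u (src c)) ≤ ∑ d ∈ Finset.range (N + 1), 16 * ((d:ℝ) + 1) * h d := by
  classical
  have h1 : ∑ c ∈ TE N, h (dT N u (src c)) =
      ∑ d ∈ Finset.range (N + 1), ∑ c ∈ (TE N).filter (fun c => dT N u (src c) = d),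
        h (dT N u (src c)) := by
    symm
    apply Finset.sum_fiberwise_of_maps_to
    intro c _
    have := dT_half hN u (src c)
    rw [Finset.mem_range]
    omega
  rw [h1]
  apply Finset.sum_le_sum
  intro d _
  have h2 : ∑ c ∈ (TE N).filter (fun c => dT N u (src c) = d), h (dT N u (src c)) =
      ((TE N).filter (fun c => dT N u (src c) = d)).card * h d := by
    rw [← nsmul_eq_mul, ← Finset.sum_const]
    apply Finset.sum_congr rfl
    intro c hc
    rw [(Finset.mem_filter.mp hc).2]
  rw [h2]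
  apply mul_le_mul_of_nonneg_right _ (hh d)
  have := sph_T (N := N) u d
  calc (((TE N).filter (fun c => dT N u (src c) = d)).card : ℝ) ≤ ((16 * (d + 1) : ℕ) : ℝ) := by
        exact_mod_cast this
    _ = _ := by push_cast; ring

theorem TE_card (N : ℕ) : (TE N).card = 2 * N ^ 2 := by
  unfold TE
  rw [Finset.card_product, Finset.card_product, Int.card_Ico]
  have h2 : (Finset.univ : Finset Bool).card = 2 := rfl
  rw [h2]
  simp
  ring

/-- The double sum over the scales. -/
noncomputable def Sc (p : ℝ) (N : ℕ) : ℝ :=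
  ∑ d ∈ Finset.range (N + 1), 16 * ((d:ℝ) + 1) *
    ∑ r ∈ Finset.range (N + 1), 16 * ((r:ℝ) + 1) * Hb p d r

/-- **The third derivative, as a sum over the scales.** -/
theorem G3_bound {p : ℝ} (h0 : 0 ≤ p) (h1 : p ≤ 1) {N : ℕ} (hN : 1 ≤ N) :
    |G3 N p| ≤ 6 * (N:ℝ) ^ 2 * Sc p N := by
  classical
  have ok := okq h0 h1
  have hb : ∀ b : Edg, ∑ c ∈ TE N, ∑ a ∈ TE N, Hb p (dT N (src b) (src c)) (dT N (src b) (src a))
      ≤ Sc p N := by
    intro b
    have s1 : ∀ c ∈ TE N, ∑ a ∈ TE N, Hb p (dT N (src b) (src c)) (dT N (src b) (src a)) ≤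
        ∑ r ∈ Finset.range (N + 1), 16 * ((r:ℝ) + 1) * Hb p (dT N (src b) (src c)) r := by
      intro c _
      exact sum_T hN (src b) (fun r => Hb p (dT N (src b) (src c)) r)
        (fun r => Hb_nonneg h0 h1 _ _)
    refine (Finset.sum_le_sum s1).trans ?_
    exact sum_T hN (src b) (fun d => ∑ r ∈ Finset.range (N + 1), 16 * ((r:ℝ) + 1) * Hb p d r)
      (fun d => Finset.sum_nonneg fun r _ => mul_nonneg (by positivity) (Hb_nonneg h0 h1 _ _))
  have t1 : |G3 N p| ≤ ∑ e ∈ TE N, ∑ f ∈ TE N, ∑ g ∈ TE N,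
      (Hb p (dT N (src f) (src g)) (dT N (src f) (src e)) +
      Hb p (dT N (src e) (src g)) (dT N (src e) (src f)) +
      Hb p (dT N (src e) (src f)) (dT N (src e) (src g))) := by
    have nn : ∀ e f g : Edg, 0 ≤ Hb p (dT N (src f) (src g)) (dT N (src f) (src e)) +
      Hb p (dT N (src e) (src g)) (dT N (src e) (src f)) +
      Hb p (dT N (src e) (src f)) (dT N (src e) (src g)) := fun e f g =>
      add_nonneg (add_nonneg (Hb_nonneg h0 h1 _ _) (Hb_nonneg h0 h1 _ _)) (Hb_nonneg h0 h1 _ _)
    unfold G3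
    refine (Finset.abs_sum_le_sum_abs _ _).trans (Finset.sum_le_sum fun e he => ?_)
    refine (Finset.abs_sum_le_sum_abs _ _).trans ?_
    refine le_trans (Finset.sum_le_sum (g := fun f => ∑ g ∈ TE N,
      (Hb p (dT N (src f) (src g)) (dT N (src f) (src e)) +
      Hb p (dT N (src e) (src g)) (dT N (src e) (src f)) +
      Hb p (dT N (src e) (src f)) (dT N (src e) (src g)))) fun f hf => ?_) ?_
    · refine (Finset.abs_sum_le_sum_abs _ _).trans ?_
      refine le_trans (Finset.sum_le_sum (g := fun g =>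
        (Hb p (dT N (src f) (src g)) (dT N (src f) (src e)) +
        Hb p (dT N (src e) (src g)) (dT N (src e) (src f)) +
        Hb p (dT N (src e) (src f)) (dT N (src e) (src g)))) fun g hg => ?_) ?_
      · have hf' := Finset.mem_of_mem_erase hf
        have hg' := Finset.mem_of_mem_erase (Finset.mem_of_mem_erase hg)
        refine le_trans ?_ (trip h0 h1 hN he hf' hg')
        have q1 : Ex (fun _ => p) ((((TE N).erase e).erase f).erase g)
            (Dl g (Dl f (Dl e (kT N)))) ≤
            PQ p ((((TE N).erase e).erase f).erase g) (fun F => JJ N e f g ↑F) :=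
          Ex_mono ok fun F _ => (abs_le.mp (d3_bound hN he hf' hg' F)).2
        have q2 : -PQ p ((((TE N).erase e).erase f).erase g) (fun F => JJ N e f g ↑F) ≤
            Ex (fun _ => p) ((((TE N).erase e).erase f).erase g)
            (Dl g (Dl f (Dl e (kT N)))) := by
          have e1 := Ex_mul_left (fun _ => p) ((((TE N).erase e).erase f).erase g) (-1)
            (fun F => ind (JJ N e f g (↑F : Set Edg)))
          have e2 : -PQ p ((((TE N).erase e).erase f).erase g) (fun F => JJ N e f g ↑F) =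
            Ex (fun _ => p) ((((TE N).erase e).erase f).erase g)
              (fun F => -1 * ind (JJ N e f g (↑F : Set Edg))) := by
            rw [e1]; unfold PQ Pr; ring
          rw [e2]
          apply Ex_mono ok
          intro F _
          have := (abs_le.mp (d3_bound hN he hf' hg' F)).1
          linarith
        exact abs_le.mpr ⟨q2, q1⟩
      · apply Finset.sum_le_sum_of_subset_of_nonneg
        · exact (Finset.erase_subset _ _).trans (Finset.erase_subset _ _)
        · intro g _ _; exact nn e f g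
    · apply Finset.sum_le_sum_of_subset_of_nonneg (Finset.erase_subset _ _)
      intro f _ _
      exact Finset.sum_nonneg fun g _ => nn e f g
  have hcard : ((TE N).card : ℝ) = 2 * (N:ℝ) ^ 2 := by rw [TE_card]; push_cast; ring
  have split : ∑ e ∈ TE N, ∑ f ∈ TE N, ∑ g ∈ TE N,
      (Hb p (dT N (src f) (src g)) (dT N (src f) (src e)) +
      Hb p (dT N (src e) (src g)) (dT N (src e) (src f)) +
      Hb p (dT N (src e) (src f)) (dT N (src e) (src g))) =
      (∑ f ∈ TE N, ∑ g ∈ TE N, ∑ e ∈ TE N, Hb p (dT N (src f) (src g)) (dT N (src f) (src e))) +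
      (∑ e ∈ TE N, ∑ g ∈ TE N, ∑ f ∈ TE N, Hb p (dT N (src e) (src g)) (dT N (src e) (src f))) +
      (∑ e ∈ TE N, ∑ f ∈ TE N, ∑ g ∈ TE N,
        Hb p (dT N (src e) (src f)) (dT N (src e) (src g))) := by
    simp only [Finset.sum_add_distrib]
    congr 1
    congr 1
    · rw [Finset.sum_comm]
      apply Finset.sum_congr rfl
      intro f _
      exact Finset.sum_comm
    · apply Finset.sum_congr rfl
      intro e _
      exact Finset.sum_comm
  rw [split] at t1
  have u : ∀ T : Edg → ℝ, (∀ b ∈ TE N, T b ≤ Sc p N) →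
      ∑ b ∈ TE N, T b ≤ 2 * (N:ℝ) ^ 2 * Sc p N := by
    intro T hT
    have := Finset.sum_le_card_nsmul (TE N) T (Sc p N) hT
    rw [nsmul_eq_mul, hcard] at this
    exact this
  have u1 := u _ (fun b _ => hb b)
  linarith

end Pool.Agent.X135.AL
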