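import Pool.Agent.X135.AL.Ann2
import Pool.Agent.H12R2.Sep.LocP

/-!
Geometry of the annulus event.
-/

set_option autoImplicit false
set_option maxHeartbeats 1000000

namespace Pool.Agent.X135.AL

open H974 H12S Finset

/-- Vertices of the box of radius `ρ` around `c`. -/
def inB (c : ℤ × ℤ) (ρ : ℕ) (v : Vtx) : Prop := inR (c.1 - ρ) (c.1 + ρ) (c.2 - ρ) (c.2 + ρ) v

/-- The last visit of a box. -/
theorem last_in {G : Set Edg} {c : ℤ × ℤ} {ρ : ℕ} {x w : Vtx} (hx : inB c ρ x)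
    (h : Reach G x w) : ∃ u, inB c ρ u ∧ Reach G x u ∧ Reach (G \ ↑(blk c ρ)) u w := by
  induction h with
  | refl => exact ⟨x, hx, Reach.refl _ _, Reach.refl _ _⟩
  | @tail w w' hw hs ih =>
    obtain ⟨u, hu, h1, h2⟩ := ih
    obtain ⟨e, he, hc⟩ := hs
    by_cases hb : e ∈ blk c ρ
    · refine ⟨w', ?_, Reach.trans hw (Adj.reach ⟨e, he, hc⟩), Reach.refl _ _⟩
      have hb' := BS_adj_box hb
      rcases hc with ⟨_, h4⟩ | ⟨h3, _⟩
      · rw [← h4]; exact hb'.2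
      · rw [← h3]; exact hb'.1
    · exact ⟨u, hu, h1, h2.trans (Adj.reach ⟨e, ⟨he, fun h => hb (Finset.mem_coe.mp h)⟩, hc⟩)⟩

theorem to_AN {G : Set Edg} {c : ℤ × ℤ} {ρ R : ℕ} (hR : ρ ≤ R) {x y w w' : Vtx}
    (hx : inB c ρ x) (hy : inB c ρ y) (hw : BSfar c R w) (hw' : BSfar c R w')
    (h1 : Reach G x w) (h2 : Reach G y w') (h3 : ¬ Reach G x y) : AN c ρ R G := by
  have key : ∀ x w : Vtx, inB c ρ x → BSfar c R w → Reach G x w →
      ∃ u, inB c ρ u ∧ Reach G x u ∧ ∃ w', BSfar c R w' ∧ Reach (G ∩ ↑(anE c ρ R)) u w' := by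
    intro x w hx hw h
    obtain ⟨u, hu, g1, g2⟩ := last_in hx h
    obtain ⟨w', k1, k2, k3⟩ := first_exit (a := c.1 - R) (b := c.1 + R) (c := c.2 - R)
      (d := c.2 + R) (u := u) (by unfold inB inR at hu; unfold inR; omega) g2
      (by unfold BSfar at hw; omega)
    refine ⟨u, hu, g1, w', by unfold BSfar; omega, k3.mono ?_⟩
    rintro e ⟨⟨he1, he2⟩, he3⟩
    refine ⟨he1, ?_⟩
    unfold anE
    rw [Finset.mem_coe, Finset.mem_sdiff]
    exact ⟨he3, he2⟩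
  obtain ⟨u, hu, g1, g2⟩ := key x w hx hw h1
  obtain ⟨v, hv, g3, g4⟩ := key y w' hy hw' h2
  refine ⟨u, v, hu, hv, g2, g4, fun h => h3 ?_⟩
  exact g1.trans ((h.mono Set.inter_subset_left).trans g3.symm)

/-- The four-arm event implies the annulus events. -/
theorem A4e_AN {e : Edg} {k ρ R : ℕ} (hρ : 1 ≤ ρ) (hR : ρ ≤ R) (hk : R ≤ k) {F : Set Edg}
    (h : A4e k e F) : AN (e.1, e.2.1) ρ R F := by
  obtain ⟨⟨w, hw, h1⟩, ⟨w', hw', h2⟩, h3⟩ := h
  obtain ⟨x, y, β⟩ := e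
  simp only at hw h1 hw' h2 h3 ⊢
  have hsub : AN (x, y) ρ R ((F ∩ ↑(RE (x - k) (x + k) (y - k) (y + k))) \ {(x, y, β)}) := by
    apply to_AN hR (x := src (x, y, β)) (y := tgt (x, y, β)) (w := w) (w' := w') _ _ _ _ h1 h2 h3
    · unfold inB inR
      rw [src_mk]
      simp only
      omega
    · unfold inB inR
      cases β
      · rw [tgt_false]; simp only; omega
      · rw [tgt_true]; simp only; omega
    · obtain ⟨-, hw2⟩ := hw
      unfold BSfar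
      simp only at hw2 ⊢
      omega
    · obtain ⟨-, hw2⟩ := hw'
      unfold BSfar
      simp only at hw2 ⊢
      omega
  have he : ((F ∩ ↑(RE (x - k) (x + k) (y - k) (y + k))) \ {(x, y, β)}) ∩
      (↑(anE (x, y) ρ R) : Set Edg) = F ∩ ↑(anE (x, y) ρ R) := by
    ext g
    constructor
    · rintro ⟨⟨⟨g1, -⟩, -⟩, g2⟩; exact ⟨g1, g2⟩
    · rintro ⟨g1, g2⟩
      have g2' := Finset.mem_sdiff.mp (show g ∈ blk (x, y) R \ blk (x, y) ρ from g2)
      refine ⟨⟨⟨g1, ?_⟩, ?_⟩, g2⟩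
      · exact blk_mono (x, y) hk g2'.1
      · rintro rfl
        apply g2'.2
        have := mem_ebx (e := (x, y, β)) hρ
        exact this
  unfold AN at hsub ⊢
  rw [he] at hsub
  exact hsub

/-- Four arms, from two connections. -/
theorem to_A4e {e : Edg} {k : ℕ} (hk : 1 ≤ k) {F : Set Edg} {w w' : Vtx}
    (hw : BSfar (e.1, e.2.1) k w) (hw' : BSfar (e.1, e.2.1) k w')
    (h1 : Reach (F \ {e}) (src e) w) (h2 : Reach (F \ {e}) (tgt e) w')
    (h3 : ¬ Reach (F \ {e}) (src e) (tgt e)) : A4e k e F := by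
  obtain ⟨i1, i2⟩ : inR (e.1 - k) (e.1 + k) (e.2.1 - k) (e.2.1 + k) (src e) ∧
      inR (e.1 - k) (e.1 + k) (e.2.1 - k) (e.2.1 + k) (tgt e) :=
    BS_adj_box (c := (e.1, e.2.1)) (m := k) (mem_ebx hk)
  have hset : (F \ {e}) ∩ ↑(RE (e.1 - k) (e.1 + k) (e.2.1 - k) (e.2.1 + k)) =
      (F ∩ ↑(RE (e.1 - k) (e.1 + k) (e.2.1 - k) (e.2.1 + k))) \ {e} := by
    ext g
    simp only [Set.mem_inter_iff, Set.mem_sdiff, Set.mem_singleton_iff]
    tauto
  unfold BSfar at hw hw'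
  simp only at hw hw'
  obtain ⟨v, k1, k2, k3⟩ := first_exit i1 h1 hw
  obtain ⟨v', l1, l2, l3⟩ := first_exit i2 h2 hw'
  rw [hset] at k3 l3
  refine ⟨⟨v, ⟨k1, k2⟩, k3⟩, ⟨v', ⟨l1, l2⟩, l3⟩, fun h => h3 (h.mono ?_)⟩
  rw [← hset]
  exact Set.inter_subset_left

/-- A crossing of the annulus prevents blocking. -/
theorem not_blk_of_crs {F : Finset Edg} {R1 R2 : ℤ} (h2 : R1 < R2) {u v : Vtx}
    (hu : inR (-R1) R1 (-R1) R1 u)
    (h : Reach (↑F : Set Edg) u v) (hv : v.1 ≤ -R2 ∨ R2 ≤ v.1 ∨ v.2 ≤ -R2 ∨ R2 ≤ v.2) :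
    ¬ Blk R1 R2 F := by
  obtain ⟨⟨u1, u2⟩, ⟨u3, u4⟩⟩ := hu
  obtain ⟨w, k1, k2, k3⟩ := first_exit (a := -R2) (b := R2) (c := -R2) (d := R2) (u := u)
    (by unfold inR; omega) h hv
  rintro ⟨hb1, hb2⟩
  rcases k2 with k2 | k2 | k2 | k2
  · apply hb1
    right
    obtain ⟨y1, y2, m1, m2, m3, -⟩ := sub_LR (a := -R2) (b := -R1) (c := -R2) (d := R2) (by omega)
      (by rintro x y ⟨-, h⟩ _ _; simp only [mem_coe, mem_RE_true] at h; omega)
      (by rintro x y ⟨-, h⟩ _ _; simp only [mem_coe, mem_RE_false] at h; omega)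
      k3.symm k2.le (show -R1 ≤ u.1 by omega)
    exact ⟨y1, y2, m1, m2, m3.mono (by rintro e ⟨⟨h4, -⟩, h5⟩; exact ⟨h4, h5⟩)⟩
  · apply hb1
    left
    obtain ⟨y1, y2, m1, m2, m3, -⟩ := sub_LR (a := R1) (b := R2) (c := -R2) (d := R2) (by omega)
      (by rintro x y ⟨-, h⟩ _ _; simp only [mem_coe, mem_RE_true] at h; omega)
      (by rintro x y ⟨-, h⟩ _ _; simp only [mem_coe, mem_RE_false] at h; omega)
      k3 (show u.1 ≤ R1 by omega) k2.ge
    exact ⟨y1, y2, m1, m2, m3.mono (by rintro e ⟨⟨h4, -⟩, h5⟩; exact ⟨h4, h5⟩)⟩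
  · apply hb2
    right
    obtain ⟨y1, y2, m1, m2, m3, -⟩ := sub_TB (a := -R2) (b := R2) (c := -R2) (d := -R1) (by omega)
      (by rintro x y ⟨-, h⟩ _ _; simp only [mem_coe, mem_RE_false] at h; omega)
      (by rintro x y ⟨-, h⟩ _ _; simp only [mem_coe, mem_RE_true] at h; omega)
      k3.symm k2.le (show -R1 ≤ u.2 by omega)
    exact ⟨y1, y2, m1, m2, m3.mono (by rintro e ⟨⟨h4, -⟩, h5⟩; exact ⟨h4, h5⟩)⟩
  · apply hb2
    left
    obtain ⟨y1, y2, m1, m2, m3, -⟩ := sub_TB (a := -R2) (b := R2) (c := R1) (d := R2) (by omega)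
      (by rintro x y ⟨-, h⟩ _ _; simp only [mem_coe, mem_RE_false] at h; omega)
      (by rintro x y ⟨-, h⟩ _ _; simp only [mem_coe, mem_RE_true] at h; omega)
      k3 (show u.2 ≤ R1 by omega) k2.ge
    exact ⟨y1, y2, m1, m2, m3.mono (by rintro e ⟨⟨h4, -⟩, h5⟩; exact ⟨h4, h5⟩)⟩

theorem AN_not_blk {ρ R : ℕ} (hR : ρ < R) {F : Finset Edg} (h : AN (0, 0) ρ R (↑F : Set Edg)) :
    ¬ Blk (ρ : ℤ) (R : ℤ) F := by
  obtain ⟨u, _, hu, _, ⟨w, hw, h1⟩, _, _⟩ := h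
  simp only [zero_sub, zero_add] at hu
  unfold BSfar at hw
  simp only [zero_sub, zero_add] at hw
  exact not_blk_of_crs (by exact_mod_cast hR) hu
    (h1.mono Set.inter_subset_left) hw

theorem AN_not_circ {ρ R : ℕ} (hR : ρ + 1 < R) {F : Finset Edg}
    (h : AN (0, 0) ρ R (↑F : Set Edg)) : ¬ Circ ((ρ : ℤ) + 1) (R : ℤ) F := by
  intro hc
  obtain ⟨u, v, hu, hv, ⟨w, hw, h1⟩, ⟨w', hw', h2⟩, h3⟩ := h
  simp only [zero_sub, zero_add] at hu hv
  unfold BSfar at hw hw'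
  simp only [zero_sub, zero_add] at hw hw'
  -- the circuit is in the annulus
  have hcl : Circ ((ρ : ℤ) + 1) (R : ℤ) (F ∩ anE (0, 0) ρ R) := by
    have s1 : LRE (-(R:ℤ)) R (ρ + 1) R ⊆ anE (0, 0) ρ R := by
      rintro ⟨x, y, _ | _⟩ h8
      · unfold anE blk
        simp only [mem_LRE_false, Finset.mem_sdiff, mem_RE_false] at h8 ⊢; omega
      · unfold anE blk
        simp only [mem_LRE_true, Finset.mem_sdiff, mem_RE_true] at h8 ⊢; omega
    have s2 : LRE (-(R:ℤ)) R (-R) (-((ρ:ℤ) + 1)) ⊆ anE (0, 0) ρ R := by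
      rintro ⟨x, y, _ | _⟩ h8
      · unfold anE blk
        simp only [mem_LRE_false, Finset.mem_sdiff, mem_RE_false] at h8 ⊢; omega
      · unfold anE blk
        simp only [mem_LRE_true, Finset.mem_sdiff, mem_RE_true] at h8 ⊢; omega
    have s3 : TBE ((ρ:ℤ) + 1) R (-R) R ⊆ anE (0, 0) ρ R := by
      rintro ⟨x, y, _ | _⟩ h8
      · unfold anE blk
        simp only [mem_TBE_false, Finset.mem_sdiff, mem_RE_false] at h8 ⊢; omega
      · unfold anE blk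
        simp only [mem_TBE_true, Finset.mem_sdiff, mem_RE_true] at h8 ⊢; omega
    have s4 : TBE (-(R:ℤ)) (-((ρ:ℤ) + 1)) (-R) R ⊆ anE (0, 0) ρ R := by
      rintro ⟨x, y, _ | _⟩ h8
      · unfold anE blk
        simp only [mem_TBE_false, Finset.mem_sdiff, mem_RE_false] at h8 ⊢; omega
      · unfold anE blk
        simp only [mem_TBE_true, Finset.mem_sdiff, mem_RE_true] at h8 ⊢; omega
    unfold Circ at hc ⊢
    rw [LRc_local (F := F) s1, LRc_local (F := F) s2, TBc_local (F := F) s3,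
      TBc_local (F := F) s4] at hc
    exact hc
  obtain ⟨z, hz⟩ := circ_meet (by positivity) (by exact_mod_cast hR) hcl
  have key : ∀ x w : Vtx, inR (-(ρ:ℤ)) ρ (-ρ) ρ x →
      (w.1 ≤ -(R:ℤ) ∨ (R:ℤ) ≤ w.1 ∨ w.2 ≤ -(R:ℤ) ∨ (R:ℤ) ≤ w.2) →
      Reach ((↑F : Set Edg) ∩ ↑(anE (0, 0) ρ R)) x w →
      Reach ((↑F : Set Edg) ∩ ↑(anE (0, 0) ρ R)) x z := by
    intro x w hx hw h
    obtain ⟨w', k1, k2, k3⟩ := first_exit (a := -(R:ℤ)) (b := R) (c := -R) (d := R) (u := x)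
      (by unfold inR at hx ⊢; omega) h hw
    rw [← Finset.coe_inter] at k3
    have k4 := hz x w' (by unfold inR at hx ⊢; omega) (by omega) k3
    refine k4.mono ?_
    rw [Finset.coe_inter]
    exact Set.inter_subset_left
  exact h3 ((key u w hu hw h1).trans (key v w' hv hw' h2).symm)

end Pool.Agent.X135.AL
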