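import Pool.Agent.X135.AL.Tor2
import Pool.Agent.W424.NC.ArmUp
import Pool.Agent.W424.NC.NearC

/-!
The four-arm and the two-cluster estimates at all scales, away from the critical point.
-/

set_option autoImplicit false
set_option maxHeartbeats 1000000

namespace Pool.Agent.X135.AL

open H974 H12S Finset Pool.Agent.W424.NC

theorem boxE_blk (m : ℕ) : boxE m = blk (0, 0) m := by
  unfold boxE blk
  simp

/-- Doubly exponential decay of the two-cluster annuli. -/
theorem an_far {p : ℝ} (h0 : 0 ≤ p) (h1 : p ≤ 1) {N : ℕ} (hN : 2 ≤ N)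
    (he : eps (1 - p) N ≤ 1/100 ∨ eps p N ≤ 1/100) (j : ℕ) {S : Finset Edg}
    (hS : blk (0, 0) (2 * (2^j * N) - 1) ⊆ S) :
    PQ p S (fun F => AN (0, 0) (2^j * N - 1) (2 * (2^j * N) - 1) ↑F) ≤ (1/4)^(2^j) := by
  have ok := okq h0 h1
  have hM2 : 2 ≤ 2^j * N := by
    calc 2 ≤ N := hN
      _ ≤ 2^j * N := Nat.le_mul_of_pos_left _ (by positivity)
  rcases he with he | he
  · refine le_trans ?_ (pr_nblk_pow h0 h1 hN he j (S := S)
      ((annE_sub _ _).trans (by rw [boxE_blk]; exact hS)))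
    apply Pr_mono ok
    intro F _ hF
    exact AN_not_blk (by omega) hF
  · obtain ⟨M, hM⟩ : ∃ M : ℕ, M = 2^j * N := ⟨_, rfl⟩
    rw [← hM] at hS hM2 ⊢
    have i1 : PQ p S (fun F => AN (0, 0) (M - 1) (2 * M - 1) ↑F) ≤
        Pr (fun _ => p) S (fun F => ¬ Circ (M : ℤ) (2 * M - 1) F) := by
      apply Pr_mono ok
      intro F _ hF
      have := AN_not_circ (ρ := M - 1) (R := 2 * M - 1) (by omega) hF
      have c1 : ((M - 1 : ℕ) : ℤ) + 1 = M := by omega
      have c2 : ((2 * M - 1 : ℕ) : ℤ) = 2 * M - 1 := by omega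
      rwa [c1, c2] at this
    have i2 := pr_Circ h0 h1 (R1 := (M:ℤ)) (R2 := 2 * M - 1) (by omega) (by omega) (S := S) (by
      refine Finset.Subset.trans ?_ hS
      unfold blk
      apply RE_subset <;> simp only <;> omega)
    have i3 : hh p (4 * M) (M - 1) ≤ hh p (2 * (2 * M - 1)) (2 * M - 1 - M) :=
      hh_mono h0 h1 (by omega) (by omega) (by omega)
    have i4 := long_cross h0 h1 hM2
    have i5 := eps_nonneg h0 h1 M
    have i6 := H31K.eps_pow2 h0 h1 hN he j
    rw [← hM] at i6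
    rw [Pr_not] at i1
    obtain ⟨x, hx⟩ : ∃ x : ℝ, x = hh p (4 * M) (M - 1) := ⟨_, rfl⟩
    rw [← hx] at i3 i4
    have hx0 : 0 ≤ x := by rw [hx]; exact Pr_nonneg ok _ _
    have hx1 : x ≤ 1 := by rw [hx]; exact Pr_le_one ok _ _
    have i7 : x^4 ≤ (hh p (2 * (2 * M - 1)) (2 * M - 1 - M))^4 := pow_le_pow_left₀ hx0 i3 4
    have i8 : 1 - 4 * (1 - x) ≤ x^4 := by
      nlinarith [sq_nonneg (x - 1), sq_nonneg (x^2 - 1), mul_nonneg hx0 (sub_nonneg.mpr hx1),
        sq_nonneg x]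
    linarith

/-- The four-arm probability splits over scales. -/
theorem a4_split {p : ℝ} (h0 : 0 ≤ p) (h1 : p ≤ 1) {k k1 ρ R : ℕ} (hk1 : 1 ≤ k1) (h2 : k1 ≤ ρ)
    (h3 : ρ ≤ R) (h4 : R ≤ k) :
    a4 p k ≤ a4 p k1 * PQ p (blk (0, 0) R) (fun F => AN (0, 0) ρ R ↑F) := by
  have ok := okq h0 h1
  have key : ∀ b : Bool, PQ p (boxE k) (fun F => A4 (-k) k (-k) k (e0 b) ↑F) ≤
      PQ p (boxE k1) (fun F => A4 (-k1) k1 (-k1) k1 (e0 b) ↑F) *
        PQ p (blk (0, 0) R) (fun F => AN (0, 0) ρ R ↑F) := by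
    intro b
    have hE : ∀ m : ℕ, ∀ F : Set Edg, A4 (-m) m (-m) m (e0 b) F ↔ A4e m (e0 b) F := by
      intro m F
      unfold A4e e0
      simp only [zero_sub, zero_add]
    have hbx : ∀ m : ℕ, ebx (e0 b) m = boxE m := by
      intro m
      unfold ebx boxE e0
      simp only [zero_sub, zero_add]
    have s1 : ebx (e0 b) k1 ⊆ boxE k := by rw [hbx]; exact boxE_mono (by omega)
    have s2 : anE (0, 0) ρ R ⊆ boxE k := by
      unfold anE
      rw [← boxE_blk]
      exact Finset.sdiff_subset.trans (boxE_mono h4)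
    have hd : Disjoint (ebx (e0 b) k1) (anE (0, 0) ρ R) := by
      rw [hbx]
      unfold anE
      apply Finset.disjoint_of_subset_left (boxE_mono h2)
      rw [← boxE_blk ρ]
      exact Finset.disjoint_sdiff
    have i1 : PQ p (boxE k) (fun F => A4 (-k) k (-k) k (e0 b) ↑F) ≤
        PQ p (boxE k) (fun F => A4e k1 (e0 b) ↑F ∧ AN (0, 0) ρ R ↑F) := by
      apply Pr_mono ok
      intro F _ hF
      refine ⟨?_, ?_⟩
      · rw [hE] at hF
        unfold A4e at hF ⊢
        refine A4_sub (by omega) (by omega) (by omega) (by omega) ?_ hF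
        exact mem_ebx hk1
      · rw [hE] at hF
        have := A4e_AN (by omega : 1 ≤ ρ) h3 h4 hF
        unfold e0 at this
        exact this
    have i2 := Pr_indep (p := fun _ => p) s1 s2 hd (A := fun F => A4e k1 (e0 b) (↑F : Set Edg))
      (B := fun F => AN (0, 0) ρ R (↑F : Set Edg))
      (fun F _ => A4e_local (by rw [Finset.coe_inter, Set.inter_assoc, Set.inter_self]))
      (fun F _ => AN_local _ _ _ F)
    have i3 : PQ p (boxE k) (fun F => A4e k1 (e0 b) ↑F) =
        PQ p (boxE k1) (fun F => A4 (-k1) k1 (-k1) k1 (e0 b) ↑F) := by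
      have : PQ p (boxE k) (fun F => A4e k1 (e0 b) ↑F) =
          PQ p (boxE k1) (fun F => A4e k1 (e0 b) ↑F) := by
        apply Pr_local (boxE_mono (by omega))
        intro F _
        apply A4e_local
        rw [hbx, Finset.coe_inter, Set.inter_assoc, Set.inter_self]
      rw [this]
      exact Pr_congr fun F _ => (hE k1 _).symm
    have i4 : PQ p (boxE k) (fun F => AN (0, 0) ρ R ↑F) =
        PQ p (blk (0, 0) R) (fun F => AN (0, 0) ρ R ↑F) := by
      apply Pr_local (by rw [← boxE_blk]; exact boxE_mono h4)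
      intro F _
      rw [AN_local (0, 0) ρ R F, AN_local (0, 0) ρ R (F ∩ blk (0, 0) R)]
      have : F ∩ blk (0, 0) R ∩ anE (0, 0) ρ R = F ∩ anE (0, 0) ρ R := by
        rw [Finset.inter_assoc]
        congr 1
        apply Finset.inter_eq_right.mpr
        unfold anE
        exact Finset.sdiff_subset
      rw [this]
    calc _ ≤ _ := i1
      _ = _ := i2
      _ = _ := by
        change PQ p (boxE k) (fun F => A4e k1 (e0 b) ↑F) *
          PQ p (boxE k) (fun F => AN (0, 0) ρ R ↑F) = _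
        rw [i3, i4]
  unfold a4
  rw [add_mul]
  exact add_le_add (key true) (key false)

theorem al_le_two {p : ℝ} (h0 : 0 ≤ p) (h1 : p ≤ 1) (k : ℕ) : al p k ≤ 2 := by
  unfold al
  split_ifs
  · norm_num
  · exact a4_le_two h0 h1 k

theorem be_le_one {p : ℝ} (h0 : 0 ≤ p) (h1 : p ≤ 1) (ρ R : ℕ) : be p ρ R ≤ 1 := by
  unfold be
  split_ifs
  · exact le_refl _
  · exact Pr_le_one (okq h0 h1) _ _

theorem al_anti {p : ℝ} (h0 : 0 ≤ p) (h1 : p ≤ 1) {j k : ℕ} (hj : 1 ≤ j) (h : j ≤ k) :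
    al p k ≤ al p j := by
  unfold al
  rw [if_neg (by omega), if_neg (by omega)]
  exact a4_anti h0 h1 hj h

theorem be_anti {p : ℝ} (h0 : 0 ≤ p) (h1 : p ≤ 1) {ρ R' R : ℕ} (h : ρ ≤ R') (h2 : R' ≤ R) :
    be p ρ R ≤ be p ρ R' := by
  unfold be
  rw [if_neg (by omega), if_neg (by omega)]
  have i4 : PQ p (blk (0, 0) R) (fun F => AN (0, 0) ρ R' ↑F) =
      PQ p (blk (0, 0) R') (fun F => AN (0, 0) ρ R' ↑F) := by
    apply Pr_local (blk_mono _ h2)
    intro F _
    rw [AN_local (0, 0) ρ R' F, AN_local (0, 0) ρ R' (F ∩ blk (0, 0) R')]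
    have : F ∩ blk (0, 0) R' ∩ anE (0, 0) ρ R' = F ∩ anE (0, 0) ρ R' := by
      rw [Finset.inter_assoc]
      congr 1
      apply Finset.inter_eq_right.mpr
      unfold anE
      exact Finset.sdiff_subset
    rw [this]
  rw [← i4]
  apply Pr_mono (okq h0 h1)
  intro F _ hF
  exact AN_mono h h2 hF

end Pool.Agent.X135.AL
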