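import Mathlib

/-!
The two-scale sum.
-/

set_option autoImplicit false
set_option maxHeartbeats 1000000

namespace Pool.Agent.X135.AL

open Finset

theorem rpow_step {a z : ℝ} (ha : 0 < a) (ha1 : a ≤ 1) (hz : 1 ≤ z) :
    (z - 1)^a / a + z^(a - 1) ≤ z^a / a := by
  have hz0 : 0 < z := by linarith
  have h1 : (1 + (-(1/z)))^a ≤ 1 + a * (-(1/z)) :=
    rpow_one_add_le_one_add_mul_self (by
      rw [neg_le_neg_iff, div_le_one hz0]; exact hz) ha.le ha1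
  have h2 : (z - 1)^a = z^a * (1 + (-(1/z)))^a := by
    rw [← Real.mul_rpow hz0.le (by
      have : 1/z ≤ 1 := by rw [div_le_one hz0]; exact hz
      linarith)]
    congr 1
    field_simp
    ring
  have h3 : z^(a-1) = z^a / z := by rw [Real.rpow_sub_one hz0.ne']
  have h4 : 0 < z^a := Real.rpow_pos_of_pos hz0 a
  have h5 : (z - 1)^a ≤ z^a * (1 + a * (-(1/z))) := by
    rw [h2]; exact mul_le_mul_of_nonneg_left h1 h4.le
  calc (z - 1)^a / a + z^(a - 1) ≤ z^a * (1 + a * (-(1/z))) / a + z^a / z := by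
        rw [h3]
        gcongr
    _ = z^a / a := by field_simp; ring

theorem sum_rpow {a : ℝ} (ha : 0 < a) (ha1 : a ≤ 1) (y : ℕ) :
    ∑ x ∈ range y, ((x:ℝ) + 1)^(a - 1) ≤ (y:ℝ)^a / a := by
  induction y with
  | zero => simp; positivity
  | succ y ih =>
    rw [sum_range_succ]
    have := rpow_step ha ha1 (z := (y:ℝ) + 1) (by linarith [Nat.cast_nonneg (α := ℝ) y])
    rw [add_sub_cancel_right] at this
    push_cast
    linarith

theorem sum_lin (y : ℕ) : ∑ x ∈ range y, ((x:ℝ) + 1) ≤ (y:ℝ)^2 := by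
  induction y with
  | zero => simp
  | succ y ih =>
    rw [sum_range_succ]
    push_cast
    nlinarith [Nat.cast_nonneg (α := ℝ) y]

/-- The inner sum. -/
theorem inner_le {N : ℝ} (hN : 0 < N) (y : ℕ) :
    ∑ x ∈ range y, ((x:ℝ) + 1) * (min ((x:ℝ)+1) N)^(-(3/2) : ℝ) ≤
      2 * (y:ℝ)^(1/2 : ℝ) + (y:ℝ)^2 * N^(-(3/2) : ℝ) := by
  have h1 : ∀ x ∈ range y, ((x:ℝ) + 1) * (min ((x:ℝ)+1) N)^(-(3/2) : ℝ) ≤
      ((x:ℝ) + 1)^((1/2 : ℝ) - 1) + ((x:ℝ) + 1) * N^(-(3/2) : ℝ) := by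
    intro x _
    have hx : (0:ℝ) < (x:ℝ) + 1 := by positivity
    have h2 : (min ((x:ℝ)+1) N)^(-(3/2) : ℝ) ≤ ((x:ℝ)+1)^(-(3/2) : ℝ) + N^(-(3/2) : ℝ) := by
      have i1 : 0 < ((x:ℝ)+1)^(-(3/2) : ℝ) := Real.rpow_pos_of_pos hx _
      have i2 : 0 < N^(-(3/2) : ℝ) := Real.rpow_pos_of_pos hN _
      rcases min_choice ((x:ℝ)+1) N with h | h <;> rw [h] <;> linarith
    calc _ ≤ ((x:ℝ) + 1) * (((x:ℝ)+1)^(-(3/2) : ℝ) + N^(-(3/2) : ℝ)) :=
          mul_le_mul_of_nonneg_left h2 hx.le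
      _ = _ := by
          rw [mul_add]
          congr 1
          nth_rw 1 [← Real.rpow_one ((x:ℝ)+1)]
          rw [← Real.rpow_add hx]
          norm_num
  refine (sum_le_sum h1).trans ?_
  rw [sum_add_distrib, ← sum_mul]
  have h3 := sum_rpow (a := 1/2) (by norm_num) (by norm_num) y
  have h4 := sum_lin y
  have h5 : 0 < N^(-(3/2) : ℝ) := Real.rpow_pos_of_pos hN _
  have h6 := mul_le_mul_of_nonneg_right h4 h5.le
  have h7 : (y:ℝ)^(1/2 : ℝ) / (1/2) = 2 * (y:ℝ)^(1/2 : ℝ) := by ring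
  rw [h7] at h3
  linarith

/-- The outer terms. -/
noncomputable def phi (N y : ℝ) : ℝ := if y ≤ N then y^(-(3/4) : ℝ) else N^(9/4 : ℝ) / y^3

theorem term_le {N : ℝ} (hN : 0 < N) (y : ℕ) (hy : 1 ≤ y) :
    (y:ℝ) * ((min (y:ℝ) N)^(-(9/4) : ℝ) * (min 1 (N / y))^6 *
      (2 * (y:ℝ)^(1/2 : ℝ) + (y:ℝ)^2 * N^(-(3/2) : ℝ))) ≤ 3 * phi N y := by
  have hy0 : (0:ℝ) < y := by exact_mod_cast hy
  unfold phi
  split_ifs with h
  · rw [min_eq_left h]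
    have h1 : (y:ℝ)^2 * N^(-(3/2) : ℝ) ≤ (y:ℝ)^(1/2 : ℝ) := by
      calc (y:ℝ)^2 * N^(-(3/2) : ℝ) ≤ (y:ℝ)^2 * (y:ℝ)^(-(3/2) : ℝ) := by
            apply mul_le_mul_of_nonneg_left _ (by positivity)
            exact Real.rpow_le_rpow_of_nonpos hy0 h (by norm_num)
        _ = (y:ℝ)^(1/2 : ℝ) := by
            rw [← Real.rpow_natCast, ← Real.rpow_add hy0]; norm_num
    have h2 : (min 1 (N / y))^6 ≤ 1 := by
      apply pow_le_one₀ _ (min_le_left _ _)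
      exact le_min zero_le_one (by positivity)
    have h3 : 0 < (y:ℝ)^(1/2 : ℝ) := Real.rpow_pos_of_pos hy0 _
    have h4 : 0 < (y:ℝ)^(-(9/4) : ℝ) := Real.rpow_pos_of_pos hy0 _
    calc (y:ℝ) * ((y:ℝ)^(-(9/4) : ℝ) * (min 1 (N / y))^6 *
          (2 * (y:ℝ)^(1/2 : ℝ) + (y:ℝ)^2 * N^(-(3/2) : ℝ)))
        ≤ (y:ℝ) * ((y:ℝ)^(-(9/4) : ℝ) * 1 * (3 * (y:ℝ)^(1/2 : ℝ))) := by
          gcongr
          linarith
      _ = 3 * ((y:ℝ)^(1:ℝ) * (y:ℝ)^(-(9/4) : ℝ) * (y:ℝ)^(1/2 : ℝ)) := by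
          rw [Real.rpow_one]; ring
      _ = _ := by
          rw [← Real.rpow_add hy0, ← Real.rpow_add hy0]; norm_num
  · have h' : N ≤ y := le_of_lt (not_le.mp h)
    rw [min_eq_right h']
    have h6 : min 1 (N / y) = N / y := min_eq_right (by rw [div_le_one hy0]; exact h')
    rw [h6]
    have h1 : (y:ℝ)^(1/2 : ℝ) ≤ (y:ℝ)^2 * N^(-(3/2) : ℝ) := by
      calc (y:ℝ)^(1/2 : ℝ) = (y:ℝ)^2 * (y:ℝ)^(-(3/2) : ℝ) := by
            rw [← Real.rpow_natCast, ← Real.rpow_add hy0]; norm_num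
        _ ≤ (y:ℝ)^2 * N^(-(3/2) : ℝ) := by
            apply mul_le_mul_of_nonneg_left _ (by positivity)
            exact Real.rpow_le_rpow_of_nonpos hN h' (by norm_num)
    have h4 : 0 < N^(-(9/4) : ℝ) := Real.rpow_pos_of_pos hN _
    calc (y:ℝ) * (N^(-(9/4) : ℝ) * (N / y)^6 *
          (2 * (y:ℝ)^(1/2 : ℝ) + (y:ℝ)^2 * N^(-(3/2) : ℝ)))
        ≤ (y:ℝ) * (N^(-(9/4) : ℝ) * (N / y)^6 * (3 * ((y:ℝ)^2 * N^(-(3/2) : ℝ)))) := by
          gcongr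
          linarith
      _ = 3 * ((N^(-(9/4) : ℝ) * N^(6:ℕ) * N^(-(3/2) : ℝ)) / y^3) := by
          field_simp
      _ = _ := by
          congr 2
          rw [← Real.rpow_natCast N 6, ← Real.rpow_add hN, ← Real.rpow_add hN]
          norm_num

theorem phi_sum {N : ℕ} (hN : 1 ≤ N) (L : ℕ) :
    ∑ r ∈ range L, phi N ((r:ℝ) + 1) ≤ 5 * (N:ℝ)^(1/4 : ℝ) := by
  have hN0 : (0:ℝ) < N := by exact_mod_cast hN
  have h14 : 0 < (N:ℝ)^(1/4 : ℝ) := Real.rpow_pos_of_pos hN0 _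
  have key1 : ∀ L : ℕ, L ≤ N → ∑ r ∈ range L, phi N ((r:ℝ) + 1) ≤ 4 * (L:ℝ)^(1/4 : ℝ) := by
    intro L hL
    have h1 := sum_rpow (a := 1/4) (by norm_num) (by norm_num) L
    have h2 : ∑ r ∈ range L, phi N ((r:ℝ) + 1) = ∑ x ∈ range L, ((x:ℝ) + 1)^((1/4 : ℝ) - 1) := by
      apply sum_congr rfl
      intro r hr
      unfold phi
      rw [if_pos (by
        have := mem_range.mp hr
        exact_mod_cast (by omega : r + 1 ≤ N))]
      norm_num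
    rw [h2]
    have h3 : (L:ℝ)^(1/4 : ℝ) / (1/4) = 4 * (L:ℝ)^(1/4 : ℝ) := by ring
    linarith
  have key2 : ∀ j : ℕ, ∑ r ∈ range (N + j), phi N ((r:ℝ) + 1) ≤
      4 * (N:ℝ)^(1/4 : ℝ) + (N:ℝ)^(5/4 : ℝ) * (1 / N - 1 / ((N:ℝ) + j)) := by
    intro j
    induction j with
    | zero =>
      have := key1 N le_rfl
      simpa using this
    | succ j ih =>
      rw [← add_assoc, sum_range_succ]
      have hph : phi N (((N + j : ℕ) : ℝ) + 1) = (N:ℝ)^(9/4 : ℝ) / (((N:ℝ) + j) + 1)^3 := by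
        unfold phi
        rw [if_neg]
        · push_cast; rfl
        · push_cast
          have : (0:ℝ) ≤ j := Nat.cast_nonneg j
          linarith
      rw [hph]
      obtain ⟨z, hz⟩ : ∃ z : ℝ, z = (N:ℝ) + j := ⟨_, rfl⟩
      have hzN : (N:ℝ) ≤ z := by rw [hz]; linarith [Nat.cast_nonneg (α := ℝ) j]
      have hz0 : 0 < z := lt_of_lt_of_le hN0 hzN
      rw [← hz] at ih ⊢
      push_cast
      rw [← add_assoc, ← hz]
      have h54 : 0 < (N:ℝ)^(5/4 : ℝ) := Real.rpow_pos_of_pos hN0 _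
      have e1 : (N:ℝ)^(9/4 : ℝ) = (N:ℝ)^(5/4 : ℝ) * N := by
        nth_rw 3 [← Real.rpow_one (N:ℝ)]
        rw [← Real.rpow_add hN0]
        norm_num
      have e2 : (N:ℝ) / (z + 1)^3 ≤ 1 / z - 1 / (z + 1) := by
        have e3 : 1 / z - 1 / (z + 1) = 1 / (z * (z + 1)) := by field_simp; ring
        rw [e3, div_le_div_iff₀ (by positivity) (by positivity)]
        nlinarith [mul_pos hz0 hz0, mul_le_mul_of_nonneg_right hzN (mul_pos hz0 hz0).le,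
          mul_le_mul_of_nonneg_right hzN hz0.le, pow_pos hz0 3]
      have e4 : (N:ℝ)^(9/4 : ℝ) / (z + 1)^3 ≤ (N:ℝ)^(5/4 : ℝ) * (1 / z - 1 / (z + 1)) := by
        rw [e1, mul_div_assoc]
        exact mul_le_mul_of_nonneg_left e2 h54.le
      linarith
  have h54 : 0 < (N:ℝ)^(5/4 : ℝ) := Real.rpow_pos_of_pos hN0 _
  have e5 : (N:ℝ)^(5/4 : ℝ) * (1 / N) = (N:ℝ)^(1/4 : ℝ) := by
    rw [mul_one_div, ← Real.rpow_sub_one hN0.ne']
    norm_num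
  rcases le_total L N with hL | hL
  · have := key1 L hL
    have h6 : (L:ℝ)^(1/4 : ℝ) ≤ (N:ℝ)^(1/4 : ℝ) :=
      Real.rpow_le_rpow (Nat.cast_nonneg _) (by exact_mod_cast hL) (by norm_num)
    linarith
  · obtain ⟨j, rfl⟩ := Nat.exists_eq_add_of_le hL
    have h7 := key2 j
    have h8 : (0:ℝ) ≤ 1 / ((N:ℝ) + j) := by positivity
    have h9 := mul_nonneg h54.le h8
    rw [mul_sub, e5] at h7
    linarith

/-- **The double sum.** -/
theorem sum_main {N : ℕ} (hN : 1 ≤ N) {K : ℝ} (hK : 0 ≤ K) {H : ℕ → ℕ → ℝ}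
    (h0 : ∀ d r, ¬ d ≤ r → H d r = 0)
    (hH : ∀ d r, d ≤ r → H d r ≤ K * ((min ((d:ℝ)+1) N)^(-(3/2) : ℝ) *
      ((min ((r:ℝ)+1) N)^(-(9/4) : ℝ) * (min 1 ((N:ℝ) / ((r:ℝ)+1)))^6))) (L : ℕ) :
    ∑ d ∈ range L, 16 * ((d:ℝ)+1) * ∑ r ∈ range L, 16 * ((r:ℝ)+1) * H d r ≤
      3840 * K * (N:ℝ)^(1/4 : ℝ) := by
  have hN0 : (0:ℝ) < N := by exact_mod_cast hN
  have e1 : ∑ d ∈ range L, 16 * ((d:ℝ)+1) * ∑ r ∈ range L, 16 * ((r:ℝ)+1) * H d r =
      ∑ r ∈ range L, 256 * (((r:ℝ)+1) * ∑ d ∈ range L, ((d:ℝ)+1) * H d r) := by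
    simp_rw [mul_sum]
    rw [sum_comm]
    apply sum_congr rfl; intro r _
    apply sum_congr rfl; intro d _
    ring
  rw [e1]
  have key : ∀ r ∈ range L, 256 * (((r:ℝ)+1) * ∑ d ∈ range L, ((d:ℝ)+1) * H d r) ≤
      256 * K * (3 * phi N ((r:ℝ)+1)) := by
    intro r hr
    have hrL := mem_range.mp hr
    have i1 : ∑ d ∈ range L, ((d:ℝ)+1) * H d r = ∑ d ∈ range (r+1), ((d:ℝ)+1) * H d r := by
      symm
      apply sum_subset
      · intro d hd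
        rw [mem_range] at hd ⊢
        omega
      · intro d _ hd
        rw [h0 d r (by rw [mem_range] at hd; omega), mul_zero]
    rw [i1]
    obtain ⟨B, hB⟩ : ∃ B : ℝ, B = (min ((r:ℝ)+1) N)^(-(9/4) : ℝ) *
      (min 1 ((N:ℝ) / ((r:ℝ)+1)))^6 := ⟨_, rfl⟩
    have hr1 : (0:ℝ) < (r:ℝ)+1 := by positivity
    have hB0 : 0 ≤ B := by
      rw [hB]
      apply mul_nonneg
      · exact Real.rpow_nonneg (le_min hr1.le hN0.le) _
      · exact pow_nonneg (le_min zero_le_one (by positivity)) _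
    have i2 : ∑ d ∈ range (r+1), ((d:ℝ)+1) * H d r ≤
        K * B * ∑ d ∈ range (r+1), ((d:ℝ)+1) * (min ((d:ℝ)+1) N)^(-(3/2) : ℝ) := by
      rw [mul_sum]
      apply sum_le_sum
      intro d hd
      have hdr := mem_range.mp hd
      have := hH d r (by omega)
      rw [← hB] at this
      calc ((d:ℝ)+1) * H d r ≤ ((d:ℝ)+1) * (K * ((min ((d:ℝ)+1) N)^(-(3/2) : ℝ) * B)) :=
            mul_le_mul_of_nonneg_left this (by positivity)
        _ = _ := by ring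
    have i3 := inner_le hN0 (r+1)
    have i4 := term_le hN0 (r+1) (by omega)
    push_cast at i3 i4
    rw [← hB] at i4
    calc 256 * (((r:ℝ)+1) * ∑ d ∈ range (r+1), ((d:ℝ)+1) * H d r)
        ≤ 256 * (((r:ℝ)+1) * (K * B * ∑ d ∈ range (r+1), ((d:ℝ)+1) *
          (min ((d:ℝ)+1) N)^(-(3/2) : ℝ))) := by gcongr
      _ ≤ 256 * (((r:ℝ)+1) * (K * B * (2 * ((r:ℝ)+1)^(1/2 : ℝ) +
          ((r:ℝ)+1)^2 * (N:ℝ)^(-(3/2) : ℝ)))) := by
          have := mul_nonneg hK hB0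
          gcongr
      _ = 256 * K * (((r:ℝ)+1) * (B * (2 * ((r:ℝ)+1)^(1/2 : ℝ) +
          ((r:ℝ)+1)^2 * (N:ℝ)^(-(3/2) : ℝ)))) := by ring
      _ ≤ _ := mul_le_mul_of_nonneg_left i4 (by positivity)
  refine (sum_le_sum key).trans ?_
  rw [← mul_sum, ← mul_sum]
  have := phi_sum hN L
  calc 256 * K * (3 * ∑ r ∈ range L, phi N ((r:ℝ)+1)) ≤ 256 * K * (3 * (5 * (N:ℝ)^(1/4 : ℝ))) := by
        gcongr
    _ = _ := by ring

end Pool.Agent.X135.AL
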