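import Pool.Agent.X135.AL.Plan
import Pool.Agent.X135.AL.Der
import Pool.Agent.X135.AL.SumR
import Pool.Agent.W424.NC.FarB

/-!
The third derivative of the mean number of clusters on the torus: the final bound.
-/

set_option autoImplicit false
set_option maxHeartbeats 1000000

namespace Pool.Agent.X135.AL

open H974 H12S Finset Pool.Agent.W424.NC

/-- The correlation scale. -/
theorem scale_all : ∃ C E : ℝ, 1 ≤ C ∧ 1 ≤ E ∧ ∀ p : ℝ, 0 ≤ p → p ≤ 1 → p ≠ 1/2 →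
    ∃ N : ℕ, 2 ≤ N ∧ (N:ℝ) ≤ E * |p - 1/2|^(-(4/3) : ℝ) ∧
      (∀ k : ℕ, k ≤ N → al p k ≤ C * ((k:ℝ) + 1)^(-(5/4) : ℝ)) ∧
      (∀ ρ R : ℕ, 1 ≤ ρ → ρ ≤ R → R ≤ N → be p ρ R ≤ C * ((ρ:ℝ) / R)) ∧
      (eps (1 - p) N ≤ 1/100 ∨ eps p N ≤ 1/100) := by
  obtain ⟨E0, hE0, hfar⟩ := farS
  obtain ⟨κ, C0, hκ, hC0, hst⟩ := stabU
  obtain ⟨G, hG⟩ : ∃ G : ℝ, G = 2 * (E0 + 3) * C0^(4/3 : ℝ) := ⟨_, rfl⟩
  have hC0p : 1 ≤ C0^(4/3 : ℝ) := Real.one_le_rpow hC0 (by norm_num)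
  have hG1 : 1 ≤ G := by rw [hG]; nlinarith
  have h2G : 1 ≤ (2 * G)^(5/4 : ℝ) := Real.one_le_rpow (by linarith) (by norm_num)
  have hκi : 0 < κ⁻¹^6 := by positivity
  refine ⟨(C0 + 2) * (2 * G)^(5/4 : ℝ) + 80 * κ⁻¹^6 * G + G, E0 + 3, by nlinarith [mul_pos hκi (lt_of_lt_of_le one_pos hG1)],
    by linarith, ?_⟩
  intro p hp0 hp1 hp
  obtain ⟨s, hs⟩ : ∃ s : ℝ, s = |p - 1/2| := ⟨_, rfl⟩
  have hs0 : 0 < s := by rw [hs]; exact abs_pos.mpr (sub_ne_zero.mpr hp)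
  have hs1 : s ≤ 1/2 := by
    rw [hs, abs_le]; constructor <;> linarith
  rw [← hs]
  obtain ⟨x, hx⟩ : ∃ x : ℝ, x = s^(-(4/3) : ℝ) := ⟨_, rfl⟩
  have hx1 : 1 ≤ x := by
    rw [hx]
    exact Real.one_le_rpow_of_pos_of_le_one_of_nonpos hs0 (by linarith) (by norm_num)
  obtain ⟨N, hN⟩ : ∃ N : ℕ, N = ⌈E0 * x⌉₊ + 2 := ⟨_, rfl⟩
  have hN1 : (N:ℝ) ≤ (E0 + 3) * x := by
    have := Nat.ceil_lt_add_one (a := E0 * x) (by positivity)
    rw [hN]
    push_cast
    nlinarith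
  have hN2 : E0 * x ≤ N := by
    have := Nat.le_ceil (E0 * x)
    rw [hN]
    push_cast
    linarith
  have hN2' : 2 ≤ N := by omega
  have hNpos : (0:ℝ) < N := by exact_mod_cast (by omega : 0 < N)
  -- the large constant
  obtain ⟨C, hC⟩ : ∃ C : ℝ, C = (C0 + 2) * (2 * G)^(5/4 : ℝ) + 80 * κ⁻¹^6 * G + G := ⟨_, rfl⟩
  have hCa : (C0 + 2) * (2 * G)^(5/4 : ℝ) ≤ C := by
    rw [hC]; have := mul_pos hκi (lt_of_lt_of_le one_pos hG1); linarith
  have hCb : 80 * κ⁻¹^6 * G ≤ C := by rw [hC]; nlinarith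
  have hCc : G ≤ C := by
    rw [hC]; have := mul_pos hκi (lt_of_lt_of_le one_pos hG1); nlinarith
  rw [← hC]
  -- a comparison: n is at least N / G, or N is at most G
  have main : ((N:ℝ) ≤ G) ∨ ∃ n : ℕ, 1 ≤ n ∧ (N:ℝ) ≤ G * n ∧ Win p κ n ∧ A4le p C0 0 n := by
    rcases le_or_gt (C0 * s) 1 with hcs | hcs
    · right
      have hcs0 : 0 < C0 * s := by positivity
      have hy1 : 1 ≤ (C0 * s)^(-(4/3) : ℝ) :=
        Real.one_le_rpow_of_pos_of_le_one_of_nonpos hcs0 hcs (by norm_num)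
      obtain ⟨n, hn⟩ : ∃ n : ℕ, n = ⌊(C0 * s)^(-(4/3) : ℝ)⌋₊ := ⟨_, rfl⟩
      have hn1 : 1 ≤ n := by rw [hn]; exact Nat.le_floor (by exact_mod_cast hy1)
      have hn0 : (0:ℝ) < n := by exact_mod_cast hn1
      have hn1' : (1:ℝ) ≤ n := by exact_mod_cast hn1
      have hnle : (n:ℝ) ≤ (C0 * s)^(-(4/3) : ℝ) := by rw [hn]; exact Nat.floor_le (by linarith)
      have hlt : (C0 * s)^(-(4/3) : ℝ) < n + 1 := by rw [hn]; exact Nat.lt_floor_add_one _
      have hsx : x = C0^(4/3 : ℝ) * (C0 * s)^(-(4/3) : ℝ) := by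
        rw [hx, Real.mul_rpow (by linarith) hs0.le, ← mul_assoc, ← Real.rpow_add (by linarith)]
        norm_num
      refine ⟨n, hn1, ?_, ?_⟩
      · calc (N:ℝ) ≤ (E0 + 3) * x := hN1
          _ = (E0 + 3) * C0^(4/3 : ℝ) * (C0 * s)^(-(4/3) : ℝ) := by rw [hsx]; ring
          _ ≤ (E0 + 3) * C0^(4/3 : ℝ) * (2 * n) := by
              apply mul_le_mul_of_nonneg_left _ (by positivity)
              linarith
          _ = G * n := by rw [hG]; ring
      · apply hst n hn1 p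
        rw [← hs, le_div_iff₀ (by linarith), mul_comm]
        calc C0 * s = ((C0 * s)^(-(4/3) : ℝ))^(-(3/4) : ℝ) := by
              rw [← Real.rpow_mul hcs0.le]; norm_num
          _ ≤ (n:ℝ)^(-(3/4) : ℝ) := Real.rpow_le_rpow_of_nonpos hn0 hnle (by norm_num)
    · left
      have h1 : x ≤ C0^(4/3 : ℝ) := by
        rw [hx, Real.rpow_neg hs0.le, ← Real.inv_rpow hs0.le]
        apply Real.rpow_le_rpow (by positivity) _ (by norm_num)
        rw [inv_le_comm₀ hs0 (by linarith)]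
        rw [inv_le_iff_one_le_mul₀ (by linarith)]
        linarith
      calc (N:ℝ) ≤ (E0 + 3) * x := hN1
        _ ≤ (E0 + 3) * C0^(4/3 : ℝ) := mul_le_mul_of_nonneg_left h1 (by linarith)
        _ ≤ G := by rw [hG]; nlinarith
  refine ⟨N, hN2', by rw [← hx]; exact hN1, ?_, ?_, ?_⟩
  · -- four arms
    intro k hk
    have hk0 : (0:ℝ) < (k:ℝ) + 1 := by positivity
    have hkN : (k:ℝ) + 1 ≤ 2 * N := by
      have : (k:ℝ) ≤ N := by exact_mod_cast hk
      have : (1:ℝ) ≤ N := by exact_mod_cast (by omega : 1 ≤ N)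
      linarith
    have hkp : 0 < ((k:ℝ) + 1)^(-(5/4) : ℝ) := Real.rpow_pos_of_pos hk0 _
    rcases main with hm | ⟨n, hn1, hnN, hwin, hA4⟩
    · have h1 : 1 ≤ (2 * G)^(5/4 : ℝ) * ((k:ℝ) + 1)^(-(5/4) : ℝ) := by
        have h2 : (2 * G)^(-(5/4) : ℝ) ≤ ((k:ℝ) + 1)^(-(5/4) : ℝ) :=
          Real.rpow_le_rpow_of_nonpos hk0 (by linarith) (by norm_num)
        calc (1:ℝ) = (2 * G)^(5/4 : ℝ) * (2 * G)^(-(5/4) : ℝ) := by
              rw [← Real.rpow_add (by linarith)]; norm_num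
          _ ≤ _ := mul_le_mul_of_nonneg_left h2 (by positivity)
      calc al p k ≤ 2 * 1 := by rw [mul_one]; exact al_le_two hp0 hp1 k
        _ ≤ 2 * ((2 * G)^(5/4 : ℝ) * ((k:ℝ) + 1)^(-(5/4) : ℝ)) := by linarith
        _ ≤ (C0 + 2) * ((2 * G)^(5/4 : ℝ) * ((k:ℝ) + 1)^(-(5/4) : ℝ)) :=
            mul_le_mul_of_nonneg_right (by linarith) (by positivity)
        _ = ((C0 + 2) * (2 * G)^(5/4 : ℝ)) * ((k:ℝ) + 1)^(-(5/4) : ℝ) := by ring
        _ ≤ _ := mul_le_mul_of_nonneg_right hCa hkp.le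
    · rcases Nat.eq_zero_or_pos k with hk0' | hk0'
      · subst hk0'
        have : al p 0 = 1 := by unfold al; simp
        rw [this]
        simp only [Nat.cast_zero, zero_add, Real.one_rpow, mul_one]
        linarith
      · have hal : ∀ m : ℕ, 1 ≤ m → al p m = a4 p m := by
          intro m hm
          unfold al
          rw [if_neg (by omega)]
        have hA4' : ∀ m : ℕ, m ≤ n → a4 p m ≤ C0 * ((m:ℝ) + 1)^(-(5/4) : ℝ) := by
          intro m hm
          have := hA4 m hm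
          rwa [add_zero] at this
        rcases le_total k n with hkn | hkn
        · rw [hal k hk0']
          refine (hA4' k hkn).trans (mul_le_mul_of_nonneg_right ?_ hkp.le)
          nlinarith
        · refine (al_anti hp0 hp1 hn1 hkn).trans ?_
          rw [hal n hn1]
          refine (hA4' n le_rfl).trans ?_
          have hn0 : (0:ℝ) < n := by exact_mod_cast hn1
          have h1 : ((k:ℝ) + 1) / (2 * G) ≤ (n:ℝ) + 1 := by
            rw [div_le_iff₀ (by linarith)]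
            nlinarith
          have h2 : ((n:ℝ) + 1)^(-(5/4) : ℝ) ≤ (2 * G)^(5/4 : ℝ) * ((k:ℝ) + 1)^(-(5/4) : ℝ) := by
            calc ((n:ℝ) + 1)^(-(5/4) : ℝ) ≤ (((k:ℝ) + 1) / (2 * G))^(-(5/4) : ℝ) :=
                  Real.rpow_le_rpow_of_nonpos (by positivity) h1 (by norm_num)
              _ = (2 * G)^(5/4 : ℝ) * ((k:ℝ) + 1)^(-(5/4) : ℝ) := by
                  rw [Real.div_rpow hk0.le (by linarith), Real.rpow_neg (by linarith : 0 ≤ 2 * G),
                    div_inv_eq_mul, mul_comm]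
          calc C0 * ((n:ℝ) + 1)^(-(5/4) : ℝ) ≤
                C0 * ((2 * G)^(5/4 : ℝ) * ((k:ℝ) + 1)^(-(5/4) : ℝ)) :=
                mul_le_mul_of_nonneg_left h2 (by linarith)
            _ ≤ (C0 + 2) * ((2 * G)^(5/4 : ℝ) * ((k:ℝ) + 1)^(-(5/4) : ℝ)) :=
                mul_le_mul_of_nonneg_right (by linarith) (by positivity)
            _ = ((C0 + 2) * (2 * G)^(5/4 : ℝ)) * ((k:ℝ) + 1)^(-(5/4) : ℝ) := by ring
            _ ≤ _ := mul_le_mul_of_nonneg_right hCa hkp.le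
  · -- two clusters
    intro ρ R hρ hρR hRN
    have hρ0 : (0:ℝ) < ρ := by exact_mod_cast hρ
    have hρ1 : (1:ℝ) ≤ ρ := by exact_mod_cast hρ
    have hR0 : (0:ℝ) < R := by exact_mod_cast (by omega : 0 < R)
    have hRN' : (R:ℝ) ≤ N := by exact_mod_cast hRN
    have triv : (R:ℝ) ≤ G * ρ → be p ρ R ≤ C * ((ρ:ℝ) / R) := by
      intro h
      calc be p ρ R ≤ 1 := be_le_one hp0 hp1 ρ R
        _ ≤ G * ((ρ:ℝ) / R) := by
            rw [← mul_div_assoc, le_div_iff₀ hR0]; linarith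
        _ ≤ _ := mul_le_mul_of_nonneg_right hCc (by positivity)
    rcases main with hm | ⟨n, hn1, hnN, hwin, hA4⟩
    · apply triv
      nlinarith
    · have hn0 : (0:ℝ) < n := by exact_mod_cast hn1
      have hbe : ∀ R : ℕ, ρ ≤ R → R ≤ n → be p ρ R ≤ 80 * κ⁻¹^6 * ((ρ:ℝ) / R) := by
        intro R h1 h2
        unfold be
        rw [if_neg (by omega)]
        exact an_bound hwin hρ h1 h2 (0, 0) (Finset.Subset.refl _)
      rcases le_total R n with hRn | hRn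
      · refine (hbe R hρR hRn).trans (mul_le_mul_of_nonneg_right ?_ (by positivity))
        nlinarith
      · rcases le_total ρ n with hρn | hρn
        · refine (be_anti hp0 hp1 hρn hRn).trans ((hbe n hρn le_rfl).trans ?_)
          have h3 : (ρ:ℝ) / n ≤ G * ((ρ:ℝ) / R) := by
            rw [← mul_div_assoc, div_le_div_iff₀ hn0 hR0]
            nlinarith
          calc 80 * κ⁻¹^6 * ((ρ:ℝ) / n) ≤ 80 * κ⁻¹^6 * (G * ((ρ:ℝ) / R)) :=
                mul_le_mul_of_nonneg_left h3 (by positivity)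
            _ = (80 * κ⁻¹^6 * G) * ((ρ:ℝ) / R) := by ring
            _ ≤ _ := mul_le_mul_of_nonneg_right hCb (by positivity)
        · apply triv
          have : (n:ℝ) ≤ ρ := by exact_mod_cast hρn
          nlinarith
  · -- far
    rcases lt_or_gt_of_ne hp with h | h
    · left
      apply hfar (1 - p) (by linarith) (by linarith)
      rw [abs_of_neg (by linarith)] at hs
      rw [show 1 - p - 1/2 = s by rw [hs]; ring, ← hx]
      exact hN2
    · right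
      apply hfar p h hp1
      rw [abs_of_pos (by linarith)] at hs
      rw [← hs, ← hx]
      exact hN2

end Pool.Agent.X135.AL
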