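import Pool.Agent.X135.AL.Plan2

/-!
The third derivative of the mean number of clusters on the torus: the final bound.
-/

set_option autoImplicit false
set_option maxHeartbeats 1000000

namespace Pool.Agent.X135.AL

open H974 H12S Finset Pool.Agent.W424.NC

theorem exp_six {u : ℝ} (hu : 0 < u) : Real.exp (-u) ≤ 720 / u^6 := by
  have h1 := Real.pow_div_factorial_le_exp u hu.le 6
  have h2 : ((Nat.factorial 6 : ℕ) : ℝ) = 720 := by norm_num [Nat.factorial]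
  rw [h2] at h1
  rw [Real.exp_neg, ← one_div, div_le_div_iff₀ (Real.exp_pos _) (by positivity), one_mul]
  rw [div_le_iff₀ (by norm_num)] at h1
  linarith

/-- The four-arm probability at all scales. -/
theorem al_all {p C : ℝ} (h0 : 0 ≤ p) (h1 : p ≤ 1) {N : ℕ} (hN : 2 ≤ N) (hC : 1 ≤ C)
    (hal : ∀ k : ℕ, k ≤ N → al p k ≤ C * ((k:ℝ) + 1)^(-(5/4) : ℝ))
    (he : eps (1 - p) N ≤ 1/100 ∨ eps p N ≤ 1/100) (k : ℕ) :
    al p k ≤ 2949120 * C * ((min ((k:ℝ)+1) N)^(-(5/4) : ℝ) *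
      (min 1 ((N:ℝ) / ((k:ℝ)+1)))^6) := by
  have hN0 : (0:ℝ) < N := by exact_mod_cast (by omega : 0 < N)
  have hN1 : (1:ℝ) ≤ N := by exact_mod_cast (by omega : 1 ≤ N)
  have hk0 : (0:ℝ) < (k:ℝ) + 1 := by positivity
  have hm0 : 0 < min ((k:ℝ)+1) N := lt_min hk0 hN0
  have hmp : 0 < (min ((k:ℝ)+1) N)^(-(5/4) : ℝ) := Real.rpow_pos_of_pos hm0 _
  rcases le_or_gt (k + 1) (2 * N) with hk | hk
  · have e1 : al p k ≤ C * (min ((k:ℝ)+1) N)^(-(5/4) : ℝ) := by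
      rcases le_or_gt k N with hkN | hkN
      · refine (hal k hkN).trans (mul_le_mul_of_nonneg_left ?_ (by linarith))
        exact Real.rpow_le_rpow_of_nonpos hm0 (min_le_left _ _) (by norm_num)
      · refine (al_anti h0 h1 (by omega) hkN.le).trans ((hal N le_rfl).trans
          (mul_le_mul_of_nonneg_left ?_ (by linarith)))
        exact Real.rpow_le_rpow_of_nonpos hm0 ((min_le_right _ _).trans (by linarith))
          (by norm_num)
    have e2 : (1/2 : ℝ) ≤ min 1 ((N:ℝ) / ((k:ℝ)+1)) := by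
      apply le_min (by norm_num)
      rw [div_le_div_iff₀ (by norm_num) hk0]
      have : (k:ℝ) + 1 ≤ 2 * N := by exact_mod_cast hk
      linarith
    have e3 : (1/64 : ℝ) ≤ (min 1 ((N:ℝ) / ((k:ℝ)+1)))^6 := by
      calc (1/64 : ℝ) = (1/2)^6 := by norm_num
        _ ≤ _ := pow_le_pow_left₀ (by norm_num) e2 6
    calc al p k ≤ C * (min ((k:ℝ)+1) N)^(-(5/4) : ℝ) := e1
      _ = 64 * C * ((min ((k:ℝ)+1) N)^(-(5/4) : ℝ) * (1/64)) := by ring
      _ ≤ 2949120 * C * ((min ((k:ℝ)+1) N)^(-(5/4) : ℝ) *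
          (min 1 ((N:ℝ) / ((k:ℝ)+1)))^6) := by
          apply mul_le_mul (by linarith) _ (by positivity) (by positivity)
          exact mul_le_mul_of_nonneg_left e3 hmp.le
  · obtain ⟨q, hq⟩ : ∃ q : ℕ, q = (k + 1) / (2 * N) := ⟨_, rfl⟩
    have hq1 : 1 ≤ q := by
      rw [hq, Nat.le_div_iff_mul_le (by omega)]; omega
    obtain ⟨j, hj⟩ : ∃ j : ℕ, j = Nat.log 2 q := ⟨_, rfl⟩
    have hj1 : 2^j ≤ q := by rw [hj]; exact Nat.pow_log_le_self 2 (by omega)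
    have hj2 : q < 2^(j+1) := by rw [hj]; exact Nat.lt_pow_succ_log_self (by norm_num) q
    have hj3 : 2^j * (2 * N) ≤ k + 1 := by
      rw [← Nat.le_div_iff_mul_le (by omega), ← hq]; exact hj1
    have hj4 : k + 1 < 2^(j+1) * (2 * N) := by
      rw [← Nat.div_lt_iff_lt_mul (by omega), ← hq]; exact hj2
    have hNj : N ≤ 2^j * N := Nat.le_mul_of_pos_left _ (by positivity)
    obtain ⟨M, hM⟩ : ∃ M : ℕ, M = 2^j * N := ⟨_, rfl⟩
    have hj5 : 2 * M ≤ k + 1 := by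
      calc 2 * M = 2^j * (2 * N) := by rw [hM]; ring
        _ ≤ k + 1 := hj3
    rw [← hM] at hNj
    have e1 := a4_split h0 h1 (k := k) (k1 := N - 1) (ρ := M - 1) (R := 2 * M - 1) (by omega)
      (by omega) (by omega) (by omega)
    have e2 := an_far h0 h1 hN he j (Finset.Subset.refl (blk (0, 0) (2 * (2^j * N) - 1)))
    rw [← hM] at e2
    have e3 : a4 p (N - 1) ≤ C * (N:ℝ)^(-(5/4) : ℝ) := by
      have := hal (N - 1) (by omega)
      unfold al at this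
      rw [if_neg (by omega)] at this
      rwa [show (((N - 1 : ℕ) : ℝ)) + 1 = N by
        have : ((N - 1 + 1 : ℕ) : ℝ) = N := by rw [Nat.sub_add_cancel (by omega)]
        push_cast at this
        exact this] at this
    have hu : (0:ℝ) < (2:ℝ)^j := by positivity
    have e4 : ((1:ℝ)/4)^(2^j) ≤ 720 / ((2:ℝ)^j)^6 :=
      (quarter_pow_le (le_refl ((2:ℝ)^j))).trans (exp_six hu)
    have hkN : (N:ℝ) ≤ (k:ℝ) + 1 := by
      have : (2:ℝ) * N < (k:ℝ) + 1 := by exact_mod_cast hk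
      linarith
    have e5 : ((k:ℝ) + 1) / (4 * N) ≤ (2:ℝ)^j := by
      rw [div_le_iff₀ (by positivity)]
      have h8 : (k:ℝ) + 1 < 2^(j+1) * (2 * N) := by exact_mod_cast hj4
      rw [pow_succ] at h8
      linarith
    have e6 : 720 / ((2:ℝ)^j)^6 ≤ 2949120 * ((N:ℝ) / ((k:ℝ)+1))^6 := by
      calc 720 / ((2:ℝ)^j)^6 ≤ 720 / (((k:ℝ) + 1) / (4 * N))^6 := by
            apply div_le_div_of_nonneg_left (by norm_num) (by positivity)
            exact pow_le_pow_left₀ (by positivity) e5 6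
        _ = 2949120 * ((N:ℝ) / ((k:ℝ)+1))^6 := by
            field_simp
            norm_num
    have hal' : al p k = a4 p k := by
      unfold al
      rw [if_neg (by omega)]
    rw [hal', min_eq_right hkN, min_eq_right (by rw [div_le_one hk0]; exact hkN)]
    have hNp : 0 < (N:ℝ)^(-(5/4) : ℝ) := Real.rpow_pos_of_pos hN0 _
    calc a4 p k ≤ a4 p (N - 1) * PQ p (blk (0, 0) (2 * M - 1))
          (fun F => AN (0, 0) (M - 1) (2 * M - 1) ↑F) := e1
      _ ≤ (C * (N:ℝ)^(-(5/4) : ℝ)) * (2949120 * ((N:ℝ) / ((k:ℝ)+1))^6) := by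
          apply mul_le_mul e3 (e2.trans (e4.trans e6)) (Pr_nonneg (okq h0 h1) _ _) (by positivity)
      _ = _ := by ring

/-- The two-cluster probability at all scales. -/
theorem be_all {p C : ℝ} (h0 : 0 ≤ p) (h1 : p ≤ 1) {N : ℕ} (hN : 2 ≤ N) (hC : 1 ≤ C)
    (hbe : ∀ ρ R : ℕ, 1 ≤ ρ → ρ ≤ R → R ≤ N → be p ρ R ≤ C * ((ρ:ℝ) / R))
    {ρ : ℕ} (hρ : 1 ≤ ρ) (R : ℕ) :
    be p ρ R * min (R:ℝ) N ≤ C * min (ρ:ℝ) N := by
  have hN0 : (0:ℝ) < N := by exact_mod_cast (by omega : 0 < N)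
  have hρ0 : (0:ℝ) < ρ := by exact_mod_cast hρ
  have hmR : 0 ≤ min (R:ℝ) N := le_min (Nat.cast_nonneg _) hN0.le
  have hmρ : 0 ≤ min (ρ:ℝ) N := le_min hρ0.le hN0.le
  have triv : min (R:ℝ) N ≤ min (ρ:ℝ) N → be p ρ R * min (R:ℝ) N ≤ C * min (ρ:ℝ) N := by
    intro h
    calc be p ρ R * min (R:ℝ) N ≤ 1 * min (R:ℝ) N :=
          mul_le_mul_of_nonneg_right (be_le_one h0 h1 _ _) hmR
      _ ≤ C * min (ρ:ℝ) N := mul_le_mul hC h hmR (by linarith)
  rcases lt_or_ge R ρ with hR | hR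
  · apply triv
    exact min_le_min_right _ (by exact_mod_cast hR.le)
  · rcases le_or_gt R N with hRN | hRN
    · have hR0 : (0:ℝ) < R := by exact_mod_cast (by omega : 0 < R)
      rw [min_eq_left (by exact_mod_cast hRN : (R:ℝ) ≤ N),
        min_eq_left (by exact_mod_cast (by omega : ρ ≤ N) : (ρ:ℝ) ≤ N)]
      have := hbe ρ R hρ hR hRN
      calc be p ρ R * R ≤ C * ((ρ:ℝ) / R) * R := mul_le_mul_of_nonneg_right this hR0.le
        _ = C * ρ := by field_simp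
    · rcases le_or_gt ρ N with hρN | hρN
      · rw [min_eq_right (by exact_mod_cast hRN.le : (N:ℝ) ≤ R),
          min_eq_left (by exact_mod_cast hρN : (ρ:ℝ) ≤ N)]
        have := (be_anti h0 h1 hρN hRN.le).trans (hbe ρ N hρ hρN le_rfl)
        calc be p ρ R * N ≤ C * ((ρ:ℝ) / N) * N := mul_le_mul_of_nonneg_right this hN0.le
          _ = C * ρ := by field_simp
      · apply triv
        rw [min_eq_right (by exact_mod_cast hRN.le : (N:ℝ) ≤ R),
          min_eq_right (by exact_mod_cast hρN.le : (N:ℝ) ≤ ρ)]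

/-- The combined bound. -/
theorem Hb_bound {p C : ℝ} (h0 : 0 ≤ p) (h1 : p ≤ 1) {N : ℕ} (hN : 2 ≤ N) (hC : 1 ≤ C)
    (hal : ∀ k : ℕ, k ≤ N → al p k ≤ C * ((k:ℝ) + 1)^(-(5/4) : ℝ))
    (hbe : ∀ ρ R : ℕ, 1 ≤ ρ → ρ ≤ R → R ≤ N → be p ρ R ≤ C * ((ρ:ℝ) / R))
    (he : eps (1 - p) N ≤ 1/100 ∨ eps p N ≤ 1/100) {d r : ℕ} (hdr : d ≤ r) :
    Hb p d r ≤ 17179869184 * (2949120 * C)^3 * C * ((min ((d:ℝ)+1) N)^(-(3/2) : ℝ) *
      ((min ((r:ℝ)+1) N)^(-(9/4) : ℝ) * (min 1 ((N:ℝ) / ((r:ℝ)+1)))^6)) := by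
  have hN0 : (0:ℝ) < N := by exact_mod_cast (by omega : 0 < N)
  have hN1 : (1:ℝ) ≤ N := by exact_mod_cast (by omega : 1 ≤ N)
  have hd0 : (0:ℝ) < (d:ℝ) + 1 := by positivity
  have hr0 : (0:ℝ) < (r:ℝ) + 1 := by positivity
  obtain ⟨K, hK⟩ : ∃ K : ℝ, K = 2949120 * C := ⟨_, rfl⟩
  have hK0 : 0 < K := by rw [hK]; linarith
  obtain ⟨mx, hmx⟩ : ∃ mx : ℝ, mx = min ((d:ℝ)+1) N := ⟨_, rfl⟩
  obtain ⟨my, hmy⟩ : ∃ my : ℝ, my = min ((r:ℝ)+1) N := ⟨_, rfl⟩
  obtain ⟨t, ht⟩ : ∃ t : ℝ, t = min 1 ((N:ℝ) / ((r:ℝ)+1)) := ⟨_, rfl⟩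
  have hmx1 : 1 ≤ mx := by rw [hmx]; exact le_min (by linarith [Nat.cast_nonneg (α := ℝ) d]) hN1
  have hmy1 : 1 ≤ my := by rw [hmy]; exact le_min (by linarith [Nat.cast_nonneg (α := ℝ) r]) hN1
  have ht0 : 0 < t := by rw [ht]; exact lt_min one_pos (by positivity)
  have h8 : (8:ℝ)^(5/4 : ℝ) ≤ 16 := by
    calc (8:ℝ)^(5/4 : ℝ) ≤ (8:ℝ)^(4/3 : ℝ) :=
          Real.rpow_le_rpow_of_exponent_le (by norm_num) (by norm_num)
      _ = 16 := by
          rw [show (8:ℝ) = (2:ℝ)^(3:ℝ) by norm_num, ← Real.rpow_mul (by norm_num)]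
          norm_num
  -- the factor `8`
  have key8 : ∀ m a : ℕ, (m + 1 : ℝ) ≤ 8 * ((a:ℝ) + 1) →
      (min ((a:ℝ)+1) N)^(-(5/4) : ℝ) ≤ 16 * (min ((m:ℝ)+1) N)^(-(5/4) : ℝ) := by
    intro m a hma
    have hm0 : (0:ℝ) < min ((m:ℝ)+1) N := lt_min (by positivity) hN0
    have i1 : min ((m:ℝ)+1) N / 8 ≤ min ((a:ℝ)+1) N := by
      apply le_min
      · have := min_le_left ((m:ℝ)+1) N
        linarith
      · have := min_le_right ((m:ℝ)+1) N
        linarith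
    calc (min ((a:ℝ)+1) N)^(-(5/4) : ℝ) ≤ (min ((m:ℝ)+1) N / 8)^(-(5/4) : ℝ) :=
          Real.rpow_le_rpow_of_nonpos (by positivity) i1 (by norm_num)
      _ = (8:ℝ)^(5/4 : ℝ) * (min ((m:ℝ)+1) N)^(-(5/4) : ℝ) := by
          rw [Real.div_rpow hm0.le (by norm_num), Real.rpow_neg (by norm_num : (0:ℝ) ≤ 8),
            div_inv_eq_mul, mul_comm]
      _ ≤ _ := mul_le_mul_of_nonneg_right h8 (Real.rpow_nonneg hm0.le _)
  have div8 : ∀ m : ℕ, (m + 1 : ℝ) ≤ 8 * (((m / 8 : ℕ) : ℝ) + 1) := by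
    intro m
    have : m + 1 ≤ 8 * (m / 8 + 1) := by omega
    exact_mod_cast this
  -- the small scale
  have a1 : al p (d / 8) ≤ 16 * K * mx^(-(5/4) : ℝ) := by
    have i1 := al_all h0 h1 hN hC hal he (d / 8)
    rw [← hK] at i1
    have i2 : (min 1 ((N:ℝ) / (((d / 8 : ℕ) : ℝ)+1)))^6 ≤ 1 :=
      pow_le_one₀ (le_min zero_le_one (by positivity)) (min_le_left _ _)
    have i3 := key8 d (d / 8) (div8 d)
    rw [← hmx] at i3
    have i4 : 0 ≤ (min (((d / 8 : ℕ) : ℝ)+1) N)^(-(5/4) : ℝ) :=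
      Real.rpow_nonneg (le_min (by positivity) hN0.le) _
    calc al p (d / 8) ≤ _ := i1
      _ ≤ K * ((min (((d / 8 : ℕ) : ℝ)+1) N)^(-(5/4) : ℝ) * 1) := by
          apply mul_le_mul_of_nonneg_left _ hK0.le
          exact mul_le_mul_of_nonneg_left i2 i4
      _ ≤ K * (16 * mx^(-(5/4) : ℝ)) := by
          rw [mul_one]
          exact mul_le_mul_of_nonneg_left i3 hK0.le
      _ = _ := by ring
  -- the large scale
  have a2 : al p (r / 8) ≤ 4194304 * K * (my^(-(5/4) : ℝ) * t^6) := by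
    have i1 := al_all h0 h1 hN hC hal he (r / 8)
    rw [← hK] at i1
    have i3 := key8 r (r / 8) (div8 r)
    rw [← hmy] at i3
    have i2 : min 1 ((N:ℝ) / (((r / 8 : ℕ) : ℝ)+1)) ≤ 8 * t := by
      rw [ht]
      rcases le_total 1 ((N:ℝ) / ((r:ℝ)+1)) with h | h
      · rw [min_eq_left h]
        linarith [min_le_left 1 ((N:ℝ) / (((r / 8 : ℕ) : ℝ)+1))]
      · rw [min_eq_right h]
        refine (min_le_right _ _).trans ?_
        rw [← mul_div_assoc, div_le_div_iff₀ (by positivity) hr0]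
        have := div8 r
        nlinarith
    have i5 : (min 1 ((N:ℝ) / (((r / 8 : ℕ) : ℝ)+1)))^6 ≤ 262144 * t^6 := by
      calc _ ≤ (8 * t)^6 := pow_le_pow_left₀ (le_min zero_le_one (by positivity)) i2 6
        _ = _ := by ring
    have i4 : 0 ≤ (min (((r / 8 : ℕ) : ℝ)+1) N)^(-(5/4) : ℝ) :=
      Real.rpow_nonneg (le_min (by positivity) hN0.le) _
    calc al p (r / 8) ≤ _ := i1
      _ ≤ K * ((16 * my^(-(5/4) : ℝ)) * (262144 * t^6)) := by
          apply mul_le_mul_of_nonneg_left _ hK0.le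
          exact mul_le_mul i3 i5 (pow_nonneg (le_min zero_le_one (by positivity)) _)
            (by positivity)
      _ = _ := by ring
  -- the intermediate annulus
  have a3 : be p (2 * d + 2) (r / 4) ≤ 16 * C * (mx / my) := by
    rcases lt_or_ge r 4 with hr | hr
    · have i1 : my ≤ 4 := by
        rw [hmy]
        refine (min_le_left _ _).trans ?_
        have : (r:ℝ) ≤ 3 := by exact_mod_cast (by omega : r ≤ 3)
        linarith
      have i2 : 1/4 ≤ mx / my := by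
        rw [div_le_div_iff₀ (by norm_num) (by linarith)]
        linarith
      calc be p (2 * d + 2) (r / 4) ≤ 1 := be_le_one h0 h1 _ _
        _ ≤ 16 * C * (1/4) := by linarith
        _ ≤ _ := mul_le_mul_of_nonneg_left i2 (by linarith)
    · have i1 := be_all h0 h1 hN hC hbe (ρ := 2 * d + 2) (by omega) (r / 4)
      have i2 : min (((2 * d + 2 : ℕ) : ℝ)) N ≤ 2 * mx := by
        rw [hmx]
        push_cast
        rcases le_total ((d:ℝ)+1) N with h | h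
        · rw [min_eq_left h]
          refine (min_le_left _ _).trans (by linarith)
        · rw [min_eq_right h]
          refine (min_le_right _ _).trans (by linarith)
      have i3 : my / 8 ≤ min (((r / 4 : ℕ) : ℝ)) N := by
        rw [hmy]
        apply le_min
        · have : r + 1 ≤ 8 * (r / 4) := by omega
          have i4 : (r:ℝ) + 1 ≤ 8 * ((r / 4 : ℕ) : ℝ) := by exact_mod_cast this
          have := min_le_left ((r:ℝ)+1) N
          linarith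
        · have := min_le_right ((r:ℝ)+1) N
          linarith
      have i5 := be_nonneg h0 h1 (2 * d + 2) (r / 4)
      have i6 : be p (2 * d + 2) (r / 4) * (my / 8) ≤ C * (2 * mx) :=
        (mul_le_mul_of_nonneg_left i3 i5).trans (i1.trans
          (mul_le_mul_of_nonneg_left i2 (by linarith)))
      rw [← mul_div_assoc, le_div_iff₀ (by linarith)]
      linarith
  have ha1 := al_nonneg h0 h1 (d / 8)
  have ha2 := al_nonneg h0 h1 (r / 8)
  have hb1 := be_nonneg h0 h1 (2 * d + 2) (r / 4)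
  have hmxp : 0 < mx^(-(5/4) : ℝ) := Real.rpow_pos_of_pos (by linarith) _
  have hmyp : 0 < my^(-(5/4) : ℝ) := Real.rpow_pos_of_pos (by linarith) _
  unfold Hb
  rw [if_pos hdr]
  unfold Gb
  have e1 : mx^(-(3/2) : ℝ) = mx^(-(5/4) : ℝ) * mx^(-(5/4) : ℝ) * mx := by
    nth_rw 4 [← Real.rpow_one mx]
    rw [← Real.rpow_add (by linarith), ← Real.rpow_add (by linarith)]
    norm_num
  have e2 : my^(-(9/4) : ℝ) = my^(-(5/4) : ℝ) / my := by
    rw [← Real.rpow_sub_one (by linarith)]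
    norm_num
  rw [← hmx, ← hmy, ← ht, ← hK]
  calc al p (d / 8) * (al p (d / 8) * (be p (2 * d + 2) (r / 4) * al p (r / 8)))
      ≤ (16 * K * mx^(-(5/4) : ℝ)) * ((16 * K * mx^(-(5/4) : ℝ)) *
        ((16 * C * (mx / my)) * (4194304 * K * (my^(-(5/4) : ℝ) * t^6)))) := by
        gcongr
    _ = 17179869184 * K^3 * C * ((mx^(-(5/4) : ℝ) * mx^(-(5/4) : ℝ) * mx) *
        (my^(-(5/4) : ℝ) / my * t^6)) := by ring
    _ = _ := by rw [e1, e2]

/-- **Uniform bound for the third derivative.** -/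
theorem G3_uniform : ∃ C : ℝ, 0 < C ∧ ∀ p : ℝ, 0 ≤ p → p ≤ 1 → p ≠ 1/2 → ∀ L : ℕ, 1 ≤ L →
    |G3 L p| ≤ C * |p - 1/2|^(-(1/3) : ℝ) * (L:ℝ)^2 := by
  obtain ⟨C, E, hC, hE, h⟩ := scale_all
  obtain ⟨K, hK⟩ : ∃ K : ℝ, K = 17179869184 * (2949120 * C)^3 * C := ⟨_, rfl⟩
  have hK0 : 0 < K := by rw [hK]; positivity
  refine ⟨6 * (3840 * K * E^(1/4 : ℝ)), by positivity, ?_⟩
  intro p h0 h1 hp L hL
  obtain ⟨N, hN2, hNE, hal, hbe, he⟩ := h p h0 h1 hp
  have hs0 : 0 < |p - 1/2| := abs_pos.mpr (sub_ne_zero.mpr hp)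
  have i1 : Sc p L ≤ 3840 * K * (N:ℝ)^(1/4 : ℝ) := by
    unfold Sc
    apply sum_main (by omega) hK0.le
    · intro d r hdr
      unfold Hb
      rw [if_neg hdr]
    · intro d r hdr
      rw [hK]
      exact Hb_bound h0 h1 hN2 hC hal hbe he hdr
  have i2 : (N:ℝ)^(1/4 : ℝ) ≤ E^(1/4 : ℝ) * |p - 1/2|^(-(1/3) : ℝ) := by
    calc (N:ℝ)^(1/4 : ℝ) ≤ (E * |p - 1/2|^(-(4/3) : ℝ))^(1/4 : ℝ) :=
          Real.rpow_le_rpow (Nat.cast_nonneg _) hNE (by norm_num)
      _ = _ := by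
          rw [Real.mul_rpow (by linarith) (Real.rpow_nonneg hs0.le _), ← Real.rpow_mul hs0.le]
          norm_num
  have i3 := G3_bound h0 h1 hL
  calc |G3 L p| ≤ 6 * (L:ℝ)^2 * Sc p L := i3
    _ ≤ 6 * (L:ℝ)^2 * (3840 * K * (E^(1/4 : ℝ) * |p - 1/2|^(-(1/3) : ℝ))) := by
        apply mul_le_mul_of_nonneg_left _ (by positivity)
        exact i1.trans (mul_le_mul_of_nonneg_left i2 (by positivity))
    _ = _ := by ring

end Pool.Agent.X135.AL
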