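import Pool.Agent.X135.AL.Geo

/-!
The torus: periodic lifts of configurations, distances, and the local events around three jointly
pivotal edges.
-/

set_option autoImplicit false
set_option maxHeartbeats 1000000

namespace Pool.Agent.X135.AL

open H974 H12S Finset

/-- Reduction of a vertex. -/
def rv (N : ℕ) (v : Vtx) : Vtx := (v.1 % (N:ℤ), v.2 % (N:ℤ))

/-- Reduction of an edge. -/
def re (N : ℕ) (e : Edg) : Edg := (e.1 % (N:ℤ), e.2.1 % (N:ℤ), e.2.2)

/-- Edges of the torus. -/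
noncomputable def TE (N : ℕ) : Finset Edg :=
  Finset.Ico 0 (N:ℤ) ×ˢ (Finset.Ico 0 (N:ℤ) ×ˢ Finset.univ)

/-- Vertices of the torus. -/
noncomputable def TV (N : ℕ) : Finset Vtx := Finset.Ico 0 (N:ℤ) ×ˢ Finset.Ico 0 (N:ℤ)

/-- Second end point on the torus. -/
def tt (N : ℕ) (e : Edg) : Vtx := rv N (tgt e)

/-- Periodic lift. -/
def lift (N : ℕ) (F : Set Edg) : Set Edg := {e | re N e ∈ F}

theorem mem_TE {N : ℕ} {e : Edg} : e ∈ TE N ↔ (0 ≤ e.1 ∧ e.1 < N) ∧ (0 ≤ e.2.1 ∧ e.2.1 < N) := by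
  unfold TE
  rw [Finset.mem_product, Finset.mem_product, Finset.mem_Ico, Finset.mem_Ico]
  simp

theorem mem_TV {N : ℕ} {v : Vtx} : v ∈ TV N ↔ (0 ≤ v.1 ∧ v.1 < N) ∧ (0 ≤ v.2 ∧ v.2 < N) := by
  unfold TV
  rw [Finset.mem_product, Finset.mem_Ico, Finset.mem_Ico]

theorem re_TE {N : ℕ} (hN : 1 ≤ N) (e : Edg) : re N e ∈ TE N := by
  have h : (0:ℤ) < N := by exact_mod_cast hN
  rw [mem_TE]
  exact ⟨⟨Int.emod_nonneg _ h.ne', Int.emod_lt_of_pos _ h⟩,
    ⟨Int.emod_nonneg _ h.ne', Int.emod_lt_of_pos _ h⟩⟩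

theorem rv_TV {N : ℕ} (hN : 1 ≤ N) (v : Vtx) : rv N v ∈ TV N := by
  have h : (0:ℤ) < N := by exact_mod_cast hN
  rw [mem_TV]
  exact ⟨⟨Int.emod_nonneg _ h.ne', Int.emod_lt_of_pos _ h⟩,
    ⟨Int.emod_nonneg _ h.ne', Int.emod_lt_of_pos _ h⟩⟩

theorem re_self {N : ℕ} {e : Edg} (he : e ∈ TE N) : re N e = e := by
  obtain ⟨⟨h1, h2⟩, h3, h4⟩ := mem_TE.mp he
  obtain ⟨x, y, b⟩ := e
  unfold re
  simp only at h1 h2 h3 h4 ⊢
  rw [Int.emod_eq_of_lt h1 h2, Int.emod_eq_of_lt h3 h4]

theorem rv_self {N : ℕ} {v : Vtx} (hv : v ∈ TV N) : rv N v = v := by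
  obtain ⟨⟨h1, h2⟩, h3, h4⟩ := mem_TV.mp hv
  unfold rv
  rw [Int.emod_eq_of_lt h1 h2, Int.emod_eq_of_lt h3 h4]

theorem src_TV {N : ℕ} {e : Edg} (he : e ∈ TE N) : src e ∈ TV N := by
  rw [mem_TE] at he
  rw [mem_TV]
  exact he

theorem tt_TV {N : ℕ} (hN : 1 ≤ N) (e : Edg) : tt N e ∈ TV N := rv_TV hN _

theorem rv_iff {N : ℕ} {u v : Vtx} :
    rv N u = rv N v ↔ (N:ℤ) ∣ u.1 - v.1 ∧ (N:ℤ) ∣ u.2 - v.2 := by
  unfold rv
  rw [Prod.mk.injEq]
  constructor
  · rintro ⟨h1, h2⟩
    exact ⟨Int.ModEq.dvd (Int.ModEq.symm h1), Int.ModEq.dvd (Int.ModEq.symm h2)⟩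
  · rintro ⟨h1, h2⟩
    exact ⟨((Int.modEq_iff_dvd.mpr h1).symm : u.1 ≡ v.1 [ZMOD N]),
      ((Int.modEq_iff_dvd.mpr h2).symm : u.2 ≡ v.2 [ZMOD N])⟩

theorem rv_rv (N : ℕ) (v : Vtx) : rv N (rv N v) = rv N v := by
  unfold rv
  simp

/-- `re` on edges, in terms of the first end points. -/
theorem re_iff {N : ℕ} {e f : Edg} :
    re N e = re N f ↔ rv N (src e) = rv N (src f) ∧ e.2.2 = f.2.2 := by
  unfold re rv src
  simp only [Prod.mk.injEq]
  tauto

theorem tt_re (N : ℕ) (e : Edg) : tt N (re N e) = tt N e := by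
  obtain ⟨x, y, b⟩ := e
  unfold tt re
  cases b
  · rw [tgt_false, tgt_false, rv_iff]
    refine ⟨?_, ?_⟩
    · simp only
      exact (Int.dvd_iff_emod_eq_zero.mpr (by simp [Int.sub_emod]))
    · simp only
      have : y % (N:ℤ) + 1 - (y + 1) = y % N - y := by ring
      rw [this]
      exact (Int.dvd_iff_emod_eq_zero.mpr (by simp [Int.sub_emod]))
  · rw [tgt_true, tgt_true, rv_iff]
    refine ⟨?_, ?_⟩
    · simp only
      have : x % (N:ℤ) + 1 - (x + 1) = x % N - x := by ring
      rw [this]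
      exact (Int.dvd_iff_emod_eq_zero.mpr (by simp [Int.sub_emod]))
    · simp only
      exact (Int.dvd_iff_emod_eq_zero.mpr (by simp [Int.sub_emod]))

/-- Projection of a path. -/
theorem down {N : ℕ} {F : Set Edg} {u v : Vtx} (h : Reach (lift N F) u v) :
    GR src (tt N) F (rv N u) (rv N v) := by
  induction h with
  | refl => exact GR.refl _ _
  | @tail w w' _ hs ih =>
    obtain ⟨e, he, hc⟩ := hs
    refine ih.trans (GAdj.gr ⟨re N e, he, ?_⟩)
    rw [tt_re]
    rcases hc with ⟨h1, h2⟩ | ⟨h1, h2⟩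
    · left
      rw [← h1, ← h2]
      exact ⟨rfl, rfl⟩
    · right
      rw [← h1, ← h2]
      exact ⟨rfl, rfl⟩

/-- Lift of a path. -/
theorem up {N : ℕ} {F : Set Edg} (hF : ∀ e ∈ F, e ∈ TE N) {u v : Vtx}
    (h : GR src (tt N) F u v) {u' : Vtx} (hu : rv N u' = u) :
    ∃ v', rv N v' = v ∧ Reach (lift N F) u' v' := by
  induction h with
  | refl => exact ⟨u', hu, Reach.refl _ _⟩
  | @tail w w' _ hs ih =>
    obtain ⟨w1, hw1, hr⟩ := ih
    obtain ⟨e, he, hc⟩ := hs
    have heT := hF e he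
    have hsr : rv N (src e) = src e := rv_self (src_TV heT)
    obtain ⟨x, y, b⟩ := e
    rcases hc with ⟨h1, h2⟩ | ⟨h1, h2⟩
    · -- forward
      have hre : re N (w1.1, w1.2, b) = (x, y, b) := by
        rw [← re_self heT, re_iff]
        refine ⟨?_, rfl⟩
        rw [hsr, h1]
        exact hw1
      refine ⟨tgt (w1.1, w1.2, b), ?_, hr.trans (Adj.reach ⟨(w1.1, w1.2, b), ?_, Or.inl ⟨rfl, rfl⟩⟩)⟩
      · rw [← h2]
        have := tt_re N (w1.1, w1.2, b)
        rw [hre] at this
        exact this.symm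
      · change re N (w1.1, w1.2, b) ∈ F
        rw [hre]; exact he
    · -- backward
      have hw2 : rv N w1 = rv N (tgt (x, y, b)) := by rw [hw1, ← h2]; rfl
      rw [rv_iff] at hw2
      obtain ⟨g1, g2⟩ := hw2
      obtain ⟨e', he', ht, hs'⟩ : ∃ e' : Edg, e'.2.2 = b ∧ tgt e' = w1 ∧
          rv N (src e') = rv N (src (x, y, b)) := by
        cases b
        · refine ⟨(w1.1, w1.2 - 1, false), rfl, ?_, ?_⟩
          · rw [tgt_false]; ext <;> simp
          · rw [rv_iff]
            rw [tgt_false] at g1 g2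
            simp only [src_mk] at g1 g2 ⊢
            refine ⟨g1, ?_⟩
            have : w1.2 - 1 - y = w1.2 - (y + 1) := by ring
            rw [this]; exact g2
        · refine ⟨(w1.1 - 1, w1.2, true), rfl, ?_, ?_⟩
          · rw [tgt_true]; ext <;> simp
          · rw [rv_iff]
            rw [tgt_true] at g1 g2
            simp only [src_mk] at g1 g2 ⊢
            refine ⟨?_, g2⟩
            have : w1.1 - 1 - x = w1.1 - (x + 1) := by ring
            rw [this]; exact g1
      have hre : re N e' = (x, y, b) := by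
        rw [← re_self heT, re_iff]
        exact ⟨hs', he'⟩
      refine ⟨src e', ?_, hr.trans (Adj.reach ⟨e', ?_, Or.inr ⟨rfl, ht⟩⟩)⟩
      · rw [hs', hsr]; exact h1
      · change re N e' ∈ F
        rw [hre]; exact he

/-! ### distances -/

theorem bmod_min (N : ℕ) {x y : ℤ} (h : (N:ℤ) ∣ y - x) : (Int.bmod x N).natAbs ≤ y.natAbs := by
  rcases Nat.eq_zero_or_pos N with h0 | h0
  · subst h0
    have : y = x := by
      have h2 : (0:ℤ) ∣ y - x := by simpa using h
      have := zero_dvd_iff.mp h2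
      omega
    rw [this, Int.bmod_zero]
  · have g1 := Int.le_bmod (x := x) h0
    have g2 := Int.bmod_lt (x := x) h0
    obtain ⟨b, hb⟩ : ∃ b, b = Int.bmod x N := ⟨_, rfl⟩
    have hd : (N:ℤ) ∣ y - b := by
      have e1 : (N:ℤ) ∣ x - b := by
        rw [hb, Int.bmod_eq_self_sub_mul_bdiv]
        have : x - (x - (N:ℤ) * Int.bdiv x N) = N * Int.bdiv x N := by ring
        rw [this]
        exact Int.dvd_mul_right _ _
      have e2 : y - b = (y - x) + (x - b) := by ring
      rw [e2]; exact Int.dvd_add h e1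
    rw [← hb] at g1 g2 ⊢
    by_contra hc
    push Not at hc
    obtain ⟨k, hk⟩ := hd
    have hN0 : (0:ℤ) < N := by exact_mod_cast h0
    rcases lt_trichotomy k 0 with hk0 | hk0 | hk0
    · have : (N:ℤ) * k ≤ -N := by nlinarith
      omega
    · rw [hk0, mul_zero] at hk
      have : y = b := by omega
      rw [this] at hc
      omega
    · have : (N:ℤ) ≤ N * k := by nlinarith
      omega

theorem bmod_dvd (N : ℕ) (x : ℤ) : (N:ℤ) ∣ Int.bmod x N - x := by
  rw [Int.bmod_eq_self_sub_mul_bdiv]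
  have : x - (N:ℤ) * Int.bdiv x N - x = N * (-Int.bdiv x N) := by ring
  rw [this]
  exact Int.dvd_mul_right _ _

/-- sup-distance in the plane -/
def nd (u w : Vtx) : ℕ := max (w.1 - u.1).natAbs (w.2 - u.2).natAbs

/-- Distance on the torus. -/
def dT (N : ℕ) (u v : Vtx) : ℕ :=
  max (Int.bmod (v.1 - u.1) N).natAbs (Int.bmod (v.2 - u.2) N).natAbs

theorem dT_le {N : ℕ} {u v u' v' : Vtx} (hu : rv N u' = rv N u) (hv : rv N v' = rv N v) :
    dT N u v ≤ nd u' v' := by
  rw [rv_iff] at hu hv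
  have h1 : (N:ℤ) ∣ (v'.1 - u'.1) - (v.1 - u.1) := by
    have : (v'.1 - u'.1) - (v.1 - u.1) = (v'.1 - v.1) - (u'.1 - u.1) := by ring
    rw [this]; exact Int.dvd_sub hv.1 hu.1
  have h2 : (N:ℤ) ∣ (v'.2 - u'.2) - (v.2 - u.2) := by
    have : (v'.2 - u'.2) - (v.2 - u.2) = (v'.2 - v.2) - (u'.2 - u.2) := by ring
    rw [this]; exact Int.dvd_sub hv.2 hu.2
  unfold dT nd
  exact max_le_max (bmod_min N h1) (bmod_min N h2)

/-- The nearest lift. -/
def near (N : ℕ) (u v : Vtx) : Vtx := (u.1 + Int.bmod (v.1 - u.1) N, u.2 + Int.bmod (v.2 - u.2) N)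

theorem rv_near (N : ℕ) (u v : Vtx) : rv N (near N u v) = rv N v := by
  rw [rv_iff]
  unfold near
  constructor
  · have := bmod_dvd N (v.1 - u.1)
    have e : u.1 + Int.bmod (v.1 - u.1) N - v.1 = Int.bmod (v.1 - u.1) N - (v.1 - u.1) := by ring
    rw [e]; exact this
  · have := bmod_dvd N (v.2 - u.2)
    have e : u.2 + Int.bmod (v.2 - u.2) N - v.2 = Int.bmod (v.2 - u.2) N - (v.2 - u.2) := by ring
    rw [e]; exact this

theorem nd_near (N : ℕ) (u v : Vtx) : nd u (near N u v) = dT N u v := by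
  unfold nd near dT
  simp

theorem nd_comm (u v : Vtx) : nd u v = nd v u := by
  unfold nd
  omega

theorem nd_tri (u v w : Vtx) : nd u w ≤ nd u v + nd v w := by
  unfold nd
  omega

theorem dT_tri (N : ℕ) (u v w : Vtx) : dT N u w ≤ dT N u v + dT N v w := by
  have h1 : dT N u w ≤ nd u (near N (near N u v) w) := dT_le rfl (rv_near _ _ _)
  have h2 := nd_tri u (near N u v) (near N (near N u v) w)
  have h3 : nd (near N u v) (near N (near N u v) w) = dT N (near N u v) w := nd_near _ _ _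
  have h4 : dT N (near N u v) w = dT N v w := by
    apply le_antisymm
    · have := dT_le (N := N) (u := near N u v) (v := w) (u' := v) (v' := near N v w)
        (rv_near N u v).symm (rv_near _ _ _)
      rwa [nd_near] at this
    · have := dT_le (N := N) (u := v) (v := w) (u' := near N u v)
        (v' := near N (near N u v) w) (rv_near _ _ _) (rv_near _ _ _)
      rwa [nd_near] at this
  rw [nd_near] at h2
  omega

theorem dT_comm (N : ℕ) (u v : Vtx) : dT N u v = dT N v u := by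
  have key : ∀ u v : Vtx, dT N u v ≤ dT N v u := by
    intro u v
    have := dT_le (N := N) (u := u) (v := v) (u' := near N v u) (v' := v) (rv_near _ _ _) rfl
    rwa [nd_comm, nd_near] at this
  exact le_antisymm (key u v) (key v u)

theorem dT_half {N : ℕ} (hN : 1 ≤ N) (u v : Vtx) : 2 * dT N u v ≤ N := by
  have g1 := Int.le_bmod (x := v.1 - u.1) hN
  have g2 := Int.bmod_lt (x := v.1 - u.1) hN
  have g3 := Int.le_bmod (x := v.2 - u.2) hN
  have g4 := Int.bmod_lt (x := v.2 - u.2) hN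
  unfold dT
  omega

/-- Two congruent points near `x` and near `y`. -/
theorem dT_of_near {N : ℕ} {x y u v : Vtx} (h : rv N u = rv N v) :
    dT N x y ≤ nd x u + nd y v := by
  rw [rv_iff] at h
  -- the translate of `y` by `u - v`
  have h1 : dT N x y ≤ nd x (y.1 + (u.1 - v.1), y.2 + (u.2 - v.2)) := by
    apply dT_le rfl
    rw [rv_iff]
    simp only [add_sub_cancel_left]
    exact h
  refine h1.trans ?_
  unfold nd
  simp only
  omega

/-! ### jointly pivotal edges -/

section Ends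

variable {E V : Type*} {s t : E → V}

theorem ends {F : Set E} {y z : E} {u v : V} (h : GR s t (insert y (insert z F)) u v) :
    GR s t F u v ∨ ∃ w, (w = s y ∨ w = t y ∨ w = s z ∨ w = t z) ∧ GR s t F u w := by
  induction h with
  | refl => exact Or.inl (GR.refl _ _)
  | @tail w w' _ hs ih =>
    rcases ih with ih | ih
    · obtain ⟨e, he, hc⟩ := hs
      rcases he with rfl | rfl | he
      · right
        refine ⟨w, ?_, ih⟩
        rcases hc with ⟨h1, _⟩ | ⟨_, h2⟩
        · exact Or.inl h1.symm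
        · exact Or.inr (Or.inl h2.symm)
      · right
        refine ⟨w, ?_, ih⟩
        rcases hc with ⟨h1, _⟩ | ⟨_, h2⟩
        · exact Or.inr (Or.inr (Or.inl h1.symm))
        · exact Or.inr (Or.inr (Or.inr h2.symm))
      · exact Or.inl (ih.trans (GAdj.gr ⟨e, he, hc⟩))
    · exact Or.inr ih

end Ends

/-- The ends of `x` are joined by adding `y` and `z`. -/
def Jn (N : ℕ) (x y z : Edg) (F : Set Edg) : Prop :=
  ¬ GR src (tt N) F (src x) (tt N x) ∧ GR src (tt N) (insert y (insert z F)) (src x) (tt N x)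

theorem Jn.one {N : ℕ} {x y z : Edg} {F : Set Edg} (h : Jn N x y z F) :
    ∃ w, (w = src y ∨ w = tt N y ∨ w = src z ∨ w = tt N z) ∧ GR src (tt N) F (src x) w := by
  rcases ends h.2 with h1 | h1
  · exact absurd h1 h.1
  · exact h1

theorem Jn.two {N : ℕ} {x y z : Edg} {F : Set Edg} (h : Jn N x y z F) :
    ∃ w, (w = src y ∨ w = tt N y ∨ w = src z ∨ w = tt N z) ∧ GR src (tt N) F (tt N x) w := by
  rcases ends h.2.symm with h1 | h1
  · exact absurd h1.symm h.1
  · exact h1

theorem tgt_near (e : Edg) : nd (src e) (tgt e) ≤ 1 := by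
  obtain ⟨x, y, _ | _⟩ := e
  · unfold nd; rw [tgt_false, src_mk]; simp
  · unfold nd; rw [tgt_true, src_mk]; simp

/-- Lifts of the ends of an edge are far. -/
theorem far_end {N : ℕ} {u : Vtx} {y : Edg} {m : ℕ} (h : m + 1 ≤ dT N u (src y)) {w w' : Vtx}
    (hw : w = src y ∨ w = tt N y) (hw' : rv N w' = rv N w) : m ≤ nd u w' := by
  rcases hw with rfl | rfl
  · have := dT_le (N := N) (u := u) (v := src y) (u' := u) rfl hw'
    omega
  · have h1 : rv N w' = rv N (tgt y) := by
      rw [hw']; unfold tt; rw [rv_rv]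
    have h2 := dT_of_near (x := u) (y := src y) h1
    have h3 := tgt_near y
    omega

theorem bsfar_of_nd {u w : Vtx} {m : ℕ} (h : m ≤ nd u w) : BSfar (u.1, u.2) m w := by
  unfold nd at h
  unfold BSfar
  simp only
  omega

theorem A4_of_Jn {N : ℕ} {x y z : Edg} {F : Set Edg} (hF : ∀ e ∈ F, e ∈ TE N)
    (hx : x ∈ TE N) (hxF : x ∉ F) (h : Jn N x y z F) {m : ℕ} (hm : 1 ≤ m)
    (h1 : m + 1 ≤ dT N (src x) (src y)) (h2 : m + 1 ≤ dT N (src x) (src z)) :
    A4e m x (lift N F) := by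
  have hsr : rv N (src x) = src x := rv_self (src_TV hx)
  have hlx : lift N F \ {x} = lift N F := by
    ext e
    constructor
    · exact fun h => h.1
    · intro h
      refine ⟨h, ?_⟩
      intro hex
      rw [Set.mem_singleton_iff] at hex
      rw [hex] at h
      change re N x ∈ F at h
      rw [re_self hx] at h
      exact hxF h
  have key : ∀ w w' : Vtx, (w = src y ∨ w = tt N y ∨ w = src z ∨ w = tt N z) → rv N w' = w →
      BSfar (x.1, x.2.1) m w' := by
    intro w w' hw hw'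
    have hw2 : rv N w' = rv N w := by rw [← hw', rv_rv]
    have h3 : m ≤ nd (src x) w' := by
      rcases hw with hw | hw | hw | hw
      · exact far_end h1 (Or.inl hw) hw2
      · exact far_end h1 (Or.inr hw) hw2
      · exact far_end h2 (Or.inl hw) hw2
      · exact far_end h2 (Or.inr hw) hw2
    exact bsfar_of_nd h3
  obtain ⟨w, hw, hr⟩ := h.one
  obtain ⟨v, hv, hrv⟩ := h.two
  obtain ⟨w', hw', hr'⟩ := up hF hr hsr
  obtain ⟨v', hv', hrv'⟩ := up hF hrv (u' := tgt x) rfl
  refine to_A4e hm (key w w' hw hw') (key v v' hv hv') (by rw [hlx]; exact hr')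
    (by rw [hlx]; exact hrv') ?_
  rw [hlx]
  intro hc
  apply h.1
  have := down hc
  rw [hsr] at this
  exact this

theorem AN_of_Jn {N : ℕ} {a b c : Edg} {F : Set Edg} (hF : ∀ e ∈ F, e ∈ TE N)
    (ha : a ∈ TE N) (hb : b ∈ TE N) (hc : c ∈ TE N)
    (h : Jn N a b c F) {ρ R : ℕ} (h1 : dT N (src b) (src c) + 1 ≤ ρ)
    (h2 : R + 1 ≤ dT N (src b) (src a)) (hρR : ρ ≤ R) :
    AN (b.1, b.2.1) ρ R (lift N F) := by
  have hsa : rv N (src a) = src a := rv_self (src_TV ha)
  -- lifts of the ends near `b`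
  have key : ∀ w : Vtx, (w = src b ∨ w = tt N b ∨ w = src c ∨ w = tt N c) →
      ∃ w', rv N w' = w ∧ inB (b.1, b.2.1) ρ w' := by
    have inb : ∀ w' : Vtx, nd (src b) w' ≤ ρ → inB (b.1, b.2.1) ρ w' := by
      intro w' h
      unfold nd src at h
      unfold inB inR
      simp only at h ⊢
      omega
    rintro w (rfl | rfl | rfl | rfl)
    · refine ⟨src b, rv_self (src_TV hb), inb _ ?_⟩
      unfold nd; simp
    · refine ⟨tgt b, rfl, inb _ ?_⟩
      have := tgt_near b
      omega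
    · refine ⟨near N (src b) (src c), ?_, inb _ ?_⟩
      · rw [rv_near]; exact rv_self (src_TV hc)
      · rw [nd_near]; omega
    · -- the translate of `tgt c`
      have g1 := rv_near N (src b) (src c)
      rw [rv_iff] at g1
      refine ⟨((near N (src b) (src c)).1 + ((tgt c).1 - (src c).1),
        (near N (src b) (src c)).2 + ((tgt c).2 - (src c).2)), ?_, inb _ ?_⟩
      · unfold tt
        rw [rv_iff]
        simp only
        refine ⟨?_, ?_⟩
        · have e : (near N (src b) (src c)).1 + ((tgt c).1 - (src c).1) - (tgt c).1 =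
            (near N (src b) (src c)).1 - (src c).1 := by ring
          rw [e]; exact g1.1
        · have e : (near N (src b) (src c)).2 + ((tgt c).2 - (src c).2) - (tgt c).2 =
            (near N (src b) (src c)).2 - (src c).2 := by ring
          rw [e]; exact g1.2
      · have h3 := nd_near N (src b) (src c)
        have h4 := tgt_near c
        unfold nd at h3 h4 ⊢
        simp only
        omega
  have far : ∀ w : Vtx, rv N w = rv N (src a) ∨ rv N w = rv N (tgt a) →
      BSfar (b.1, b.2.1) R w := by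
    intro w hw
    apply bsfar_of_nd (u := src b)
    rcases hw with hw | hw
    · have := dT_le (N := N) (u := src b) (v := src a) (u' := src b) rfl hw
      omega
    · have h3 := dT_of_near (x := src b) (y := src a) hw
      have h4 := tgt_near a
      omega
  obtain ⟨w, hw, hr⟩ := h.one
  obtain ⟨v, hv, hrv⟩ := h.two
  obtain ⟨w', hw', hwb⟩ := key w hw
  obtain ⟨v', hv', hvb⟩ := key v hv
  obtain ⟨p, hp, hrp⟩ := up hF hr.symm hw'
  obtain ⟨q, hq, hrq⟩ := up hF hrv.symm hv'
  refine to_AN hρR hwb hvb (far p (Or.inl (by rw [hp, hsa]))) (far q (Or.inr hq)) hrp hrq ?_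
  intro hcon
  apply h.1
  have h5 := down hcon
  rw [hw', hv'] at h5
  exact hr.trans (h5.trans hrv.symm)

end Pool.Agent.X135.AL
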