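import Pool.Agent.X135.AL.Tor

/-!
The probability that three edges of the torus are jointly pivotal.
-/

set_option autoImplicit false
set_option maxHeartbeats 1000000

namespace Pool.Agent.X135.AL

open H974 H12S Finset

theorem Ex_image {E E' : Type*} [DecidableEq E] [DecidableEq E'] (p : ℝ) (f : E → E')
    (W : Finset E) (hinj : Set.InjOn f ↑W) (g : Finset E' → ℝ) :
    Ex (fun _ => p) (W.image f) g = Ex (fun _ => p) W (fun F => g (F.image f)) := by
  induction W using Finset.induction_on generalizing g with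
  | empty => simp [Ex_empty]
  | insert a W ha ih =>
    have h1 : f a ∉ W.image f := by
      intro h
      rw [Finset.mem_image] at h
      obtain ⟨b, hb, hab⟩ := h
      have := hinj (by simp [hb]) (by simp) hab
      exact ha (this ▸ hb)
    have hinj' : Set.InjOn f ↑W := hinj.mono (by simp)
    rw [Finset.image_insert, Ex_insert _ h1, Ex_insert _ ha, ih hinj', ih hinj']
    congr 2
    apply Ex_congr
    intro F _
    rw [Finset.image_insert]

theorem pr_lift {N : ℕ} {p : ℝ} {S W : Finset Edg} (hinj : Set.InjOn (re N) ↑W)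
    (hS : W.image (re N) ⊆ S) {X : Set Edg → Prop} (hX : ∀ G : Set Edg, X G ↔ X (G ∩ ↑W)) :
    PQ p S (fun F => X (lift N ↑F)) = PQ p W (fun G => X ↑G) := by
  have e1 : PQ p S (fun F => X (lift N ↑F)) = PQ p (W.image (re N)) (fun F => X (lift N ↑F)) := by
    apply Pr_local hS
    intro F _
    rw [hX (lift N ↑F), hX (lift N ↑(F ∩ W.image (re N)))]
    have : lift N (↑F : Set Edg) ∩ ↑W = lift N (↑(F ∩ W.image (re N)) : Set Edg) ∩ ↑W := by
      ext e
      constructor
      · rintro ⟨h1, h2⟩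
        refine ⟨?_, h2⟩
        change re N e ∈ (↑(F ∩ W.image (re N)) : Set Edg)
        rw [Finset.mem_coe, Finset.mem_inter]
        exact ⟨h1, Finset.mem_image_of_mem _ h2⟩
      · rintro ⟨h1, h2⟩
        refine ⟨?_, h2⟩
        have h3 : re N e ∈ (↑(F ∩ W.image (re N)) : Set Edg) := h1
        rw [Finset.mem_coe, Finset.mem_inter] at h3
        exact h3.1
    rw [this]
  rw [e1]
  unfold PQ Pr
  rw [Ex_image p (re N) W hinj]
  apply Ex_congr
  intro G hG
  apply ind_congr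
  change X (lift N ↑(G.image (re N))) ↔ X (↑G : Set Edg)
  rw [hX (lift N ↑(G.image (re N))), hX (↑G : Set Edg)]
  have : lift N (↑(G.image (re N)) : Set Edg) ∩ ↑W = (↑G : Set Edg) ∩ ↑W := by
    ext e
    constructor
    · rintro ⟨h1, h2⟩
      refine ⟨?_, h2⟩
      have h3 : re N e ∈ (↑(G.image (re N)) : Set Edg) := h1
      rw [Finset.mem_coe, Finset.mem_image] at h3
      obtain ⟨e', he', hee⟩ := h3
      have := hinj (hG he') h2 hee
      exact this ▸ he'
    · rintro ⟨h1, h2⟩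
      refine ⟨?_, h2⟩
      change re N e ∈ (↑(G.image (re N)) : Set Edg)
      rw [Finset.mem_coe]
      exact Finset.mem_image_of_mem _ h1
  rw [this]

theorem lift_local {N : ℕ} {W F : Finset Edg} {X : Set Edg → Prop}
    (hX : ∀ G : Set Edg, X G ↔ X (G ∩ ↑W)) :
    X (lift N ↑F) ↔ X (lift N ↑(F ∩ W.image (re N))) := by
  rw [hX (lift N ↑F), hX (lift N ↑(F ∩ W.image (re N)))]
  have : lift N (↑F : Set Edg) ∩ ↑W = lift N (↑(F ∩ W.image (re N)) : Set Edg) ∩ ↑W := by
    ext e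
    constructor
    · rintro ⟨h1, h2⟩
      refine ⟨?_, h2⟩
      change re N e ∈ (↑(F ∩ W.image (re N)) : Set Edg)
      rw [Finset.mem_coe, Finset.mem_inter]
      exact ⟨h1, Finset.mem_image_of_mem _ h2⟩
    · rintro ⟨h1, h2⟩
      refine ⟨?_, h2⟩
      have h3 : re N e ∈ (↑(F ∩ W.image (re N)) : Set Edg) := h1
      rw [Finset.mem_coe, Finset.mem_inter] at h3
      exact h3.1
  rw [this]

/-! ### positions -/

theorem ebx_nd {x e : Edg} {m : ℕ} (h : e ∈ ebx x m) : nd (src x) (src e) ≤ m ∧ 1 ≤ m := by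
  obtain ⟨a, b, β⟩ := e
  unfold ebx at h
  unfold nd src
  cases β
  · rw [mem_RE_false] at h
    simp only
    omega
  · rw [mem_RE_true] at h
    simp only
    omega

theorem anE_nd {b e : Edg} {ρ R : ℕ} (hρ : 1 ≤ ρ) (h : e ∈ anE (b.1, b.2.1) ρ R) :
    ρ ≤ nd (src b) (src e) ∧ nd (src b) (src e) ≤ R := by
  obtain ⟨x, y, β⟩ := e
  unfold anE blk at h
  unfold nd src
  rw [Finset.mem_sdiff] at h
  cases β
  · rw [mem_RE_false, mem_RE_false] at h
    simp only at h ⊢
    omega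
  · rw [mem_RE_true, mem_RE_true] at h
    simp only at h ⊢
    omega

theorem rv_inj {N : ℕ} {u v : Vtx} (h : rv N u = rv N v) (h2 : nd u v < N) : u = v := by
  rw [rv_iff] at h
  obtain ⟨⟨k, hk⟩, ⟨l, hl⟩⟩ := h
  unfold nd at h2
  have hN : (0:ℤ) < N := by omega
  have key : ∀ a b k : ℤ, a - b = N * k → (b - a).natAbs < N → a = b := by
    intro a b k hk hab
    rcases lt_trichotomy k 0 with hk0 | hk0 | hk0
    · have : (N:ℤ) * k ≤ -N := by nlinarith
      omega
    · rw [hk0, mul_zero] at hk; omega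
    · have : (N:ℤ) ≤ N * k := by nlinarith
      omega
  exact Prod.ext (key _ _ k hk (lt_of_le_of_lt (le_max_left _ _) h2))
    (key _ _ l hl (lt_of_le_of_lt (le_max_right _ _) h2))

theorem re_inj_ebx {N : ℕ} {x : Edg} {m : ℕ} (h : 2 * m < N) :
    Set.InjOn (re N) ↑(ebx x m) := by
  intro e he f hf hef
  rw [re_iff] at hef
  have h1 := ebx_nd (Finset.mem_coe.mp he)
  have h2 := ebx_nd (Finset.mem_coe.mp hf)
  have h3 := nd_tri (src e) (src x) (src f)
  rw [nd_comm (src e) (src x)] at h3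
  have h4 := rv_inj hef.1 (by omega)
  obtain ⟨x1, y1, β1⟩ := e
  obtain ⟨x2, y2, β2⟩ := f
  simp only [src_mk, Prod.mk.injEq] at h4 hef ⊢
  exact ⟨h4.1, h4.2, hef.2⟩

theorem re_inj_anE {N : ℕ} {b : Edg} {ρ R : ℕ} (hρ : 1 ≤ ρ) (h : 2 * R < N) :
    Set.InjOn (re N) ↑(anE (b.1, b.2.1) ρ R) := by
  intro e he f hf hef
  rw [re_iff] at hef
  have h1 := (anE_nd hρ (Finset.mem_coe.mp he)).2
  have h2 := (anE_nd hρ (Finset.mem_coe.mp hf)).2
  have h3 := nd_tri (src e) (src b) (src f)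
  rw [nd_comm (src e) (src b)] at h3
  have h4 := rv_inj hef.1 (by omega)
  obtain ⟨x1, y1, β1⟩ := e
  obtain ⟨x2, y2, β2⟩ := f
  simp only [src_mk, Prod.mk.injEq] at h4 hef ⊢
  exact ⟨h4.1, h4.2, hef.2⟩

/-- Edges near `x` do not reduce to a far edge. -/
theorem re_ne {N : ℕ} {x y e : Edg} {s : ℕ} (hy : y ∈ TE N) (h : nd (src x) (src e) ≤ s)
    (h2 : s < dT N (src x) (src y)) : re N e ≠ y := by
  intro he
  rw [← re_self hy, re_iff] at he
  have := dT_of_near (x := src x) (y := src y) he.1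
  have h3 : nd (src y) (src y) = 0 := by unfold nd; simp
  omega

/-! ### the local events -/

/-- The edges around `x`. -/
noncomputable def W1 (x : Edg) (m : ℕ) : Finset Edg := (ebx x m).erase x

def X1 (x : Edg) (m : ℕ) (G : Set Edg) : Prop := m = 0 ∨ A4e m x G

noncomputable def WA (b : Edg) (ρ R : ℕ) : Finset Edg := anE (b.1, b.2.1) ρ R

def XA (b : Edg) (ρ R : ℕ) (G : Set Edg) : Prop := R < ρ ∨ AN (b.1, b.2.1) ρ R G

theorem X1_loc (x : Edg) (m : ℕ) (G : Set Edg) : X1 x m G ↔ X1 x m (G ∩ ↑(W1 x m)) := by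
  unfold X1
  rcases Nat.eq_zero_or_pos m with hm | hm
  · simp [hm]
  have hE : (G ∩ ↑(RE (x.1 - m) (x.1 + m) (x.2.1 - m) (x.2.1 + m))) \ {x} =
      ((G ∩ ↑(W1 x m)) ∩ ↑(RE (x.1 - m) (x.1 + m) (x.2.1 - m) (x.2.1 + m))) \ {x} := by
    ext e
    constructor
    · rintro ⟨⟨h1, h2⟩, h3⟩
      refine ⟨⟨⟨h1, ?_⟩, h2⟩, h3⟩
      rw [Finset.mem_coe]
      unfold W1 ebx
      rw [Finset.mem_erase]
      exact ⟨h3, h2⟩
    · rintro ⟨⟨⟨h1, _⟩, h2⟩, h3⟩
      exact ⟨⟨h1, h2⟩, h3⟩
  constructor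
  · rintro (h | h)
    · exact Or.inl h
    · exact Or.inr (A4_local hE h)
  · rintro (h | h)
    · exact Or.inl h
    · exact Or.inr (A4_local hE.symm h)

theorem XA_loc (b : Edg) (ρ R : ℕ) (G : Set Edg) : XA b ρ R G ↔ XA b ρ R (G ∩ ↑(WA b ρ R)) := by
  unfold XA AN WA
  rw [Set.inter_assoc, Set.inter_self]

/-- Bounds for the local events. -/
noncomputable def al (p : ℝ) (m : ℕ) : ℝ := if m = 0 then 1 else a4 p m

noncomputable def be (p : ℝ) (ρ R : ℕ) : ℝ :=
  if R < ρ then 1 else PQ p (blk (0, 0) R) (fun F => AN (0, 0) ρ R ↑F)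

theorem al_nonneg {p : ℝ} (h0 : 0 ≤ p) (h1 : p ≤ 1) (m : ℕ) : 0 ≤ al p m := by
  unfold al
  split_ifs
  · exact zero_le_one
  · exact LP_a4_nonneg h0 h1 m

theorem be_nonneg {p : ℝ} (h0 : 0 ≤ p) (h1 : p ≤ 1) (ρ R : ℕ) : 0 ≤ be p ρ R := by
  unfold be
  split_ifs
  · exact zero_le_one
  · exact Pr_nonneg (okq h0 h1) _ _

theorem pr_X1 {p : ℝ} (h0 : 0 ≤ p) (h1 : p ≤ 1) {N : ℕ} {S : Finset Edg} {x : Edg} {m : ℕ}
    (hm : 2 * m < N) (hS : (W1 x m).image (re N) ⊆ S) :
    PQ p S (fun F => X1 x m (lift N ↑F)) ≤ al p m := by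
  have ok := okq h0 h1
  unfold al
  split_ifs with hm0
  · exact Pr_le_one ok _ _
  · have hinj : Set.InjOn (re N) ↑(W1 x m) :=
      (re_inj_ebx hm).mono (by unfold W1; exact_mod_cast Finset.erase_subset _ _)
    rw [pr_lift hinj hS (X1_loc x m)]
    have h2 : PQ p (W1 x m) (fun G => X1 x m ↑G) = PQ p (ebx x m) (fun G => X1 x m ↑G) := by
      symm
      apply Pr_local (by unfold W1; exact Finset.erase_subset _ _)
      intro F _
      rw [Finset.coe_inter]
      exact X1_loc x m _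
    rw [h2]
    refine le_trans ?_ (pr_A4e h0 h1 (Finset.Subset.refl (ebx x m)))
    apply Pr_mono ok
    rintro F _ (h | h)
    · exact absurd h hm0
    · exact h

theorem pr_XA {p : ℝ} (h0 : 0 ≤ p) (h1 : p ≤ 1) {N : ℕ} {S : Finset Edg} {b : Edg} {ρ R : ℕ}
    (hρ : 1 ≤ ρ) (hR : 2 * R < N) (hS : (WA b ρ R).image (re N) ⊆ S) :
    PQ p S (fun F => XA b ρ R (lift N ↑F)) ≤ be p ρ R := by
  have ok := okq h0 h1
  unfold be
  split_ifs with hlt
  · exact Pr_le_one ok _ _
  · rw [pr_lift (re_inj_anE hρ hR) hS (XA_loc b ρ R)]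
    have h2 : PQ p (WA b ρ R) (fun G => XA b ρ R ↑G) =
        PQ p (blk (b.1, b.2.1) R) (fun G => XA b ρ R ↑G) := by
      symm
      apply Pr_local (by unfold WA anE; exact Finset.sdiff_subset)
      intro F _
      rw [Finset.coe_inter]
      exact XA_loc b ρ R _
    unfold WA at h2
    rw [h2, ← AN_pr p (b.1, b.2.1) ρ R]
    apply Pr_mono ok
    rintro F _ (h | h)
    · exact absurd h hlt
    · exact h

theorem Pr_indep4 {E : Type*} [DecidableEq E] {p : E → ℝ} {U V1 V2 V3 V4 : Finset E}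
    (h1 : V1 ⊆ U) (h2 : V2 ⊆ U) (h3 : V3 ⊆ U) (h4 : V4 ⊆ U) (d12 : Disjoint V1 V2)
    (d13 : Disjoint V1 V3) (d14 : Disjoint V1 V4) (d23 : Disjoint V2 V3) (d24 : Disjoint V2 V4)
    (d34 : Disjoint V3 V4) {A B C D : Finset E → Prop}
    (hA : ∀ F : Finset E, A F ↔ A (F ∩ V1)) (hB : ∀ F : Finset E, B F ↔ B (F ∩ V2))
    (hC : ∀ F : Finset E, C F ↔ C (F ∩ V3)) (hD : ∀ F : Finset E, D F ↔ D (F ∩ V4)) :
    Pr p U (fun F => A F ∧ B F ∧ C F ∧ D F) = Pr p U A * (Pr p U B * (Pr p U C * Pr p U D)) := by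
  have key : ∀ {X : Finset E → Prop} {V V' : Finset E}, V ⊆ V' →
      (∀ F : Finset E, X F ↔ X (F ∩ V)) → ∀ F : Finset E, X F ↔ X (F ∩ V') := by
    intro X V V' hV hX F
    rw [hX F, hX (F ∩ V'), Finset.inter_assoc, Finset.inter_eq_right.mpr hV]
  have e34 := Pr_indep (p := p) h3 h4 d34 (A := C) (B := D) (fun F _ => hC F) (fun F _ => hD F)
  have l34 : ∀ F : Finset E, (C F ∧ D F) ↔ (C (F ∩ (V3 ∪ V4)) ∧ D (F ∩ (V3 ∪ V4))) := fun F =>
    and_congr (key Finset.subset_union_left hC F) (key Finset.subset_union_right hD F)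
  have e234 := Pr_indep (p := p) h2 (Finset.union_subset h3 h4)
    (Finset.disjoint_union_right.mpr ⟨d23, d24⟩) (A := B) (B := fun F => C F ∧ D F)
    (fun F _ => hB F) (fun F _ => l34 F)
  have l234 : ∀ F : Finset E, (B F ∧ C F ∧ D F) ↔
      (B (F ∩ (V2 ∪ (V3 ∪ V4))) ∧ C (F ∩ (V2 ∪ (V3 ∪ V4))) ∧ D (F ∩ (V2 ∪ (V3 ∪ V4)))) := fun F =>
    and_congr (key Finset.subset_union_left hB F) (and_congr
      (key (Finset.subset_union_left.trans Finset.subset_union_right) hC F)
      (key (Finset.subset_union_right.trans Finset.subset_union_right) hD F))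
  have e1234 := Pr_indep (p := p) h1 (Finset.union_subset h2 (Finset.union_subset h3 h4))
    (Finset.disjoint_union_right.mpr ⟨d12, Finset.disjoint_union_right.mpr ⟨d13, d14⟩⟩)
    (A := A) (B := fun F => B F ∧ C F ∧ D F) (fun F _ => hA F) (fun F _ => l234 F)
  rw [e1234, e234, e34]

/-- The edges are jointly pivotal. -/
def JJ (N : ℕ) (a b c : Edg) (F : Set Edg) : Prop := Jn N a b c F ∧ Jn N b a c F ∧ Jn N c a b F

/-- **The probability that three edges are jointly pivotal.** -/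
theorem joint_pr {p : ℝ} (h0 : 0 ≤ p) (h1 : p ≤ 1) {N : ℕ} (hN : 1 ≤ N) {a b c : Edg}
    (ha : a ∈ TE N) (hb : b ∈ TE N) (hc : c ∈ TE N) {d r : ℕ} (hd : d = dT N (src b) (src c))
    (hr : r = dT N (src b) (src a)) (hdr : d ≤ r) (hdc : d ≤ dT N (src c) (src a)) :
    PQ p (((TE N).erase a).erase b |>.erase c) (fun F => JJ N a b c ↑F) ≤
      al p (d / 8) * (al p (d / 8) * (be p (2 * d + 2) (r / 4) * al p (r / 8))) := by
  classical
  have ok := okq h0 h1
  obtain ⟨S, hS⟩ : ∃ S, S = (((TE N).erase a).erase b).erase c := ⟨_, rfl⟩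
  rw [← hS]
  obtain ⟨r', hr'⟩ : ∃ r', r' = dT N (src c) (src a) := ⟨_, rfl⟩
  have hd2 : 2 * d ≤ N := by rw [hd]; exact dT_half hN _ _
  have hr2 : 2 * r ≤ N := by rw [hr]; exact dT_half hN _ _
  have hrr : r ≤ d + r' := by rw [hd, hr, hr']; exact dT_tri _ _ _ _
  rw [← hr'] at hdc
  have hS' : ∀ e, e ∈ TE N → e ≠ a → e ≠ b → e ≠ c → e ∈ S := by
    intro e g1 g2 g3 g4
    rw [hS]
    simp only [Finset.mem_erase]
    exact ⟨g4, g3, g2, g1⟩
  have hST : S ⊆ TE N := by
    rw [hS]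
    exact (Finset.erase_subset _ _).trans ((Finset.erase_subset _ _).trans
      (Finset.erase_subset _ _))
  have hSn : a ∉ S ∧ b ∉ S ∧ c ∉ S := by
    rw [hS]
    simp
  obtain ⟨m, hm⟩ : ∃ m, m = d / 8 := ⟨_, rfl⟩
  obtain ⟨M, hM⟩ : ∃ M, M = r / 8 := ⟨_, rfl⟩
  obtain ⟨R, hR⟩ : ∃ R, R = r / 4 := ⟨_, rfl⟩
  obtain ⟨ρ, hρ⟩ : ∃ ρ, ρ = 2 * d + 2 := ⟨_, rfl⟩
  rw [← hm, ← hM, ← hR, ← hρ]
  have cbc : dT N (src c) (src b) = d := by rw [dT_comm]; exact hd.symm
  have cab : dT N (src a) (src b) = r := by rw [dT_comm]; exact hr.symm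
  have cac : dT N (src a) (src c) = r' := by rw [dT_comm]; exact hr'.symm
  -- not the edge itself
  have self_ne : ∀ x e : Edg, x ∈ TE N → ∀ s : ℕ, 2 * s < N → e ∈ W1 x s → re N e ≠ x := by
    intro x e hx s hs he hre
    unfold W1 at he
    rw [Finset.mem_erase] at he
    rw [← re_self hx, re_iff] at hre
    have h3 := (ebx_nd he.2).1
    have h4 := rv_inj hre.1 (by rw [nd_comm]; omega)
    apply he.1
    obtain ⟨x1, y1, β1⟩ := e
    obtain ⟨x2, y2, β2⟩ := x
    simp only [src_mk, Prod.mk.injEq] at h4 hre ⊢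
    exact ⟨h4.1, h4.2, hre.2⟩
  have w1nd : ∀ (x e : Edg) (s : ℕ), e ∈ W1 x s → nd (src x) (src e) ≤ s ∧ 1 ≤ s := by
    intro x e s he
    unfold W1 at he
    exact ebx_nd (Finset.mem_of_mem_erase he)
  -- images
  have i1 : (W1 b m).image (re N) ⊆ S := by
    intro f hf
    rw [Finset.mem_image] at hf
    obtain ⟨e, he, rfl⟩ := hf
    obtain ⟨g1, g2⟩ := w1nd b e m he
    exact hS' _ (re_TE hN e) (re_ne (x := b) ha g1 (by omega)) (self_ne b e hb m (by omega) he)
      (re_ne (x := b) hc g1 (by omega))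
  have i2 : (W1 c m).image (re N) ⊆ S := by
    intro f hf
    rw [Finset.mem_image] at hf
    obtain ⟨e, he, rfl⟩ := hf
    obtain ⟨g1, g2⟩ := w1nd c e m he
    exact hS' _ (re_TE hN e) (re_ne (x := c) ha g1 (by omega)) (re_ne (x := c) hb g1 (by omega))
      (self_ne c e hc m (by omega) he)
  have i4 : (W1 a M).image (re N) ⊆ S := by
    intro f hf
    rw [Finset.mem_image] at hf
    obtain ⟨e, he, rfl⟩ := hf
    obtain ⟨g1, g2⟩ := w1nd a e M he
    exact hS' _ (re_TE hN e) (self_ne a e ha M (by omega) he) (re_ne (x := a) hb g1 (by omega))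
      (re_ne (x := a) hc g1 (by omega))
  have i3 : (WA b ρ R).image (re N) ⊆ S := by
    intro f hf
    rw [Finset.mem_image] at hf
    obtain ⟨e, he, rfl⟩ := hf
    obtain ⟨g1, g2⟩ := anE_nd (by omega) he
    refine hS' _ (re_TE hN e) (re_ne (x := b) ha g2 (by omega)) ?_ ?_
    · intro hre
      rw [← re_self hb, re_iff] at hre
      have h4 := rv_inj hre.1 (by rw [nd_comm]; omega)
      rw [h4] at g1
      unfold nd at g1
      simp only [sub_self, Int.natAbs_zero, max_self] at g1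
      omega
    · intro hre
      rw [← re_self hc, re_iff] at hre
      have h5 : rv N (src e) = rv N (near N (src b) (src c)) := by rw [rv_near]; exact hre.1
      have h6 := nd_near N (src b) (src c)
      have h7 := nd_tri (src e) (src b) (near N (src b) (src c))
      rw [nd_comm (src e) (src b)] at h7
      have h4 := rv_inj h5 (by omega)
      rw [h4] at g1
      omega
  -- disjointness
  have dis : ∀ (x y : Edg) (s s' : ℕ), (1 ≤ s → 1 ≤ s' → s + s' < dT N (src x) (src y)) →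
      Disjoint ((W1 x s).image (re N)) ((W1 y s').image (re N)) := by
    intro x y s s' h
    rw [Finset.disjoint_left]
    intro f hf hf'
    rw [Finset.mem_image] at hf hf'
    obtain ⟨e, he, hef⟩ := hf
    obtain ⟨e', he', hef'⟩ := hf'
    obtain ⟨g1, g2⟩ := w1nd x e s he
    obtain ⟨g3, g4⟩ := w1nd y e' s' he'
    have h5 : re N e = re N e' := by rw [hef, hef']
    rw [re_iff] at h5
    have h6 := dT_of_near (x := src x) (y := src y) h5.1
    have := h g2 g4
    omega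
  have d12 := dis b c m m (by intro h h'; omega)
  have d14 := dis b a m M (by intro h h'; omega)
  have d24 := dis c a m M (by intro h h'; omega)
  have d34 : Disjoint ((WA b ρ R).image (re N)) ((W1 a M).image (re N)) := by
    rw [Finset.disjoint_left]
    intro f hf hf'
    rw [Finset.mem_image] at hf hf'
    obtain ⟨e, he, hef⟩ := hf
    obtain ⟨e', he', hef'⟩ := hf'
    obtain ⟨g1, g2⟩ := anE_nd (by omega) he
    obtain ⟨g3, g4⟩ := w1nd a e' M he'
    have h5 : re N e = re N e' := by rw [hef, hef']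
    rw [re_iff] at h5
    have h6 := dT_of_near (x := src b) (y := src a) h5.1
    omega
  have d13 : Disjoint ((W1 b m).image (re N)) ((WA b ρ R).image (re N)) := by
    rw [Finset.disjoint_left]
    intro f hf' hf
    rw [Finset.mem_image] at hf hf'
    obtain ⟨e, he, hef⟩ := hf
    obtain ⟨e', he', hef'⟩ := hf'
    obtain ⟨g1, g2⟩ := anE_nd (by omega) he
    obtain ⟨g3, g4⟩ := w1nd b e' m he'
    have h5 : re N e = re N e' := by rw [hef, hef']
    rw [re_iff] at h5
    have h7 := nd_tri (src e) (src b) (src e')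
    rw [nd_comm (src e) (src b)] at h7
    have h4 := rv_inj h5.1 (by omega)
    rw [h4] at g1
    omega
  have d23 : Disjoint ((W1 c m).image (re N)) ((WA b ρ R).image (re N)) := by
    rw [Finset.disjoint_left]
    intro f hf' hf
    rw [Finset.mem_image] at hf hf'
    obtain ⟨e, he, hef⟩ := hf
    obtain ⟨e', he', hef'⟩ := hf'
    obtain ⟨g1, g2⟩ := anE_nd (by omega) he
    obtain ⟨g3, g4⟩ := w1nd c e' m he'
    have h5 : re N e = re N e' := by rw [hef, hef']
    rw [re_iff] at h5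
    -- translate of `e'`
    obtain ⟨v, hv⟩ : ∃ v : Vtx, v = ((src e').1 + ((near N (src b) (src c)).1 - (src c).1),
      (src e').2 + ((near N (src b) (src c)).2 - (src c).2)) := ⟨_, rfl⟩
    have k1 : rv N v = rv N (src e') := by
      have g := rv_near N (src b) (src c)
      rw [rv_iff] at g ⊢
      rw [hv]
      simp only [add_sub_cancel_left]
      exact g
    have k2 : nd (src b) v ≤ d + m := by
      have h8 := nd_near N (src b) (src c)
      rw [← hd] at h8
      rw [hv]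
      unfold nd at h8 g3 ⊢
      simp only
      omega
    have h7 := nd_tri (src e) (src b) v
    rw [nd_comm (src e) (src b)] at h7
    have h4 := rv_inj (h5.1.trans k1.symm) (by omega)
    rw [h4] at g1
    omega
  -- the implication
  have himp : PQ p S (fun F => JJ N a b c ↑F) ≤ PQ p S (fun F => X1 b m (lift N ↑F) ∧
      X1 c m (lift N ↑F) ∧ XA b ρ R (lift N ↑F) ∧ X1 a M (lift N ↑F)) := by
    apply Pr_mono ok
    rintro F hF ⟨j1, j2, j3⟩
    have hFT : ∀ e ∈ (↑F : Set Edg), e ∈ TE N := fun e he => hST (hF he)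
    refine ⟨?_, ?_, ?_, ?_⟩
    · rcases Nat.eq_zero_or_pos m with h | h
      · exact Or.inl h
      · exact Or.inr (A4_of_Jn hFT hb (fun h => hSn.2.1 (hF h)) j2 h (by omega) (by omega))
    · rcases Nat.eq_zero_or_pos m with h | h
      · exact Or.inl h
      · exact Or.inr (A4_of_Jn hFT hc (fun h => hSn.2.2 (hF h)) j3 h (by omega) (by omega))
    · rcases lt_or_ge R ρ with h | h
      · exact Or.inl h
      · exact Or.inr (AN_of_Jn hFT ha hb hc j1 (by omega) (by omega) h)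
    · rcases Nat.eq_zero_or_pos M with h | h
      · exact Or.inl h
      · exact Or.inr (A4_of_Jn hFT ha (fun h => hSn.1 (hF h)) j1 h (by omega) (by omega))
  refine himp.trans ?_
  have hprod := Pr_indep4 (p := fun _ => p) i1 i2 i3 i4 d12 d13 d14 d23 d24 d34
    (A := fun F => X1 b m (lift N ↑F)) (B := fun F => X1 c m (lift N ↑F))
    (C := fun F => XA b ρ R (lift N ↑F)) (D := fun F => X1 a M (lift N ↑F))
    (fun F => lift_local (X1_loc b m)) (fun F => lift_local (X1_loc c m))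
    (fun F => lift_local (XA_loc b ρ R)) (fun F => lift_local (X1_loc a M))
  refine hprod.le.trans ?_
  have p1 := pr_X1 h0 h1 (N := N) (x := b) (m := m) (by omega) i1
  have p2 := pr_X1 h0 h1 (N := N) (x := c) (m := m) (by omega) i2
  have p3 := pr_XA h0 h1 (N := N) (b := b) (ρ := ρ) (R := R) (by omega) (by omega) i3
  have p4 := pr_X1 h0 h1 (N := N) (x := a) (m := M) (by omega) i4
  have q1 := al_nonneg h0 h1 m
  have q3 := be_nonneg h0 h1 ρ R
  have q4 := al_nonneg h0 h1 M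
  have n1 : ∀ A : Finset Edg → Prop, 0 ≤ Pr (fun _ => p) S A := fun A => Pr_nonneg ok _ _
  exact mul_le_mul p1 (mul_le_mul p2 (mul_le_mul p3 p4 (n1 _) q3)
    (mul_nonneg (n1 _) (n1 _)) q1) (mul_nonneg (n1 _) (mul_nonneg (n1 _) (n1 _))) q1

end Pool.Agent.X135.AL
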